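import Pool.Agent.H196.Stair

/-!
Blocking maps for one `1`-Lipschitz function, and for countably many properties at once.
-/

set_option autoImplicit false

open Set Filter Topology Metric

namespace Pool.Agent.H196

variable {X : Type*} [PseudoMetricSpace X]

/-- one step -/
theorem exists_step {ℓ : X → ℝ} (hℓ : ∀ x y, |ℓ x - ℓ y| ≤ dist x y) {a δ : ℝ} (ha : 0 < a)
    (ha1 : a ≤ 1) (hδ : 0 < δ) :
    ∃ φ S, Mv X a φ S (fun x y => |ℓ x - ℓ y| ≤ δ) := by
  have hc : Continuous ℓ := by
    refine LipschitzWith.continuous (K := 1) (LipschitzWith.of_dist_le_mul fun x y => ?_)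
    rw [Real.dist_eq]
    simpa using hℓ x y
  set s : ℝ := 2 / δ with hs
  have hs0 : 0 < s := by positivity
  set t : ℝ := a / 4 with ht
  have ht0 : 0 < t := by positivity
  have ht1 : t < 1 := by linarith
  set h : ℝ := a / (9 * s + 2) with hh
  have hh0 : 0 < h := by positivity
  have h9 : 9 * (h * s) + 2 * h = a := by
    rw [hh]
    field_simp
  have hhs : 0 < h * s := by positivity
  have h2h : 2 * h ≤ a := by linarith
  have h9h : 9 * (h * s) ≤ a := by linarith
  have hd : 0 < 1 - t := by linarith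
  have hd2 : 1 / (1 - t) ≤ 2 := by
    rw [div_le_iff₀ hd]
    linarith
  have hd1 : 1 ≤ 1 / (1 - t) := by
    rw [le_div_iff₀ hd]
    linarith
  have hdd : 1 / (1 - t) * (1 / (1 - t)) ≤ 1 + a := by
    rw [div_mul_div_comm, mul_one, div_le_iff₀ (by positivity)]
    have : t = a / 4 := ht
    rw [this]
    nlinarith [mul_nonneg ha.le (by linarith : 0 ≤ 1 - a), mul_pos ha ha, mul_pos (mul_pos ha ha) ha]
  set φ₁ : ℝ → X → ℝ := shear t h s ℓ with hφ₁
  set φ₂ : ℝ → X → ℝ := shear t h (-s) ℓ with hφ₂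
  have l1 := fun u v x y => shear_lip (s := s) ht0 ht1 hh0 hℓ u v x y
  have l2 := fun u v x y => shear_lip (s := -s) ht0 ht1 hh0 hℓ u v x y
  have n1 := fun u x => shear_near (s := s) (ℓ := ℓ) ht1 hh0 u x
  have n2 := fun u x => shear_near (s := -s) (ℓ := ℓ) ht1 hh0 u x
  rw [abs_neg] at l2
  rw [abs_of_pos hs0] at l1 l2
  have hcont1 : Continuous (fun p : ℝ × X => φ₁ p.1 p.2) := by
    rw [Metric.continuous_iff]
    intro b ε hε
    refine ⟨ε / 12, by positivity, fun c hc' => ?_⟩
    rw [Real.dist_eq]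
    have e1 := l1 c.1 b.1 c.2 b.2
    have e2 : |c.1 - b.1| ≤ dist c b := by
      rw [← Real.dist_eq, Prod.dist_eq]
      exact le_max_left _ _
    have e3 : dist c.2 b.2 ≤ dist c b := by
      rw [Prod.dist_eq]
      exact le_max_right _ _
    have e4 : h * s * (1 / (1 - t) + 1) ≤ 3 * 1 := by
      have : h * s ≤ 1 := by linarith
      calc h * s * (1 / (1 - t) + 1) ≤ 1 * (2 + 1) := by gcongr
        _ = 3 * 1 := by norm_num
    calc |φ₁ c.1 c.2 - φ₁ b.1 b.2| ≤ _ := e1
      _ ≤ 2 * dist c b + (3 * 1) * dist c b := by gcongr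
      _ < 2 * (ε / 12) + (3 * 1) * (ε / 12) := by gcongr
      _ ≤ ε := by linarith
  refine ⟨fun u x => φ₂ (φ₁ u x) x, strips t h s ℓ ∩ {p | (φ₁ p.1 p.2, p.2) ∈ strips t h (-s) ℓ},
    ?_, ?_, ?_, ?_, ?_⟩
  · intro u v x y
    have e0 : 0 ≤ dist x y := dist_nonneg
    calc |φ₂ (φ₁ u x) x - φ₂ (φ₁ v y) y| ≤
        1 / (1 - t) * |φ₁ u x - φ₁ v y| + h * s * (1 / (1 - t) + 1) * dist x y := l2 _ _ _ _
      _ ≤ 1 / (1 - t) * (1 / (1 - t) * |u - v| + h * s * (1 / (1 - t) + 1) * dist x y) +
          h * s * (1 / (1 - t) + 1) * dist x y := by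
          gcongr
          exact l1 _ _ _ _
      _ = (1 / (1 - t) * (1 / (1 - t))) * |u - v| +
          (h * s * ((1 / (1 - t) + 1) * (1 / (1 - t) + 1))) * dist x y := by ring
      _ ≤ (1 + a) * |u - v| + (h * s * ((2 + 1) * (2 + 1))) * dist x y := by
          gcongr
      _ ≤ (1 + a) * |u - v| + a * dist x y := by
          gcongr
          linarith
  · intro u x
    calc |φ₂ (φ₁ u x) x - u| = |(φ₂ (φ₁ u x) x - φ₁ u x) + (φ₁ u x - u)| := by ring_nf
      _ ≤ |φ₂ (φ₁ u x) x - φ₁ u x| + |φ₁ u x - u| := abs_add_le _ _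
      _ ≤ h + h := add_le_add (n2 _ _) (n1 _ _)
      _ ≤ a := by linarith
  · refine (strips_closed hc).inter ?_
    exact (strips_closed hc).preimage (hcont1.prodMk continuous_snd)
  · intro p hp
    by_cases hp1 : p ∈ strips t h s ℓ
    · have hp2 : (φ₁ p.1 p.2, p.2) ∉ strips t h (-s) ℓ := fun h' => hp ⟨hp1, h'⟩
      obtain ⟨r, hr, hr'⟩ := shear_loc ht1 hc hp2
      have hev : ∀ᶠ q in 𝓝 p, |φ₁ q.1 q.2 - φ₁ p.1 p.2| < r := by
        have := hcont1.continuousAt (x := p)
        have h3 := this.eventually (Metric.ball_mem_nhds _ hr)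
        filter_upwards [h3] with q hq
        rwa [Real.dist_eq] at hq
      obtain ⟨r₁, hr₁, hr₁'⟩ := Metric.eventually_nhds_iff.1 hev
      refine ⟨min r r₁, lt_min hr hr₁, fun u v x hu hv hx => ?_⟩
      refine hr' _ _ _ ?_ ?_ (hx.trans_le (min_le_left _ _))
      · exact hr₁' (y := (u, x)) (by
          rw [Prod.dist_eq, max_lt_iff, Real.dist_eq]
          exact ⟨hu.trans_le (min_le_right _ _), hx.trans_le (min_le_right _ _)⟩)
      · exact hr₁' (y := (v, x)) (by
          rw [Prod.dist_eq, max_lt_iff, Real.dist_eq]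
          exact ⟨hv.trans_le (min_le_right _ _), hx.trans_le (min_le_right _ _)⟩)
    · obtain ⟨r, hr, hr'⟩ := shear_loc ht1 hc hp1
      refine ⟨r, hr, fun u v x hu hv hx => ?_⟩
      have : φ₁ u x = φ₁ v x := hr' u v x hu hv hx
      rw [this]
  · intro A hA hAc
    have key : ∀ p ∈ A, ∀ q ∈ A, ℓ p.2 - ℓ q.2 ≤ δ := by
      intro p hp q hq
      have k1 := strips_conn ht0 hc (fun x hx => (hA hx).1) hAc hp hq
      set g : ℝ × X → ℝ × X := fun p => (φ₁ p.1 p.2, p.2) with hg
      have hgc : Continuous g := hcont1.prodMk continuous_snd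
      have k2 := strips_conn (A := g '' A) (p := g q) (q := g p) ht0 hc (by
        rintro _ ⟨x, hx, rfl⟩
        exact (hA hx).2) (hAc.image _ hgc.continuousOn) (mem_image_of_mem _ hq)
        (mem_image_of_mem _ hp)
      simp only [hg] at k2
      have m1 := n1 p.1 p.2
      have m2 := n1 q.1 q.2
      have m1' : -1 ≤ (φ₁ p.1 p.2) / h - p.1 / h := by
        rw [← sub_div, le_div_iff₀ hh0]
        linarith [(abs_le.1 m1).1]
      have m2' : (φ₁ q.1 q.2) / h - q.1 / h ≤ 1 := by
        rw [← sub_div, div_le_iff₀ hh0]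
        linarith [(abs_le.1 m2).2]
      have k3 : s * (ℓ p.2 - ℓ q.2) ≤ 2 := by linarith
      have k4 : s * δ = 2 := by
        rw [hs]
        field_simp
      nlinarith
    intro p hp q hq
    rw [abs_le]
    constructor
    · linarith [key q hq p hp]
    · exact key p hp q hq

section limit

variable (φ : ℕ → ℝ → X → ℝ)

/-- the compositions -/
noncomputable def cmp (φ : ℕ → ℝ → X → ℝ) : ℕ → ℝ → X → ℝ
  | 0 => fun u _ => u
  | k + 1 => fun u x => φ k (cmp φ k u x) x

end limit

/-- countably many properties at once -/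
theorem exists_limit {P : ℕ → X → X → Prop}
    (hP : ∀ k, ∀ a : ℝ, 0 < a → a ≤ 1 → ∃ φ S, Mv X a φ S (P k)) {ε : ℝ} (hε : 0 < ε)
    (hε1 : ε ≤ 1) :
    ∃ φ S, Mv X ε φ S (fun x y => ∀ k, P k x y) := by
  set a : ℕ → ℝ := fun k => ε / 4 * (1 / 2) ^ k with ha
  have hhalf : ∀ k : ℕ, (0:ℝ) < (1 / 2) ^ k := fun k => by positivity
  have hhalf1 : ∀ k : ℕ, ((1:ℝ) / 2) ^ k ≤ 1 := fun k => pow_le_one₀ (by norm_num) (by norm_num)
  have ha0 : ∀ k, 0 < a k := fun k => by
    have := hhalf k
    simp only [ha]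
    positivity
  have ha1 : ∀ k, a k ≤ 1 := fun k => by
    have := hhalf1 k
    simp only [ha]
    nlinarith [hhalf k]
  choose φ S hφ using fun k => hP k (a k) (ha0 k) (ha1 k)
  set F : ℕ → ℝ → X → ℝ := cmp φ with hF
  have hFs : ∀ k u x, F (k + 1) u x = φ k (F k u x) x := fun k u x => rfl
  set e : ℕ → ℝ := fun k => ε * (1 - (1 / 2) ^ k) with he
  have he0 : ∀ k, 0 ≤ e k := fun k => mul_nonneg hε.le (by linarith [hhalf1 k])
  have heε : ∀ k, e k ≤ ε := fun k => by
    simp only [he]
    nlinarith [hhalf k]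
  have hstep : ∀ k, e k + a k + a k * e k ≤ e (k + 1) := by
    intro k
    have h1 : e k ≤ 1 := (heε k).trans hε1
    have h2 : a k * e k ≤ a k * 1 := mul_le_mul_of_nonneg_left h1 (ha0 k).le
    have h3 : e (k + 1) = e k + 2 * a k := by
      simp only [he, ha, pow_succ]
      ring
    linarith
  have hlip : ∀ k u v x y, |F k u x - F k v y| ≤ (1 + e k) * |u - v| + e k * dist x y := by
    intro k
    induction k with
    | zero =>
      intro u v x y
      have : e 0 = 0 := by simp [he]
      rw [this]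
      simp [hF, cmp]
    | succ k ih =>
      intro u v x y
      rw [hFs, hFs]
      have e0 : 0 ≤ dist x y := dist_nonneg
      have e1 : 0 ≤ |u - v| := abs_nonneg _
      have h3 := hstep k
      calc _ ≤ (1 + a k) * |F k u x - F k v y| + a k * dist x y := (hφ k).lip _ _ _ _
        _ ≤ (1 + a k) * ((1 + e k) * |u - v| + e k * dist x y) + a k * dist x y := by
            have := ha0 k
            gcongr
            exact ih u v x y
        _ = (1 + (e k + a k + a k * e k)) * |u - v| + (e k + a k + a k * e k) * dist x y := by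
            ring
        _ ≤ _ := by gcongr
  have hnear : ∀ k u x, |F k u x - u| ≤ e k := by
    intro k
    induction k with
    | zero =>
      intro u x
      simp [hF, cmp, he]
    | succ k ih =>
      intro u x
      rw [hFs]
      have h3 := hstep k
      have h4 := mul_nonneg (ha0 k).le (he0 k)
      calc |φ k (F k u x) x - u| = |(φ k (F k u x) x - F k u x) + (F k u x - u)| := by ring_nf
        _ ≤ |φ k (F k u x) x - F k u x| + |F k u x - u| := abs_add_le _ _
        _ ≤ a k + e k := add_le_add ((hφ k).near _ _) (ih u x)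
        _ ≤ _ := by linarith
  have hcauchy : ∀ u x, CauchySeq (fun k => F k u x) := by
    intro u x
    refine cauchySeq_of_le_geometric (1 / 2) (ε / 4) (by norm_num) fun k => ?_
    rw [dist_comm, Real.dist_eq, hFs]
    exact (hφ k).near _ _
  choose Φ hΦ using fun u x => cauchySeq_tendsto_of_complete (hcauchy u x)
  have hFc : ∀ k, Continuous (fun p : ℝ × X => F k p.1 p.2) := by
    intro k
    induction k with
    | zero => exact continuous_fst
    | succ k ih =>
      have := (hφ k).continuous.comp (ih.prodMk continuous_snd)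
      exact this
  refine ⟨Φ, {p | ∀ k, (F k p.1 p.2, p.2) ∈ S k}, ?_, ?_, ?_, ?_, ?_⟩
  · intro u v x y
    refine le_of_tendsto ((hΦ u x).sub (hΦ v y)).abs (Eventually.of_forall fun k => ?_)
    have e0 : 0 ≤ dist x y := dist_nonneg
    refine (hlip k u v x y).trans ?_
    have := heε k
    gcongr
  · intro u x
    refine le_of_tendsto ((hΦ u x).sub_const u).abs (Eventually.of_forall fun k => ?_)
    exact (hnear k u x).trans (heε k)
  · have : {p : ℝ × X | ∀ k, (F k p.1 p.2, p.2) ∈ S k} =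
        ⋂ k, {p : ℝ × X | (F k p.1 p.2, p.2) ∈ S k} := by
      ext p
      simp
    rw [this]
    exact isClosed_iInter fun k => (hφ k).closed.preimage ((hFc k).prodMk continuous_snd)
  · intro p hp
    have hp' : ∃ k, (F k p.1 p.2, p.2) ∉ S k := by
      by_contra hcon
      push Not at hcon
      exact hp hcon
    obtain ⟨k, hk⟩ := hp'
    obtain ⟨r, hr, hr'⟩ := (hφ k).loc _ hk
    refine ⟨r / 4, by positivity, fun u v x hu hv hx => ?_⟩
    have hclose : ∀ w, |w - p.1| < r / 4 → |F k w x - F k p.1 p.2| < r := by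
      intro w hw
      have h1 := hlip k w p.1 x p.2
      have h2 : e k ≤ 1 := (heε k).trans hε1
      have h3 : 0 ≤ |w - p.1| := abs_nonneg _
      have h4 : 0 ≤ dist x p.2 := dist_nonneg
      nlinarith [he0 k]
    have hk1 : F (k + 1) u x = F (k + 1) v x := by
      rw [hFs, hFs]
      exact hr' _ _ _ (hclose u hu) (hclose v hv) (by simpa using hx.trans (by linarith))
    have hm : ∀ m, F (k + 1 + m) u x = F (k + 1 + m) v x := by
      intro m
      induction m with
      | zero => exact hk1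
      | succ m ih =>
        rw [← add_assoc, hFs, hFs, ih]
    have t1 := (hΦ u x).comp (tendsto_add_atTop_nat (k + 1))
    have t2 := (hΦ v x).comp (tendsto_add_atTop_nat (k + 1))
    refine tendsto_nhds_unique t1 (t2.congr fun m => ?_)
    simp only [Function.comp]
    rw [add_comm m (k + 1)]
    exact (hm m).symm
  · intro A hA hAc p hp q hq k
    have hg : Continuous (fun p : ℝ × X => (F k p.1 p.2, p.2)) := (hFc k).prodMk continuous_snd
    set g : ℝ × X → ℝ × X := fun p => (F k p.1 p.2, p.2) with hgd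
    exact (hφ k).conn (g '' A) (by
      rintro _ ⟨x, hx, rfl⟩
      exact hA hx k) (hAc.image _ hg.continuousOn) (g p) (mem_image_of_mem _ hp) (g q)
      (mem_image_of_mem _ hq)

/-- the blocking map in `ℝⁿ` -/
theorem exists_block (n : ℕ) {ε : ℝ} (hε : 0 < ε) (hε1 : ε ≤ 1) :
    ∃ φ S, Mv (EuclideanSpace ℝ (Fin n)) ε φ S (fun x y => x = y) := by
  rcases Nat.eq_zero_or_pos n with hn | hn
  · subst hn
    refine ⟨fun u _ => u, univ, ?_, ?_, isClosed_univ, ?_, ?_⟩
    · intro u v x y
      have : 0 ≤ |u - v| := abs_nonneg _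
      have h2 : 0 ≤ dist x y := dist_nonneg
      nlinarith
    · intro u x
      simpa using hε.le
    · intro p hp
      exact absurd (mem_univ p) hp
    · intro A _ _ p _ q _
      exact Subsingleton.elim _ _
  have : Nonempty (Fin n) := ⟨⟨0, hn⟩⟩
  obtain ⟨f, hf⟩ := exists_surjective_nat (Fin n × ℕ)
  have h1 : ∀ (i : Fin n) (x y : EuclideanSpace ℝ (Fin n)), |x i - y i| ≤ dist x y := by
    intro i x y
    rw [dist_eq_norm]
    have := PiLp.norm_apply_le (x - y) i
    simpa using this
  obtain ⟨φ, S, h⟩ := exists_limit (X := EuclideanSpace ℝ (Fin n))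
    (P := fun k x y => |x (f k).1 - y (f k).1| ≤ 1 / ((f k).2 + 1 : ℝ))
    (fun k a ha ha1 => exists_step (ℓ := fun x : EuclideanSpace ℝ (Fin n) => x (f k).1)
      (h1 (f k).1) ha ha1 (by positivity)) hε hε1
  refine ⟨φ, S, h.lip, h.near, h.closed, h.loc, fun A hA hAc p hp q hq => ?_⟩
  have h2 := h.conn A hA hAc p hp q hq
  ext i
  by_contra hne
  have h3 : 0 < |p.2 i - q.2 i| := abs_pos.2 (sub_ne_zero.2 hne)
  obtain ⟨m, hm⟩ := exists_nat_one_div_lt h3
  obtain ⟨k, hk⟩ := hf (i, m)
  have h4 := h2 k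
  rw [hk] at h4
  exact absurd (h4.trans_lt hm) (lt_irrefl _)

end Pool.Agent.H196
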