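import Pool.Agent.H196.Block
import Pool.Graph.R_seed8.TH221.PartB2

/-!
If all compact totally disconnected subsets of a closed set are removable for continuous
`W^{1,n}` functions, the closed set has the CNED property.
-/

set_option autoImplicit false

open MeasureTheory Set Filter Topology Metric
open scoped ENNReal NNReal ContDiff

namespace Pool.Agent.H196

open Pool.Agent.TH221

variable {n : ℕ}

/-- locally Lipschitz functions on an open set are differentiable almost everywhere there -/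
lemma ae_diff_of_lip {Ω : Set (Eu n)} {v : Eu n → ℝ}
    (hloc : ∀ z ∈ Ω, ∃ r > 0, ∃ C : ℝ≥0, LipschitzOnWith C v (ball z r)) :
    ∀ᵐ x ∂(volume : Measure (Eu n)), x ∈ Ω → DifferentiableAt ℝ v x := by
  have h0 : volume {x | x ∈ Ω ∧ ¬ DifferentiableAt ℝ v x} = 0 := by
    refine measure_null_of_locally_null _ fun z hz => ?_
    obtain ⟨r, hr, C, hC⟩ := hloc z hz.1
    refine ⟨{x | x ∈ ball z r ∧ ¬ DifferentiableAt ℝ v x} ∩
      {x | x ∈ Ω ∧ ¬ DifferentiableAt ℝ v x}, ?_, ?_⟩
    · rw [inter_comm]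
      have : {x | x ∈ Ω ∧ ¬ DifferentiableAt ℝ v x} ∩ ball z r ⊆
          {x | x ∈ Ω ∧ ¬ DifferentiableAt ℝ v x} ∩
            {x | x ∈ ball z r ∧ ¬ DifferentiableAt ℝ v x} :=
        fun x hx => ⟨hx.1, hx.2, hx.1.2⟩
      refine mem_of_superset ?_ this
      exact inter_mem self_mem_nhdsWithin (mem_nhdsWithin_of_mem_nhds (ball_mem_nhds z hr))
    · refine measure_mono_null inter_subset_left ?_
      have := hC.ae_differentiableWithinAt_of_mem (μ := volume)
      rw [ae_iff] at this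
      refine measure_mono_null ?_ this
      rintro x ⟨hx1, hx2⟩
      simp only [Set.mem_ofPred_eq, not_forall]
      exact ⟨hx1, fun h => hx2 (h.differentiableAt (isOpen_ball.mem_nhds hx1))⟩
  rw [ae_iff]
  refine measure_mono_null ?_ h0
  intro x hx
  simp only [Set.mem_ofPred_eq, not_forall] at hx ⊢
  obtain ⟨h1, h2⟩ := hx
  exact ⟨h1, h2⟩

/-- comparison of derivatives -/
lemma fderiv_le_of_diff {w v : Eu n → ℝ} {x : Eu n} {a b : ℝ} (ha : 0 ≤ a) (hb : 0 ≤ b)
    (hv : DifferentiableAt ℝ v x) (h : ∀ y, |w y - w x| ≤ a * |v y - v x| + b * dist y x) :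
    ‖fderiv ℝ w x‖ ≤ a * ‖fderiv ℝ v x‖ + b := by
  by_cases hw : DifferentiableAt ℝ w x
  · refine le_of_forall_pos_le_add fun η hη => ?_
    have hη' : 0 < η / (a + 1) := by positivity
    have h1 := hv.hasFDerivAt.isLittleO.def hη'
    have h2 : ‖fderiv ℝ w x‖ ≤ a * (‖fderiv ℝ v x‖ + η / (a + 1)) + b := by
      refine hw.hasFDerivAt.le_of_lip' (by positivity) ?_
      filter_upwards [h1] with y hy
      have h3 : |v y - v x| ≤ (‖fderiv ℝ v x‖ + η / (a + 1)) * ‖y - x‖ := by
        have h4 := (fderiv ℝ v x).le_opNorm (y - x)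
        calc |v y - v x| = ‖(v y - v x - fderiv ℝ v x (y - x)) + fderiv ℝ v x (y - x)‖ := by
              rw [sub_add_cancel, Real.norm_eq_abs]
          _ ≤ ‖v y - v x - fderiv ℝ v x (y - x)‖ + ‖fderiv ℝ v x (y - x)‖ := norm_add_le _ _
          _ ≤ η / (a + 1) * ‖y - x‖ + ‖fderiv ℝ v x‖ * ‖y - x‖ := add_le_add hy h4
          _ = _ := by ring
      calc ‖w y - w x‖ ≤ a * |v y - v x| + b * dist y x := h y
        _ ≤ a * ((‖fderiv ℝ v x‖ + η / (a + 1)) * ‖y - x‖) + b * ‖y - x‖ := by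
            rw [dist_eq_norm]
            gcongr
        _ = _ := by ring
    have h5 : a * (η / (a + 1)) ≤ η := by
      rw [mul_div_assoc', div_le_iff₀ (by positivity)]
      nlinarith
    linarith
  · rw [fderiv_zero_of_not_differentiableAt hw, norm_zero]
    positivity

/-- the main construction -/
theorem exists_td (hn : 2 ≤ n) {E F₁ F₂ : Set (Eu n)} (hE : IsClosed E)
    (hE0 : volume E = 0)
    (hrem : ∀ K ⊆ E, IsCompact K → IsTotallyDisconnected K →
      ∀ u : Eu n → ℝ, Continuous u → InW Kᶜ u → InW univ u)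
    {v : Eu n → ℝ} (hv : Continuous v) (hvc : HasCompactSupport v) {t : ℝ} (_ht : 0 < t)
    (hv1 : ∀ x ∈ F₁, v x = t) (hv2 : ∀ x ∈ F₂, v x = 0)
    (hloc : ∀ z ∉ E, ∃ r > 0, ∃ C, LipschitzOnWith C v (ball z r)) {N : ℝ≥0∞} (hN : N ≠ ⊤)
    (hnorm : nrm (volume.restrict Eᶜ) (fun x => ENNReal.ofReal ‖fderiv ℝ v x‖) ≤ N)
    {ε : ℝ} (hε : 0 < ε) (hε1 : ε ≤ 1) (hεt : 2 * ε < t) :
    (⨅ (σ : Eu n → ℝ≥0∞) (_ : Adm ∅ F₁ F₂ σ), ∫⁻ x, σ x ^ n) ≤
      (ENNReal.ofReal (t - 2 * ε)⁻¹ * (ENNReal.ofReal (1 + ε) * N +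
        ENNReal.ofReal ε * nrm volume ((tsupport v).indicator fun _ => 1))) ^ n := by
  have hn1 : 1 ≤ n := by omega
  obtain ⟨φ, S, hφ⟩ := exists_block n hε hε1
  set w : Eu n → ℝ := fun x => min (max (φ (v x) x - ε) 0) (t - 2 * ε) with hw
  have hwd : ∀ x y, |w x - w y| ≤ |φ (v x) x - φ (v y) y| := by
    intro x y
    simp only [hw]
    refine (abs_min_sub_min_le_max _ _ _ _).trans ?_
    refine max_le ?_ (by simp)
    refine (abs_max_sub_max_le_abs _ _ _).trans ?_
    simp
  have hwd' : ∀ x y, |w x - w y| ≤ (1 + ε) * |v x - v y| + ε * dist x y :=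
    fun x y => (hwd x y).trans (hφ.lip _ _ _ _)
  have hgc : Continuous (fun x : Eu n => (v x, x)) := hv.prodMk continuous_id
  have hwc : Continuous w := by
    have : Continuous (fun x => φ (v x) x) := hφ.continuous.comp hgc
    exact ((this.sub continuous_const).max continuous_const).min continuous_const
  have hw0 : ∀ x, v x = 0 → w x = 0 := by
    intro x hx
    have h1 := hφ.near (v x) x
    rw [hx, sub_zero] at h1
    have h2 := (abs_le.1 h1).2
    simp only [hw, hx]
    rw [max_eq_right (by linarith), min_eq_left (by linarith)]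
  have hw1 : ∀ x ∈ F₁, w x = t - 2 * ε := by
    intro x hx
    have h1 := hφ.near (v x) x
    rw [hv1 x hx] at h1
    have h2 := (abs_le.1 h1).1
    simp only [hw, hv1 x hx]
    rw [min_eq_right]
    exact le_max_of_le_left (by linarith)
  set K : Set (Eu n) := E ∩ tsupport v ∩ (fun x => (v x, x)) ⁻¹' S with hK
  have hKE : K ⊆ E := fun x hx => hx.1.1
  have hKc : IsCompact K :=
    (hvc.isCompact.inter_left hE).inter_right (hφ.closed.preimage hgc)
  have hKtd : IsTotallyDisconnected K := by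
    intro A hAK hA x hx y hy
    exact hφ.conn ((fun x => (v x, x)) '' A) (by
      rintro _ ⟨z, hz, rfl⟩
      exact (hAK hz).2) (hA.image _ hgc.continuousOn) _ (mem_image_of_mem _ hx) _
      (mem_image_of_mem _ hy)
  have hlocw : ∀ z ∉ K, ∃ r > 0, ∃ C, LipschitzOnWith C w (ball z r) := by
    intro z hz
    by_cases hzE : z ∈ E
    · by_cases hzs : z ∈ tsupport v
      · have hzS : (v z, z) ∉ S := fun h => hz ⟨⟨hzE, hzs⟩, h⟩
        obtain ⟨r, hr, hr'⟩ := hφ.loc _ hzS
        obtain ⟨r₁, hr₁, hr₁'⟩ := Metric.continuousAt_iff.1 hv.continuousAt r hr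
        refine ⟨min r r₁, lt_min hr hr₁, ε.toNNReal, ?_⟩
        refine LipschitzOnWith.of_dist_le_mul fun x hx y hy => ?_
        rw [Real.dist_eq, Real.coe_toNNReal _ hε.le]
        refine (hwd x y).trans ?_
        rw [mem_ball] at hx hy
        have e1 : φ (v x) x = φ (v z) x := by
          refine hr' _ _ _ ?_ ?_ ?_
          · have := hr₁' (hx.trans_le (min_le_right _ _))
            rwa [Real.dist_eq] at this
          · simpa using hr
          · exact hx.trans_le (min_le_left _ _)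
        have e2 : φ (v y) y = φ (v z) y := by
          refine hr' _ _ _ ?_ ?_ ?_
          · have := hr₁' (hy.trans_le (min_le_right _ _))
            rwa [Real.dist_eq] at this
          · simpa using hr
          · exact hy.trans_le (min_le_left _ _)
        rw [e1, e2]
        refine (hφ.lip _ _ _ _).trans ?_
        simp
      · have h1 : v =ᶠ[𝓝 z] 0 := notMem_tsupport_iff_eventuallyEq.1 hzs
        obtain ⟨r, hr, hr'⟩ := Metric.eventually_nhds_iff_ball.1 h1
        refine ⟨r, hr, 0, ?_⟩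
        intro x hx y hy
        rw [hw0 x (hr' x hx), hw0 y (hr' y hy)]
        simp
    · obtain ⟨r, hr, C, hC⟩ := hloc z hzE
      refine ⟨r, hr, ((1 + ε) * C + ε).toNNReal, ?_⟩
      refine LipschitzOnWith.of_dist_le_mul fun x hx y hy => ?_
      rw [Real.dist_eq, Real.coe_toNNReal _ (by positivity)]
      have h1 := hC.dist_le_mul x hx y hy
      rw [Real.dist_eq] at h1
      calc |w x - w y| ≤ (1 + ε) * |v x - v y| + ε * dist x y := hwd' x y
        _ ≤ (1 + ε) * (C * dist x y) + ε * dist x y := by gcongr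
        _ = _ := by ring
  have hwsupp : HasCompactSupport w := by
    refine hvc.mono fun x hx => ?_
    rw [Function.mem_support] at hx ⊢
    exact fun h => hx (hw0 x h)
  have hvolE : (volume : Measure (Eu n)) = volume.restrict Eᶜ := by
    rw [Measure.restrict_eq_self_of_ae_mem]
    rw [ae_iff]
    simpa using hE0
  refine modulus_le_of_potential hn hKc.isClosed (measure_mono_null hKE hE0) (hrem K hKE hKc hKtd)
    hwc hwsupp (by linarith) hw1 (fun x hx => hw0 x (hv2 x hx)) hlocw ?_ ?_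
  · have hfin : nrm volume ((tsupport v).indicator fun _ => (1 : ℝ≥0∞)) ≠ ⊤ := by
      refine nrm_ne_top ?_
      have : ∀ x : Eu n, ((tsupport v).indicator (fun _ => (1 : ℝ≥0∞)) x) ^ n =
          (tsupport v).indicator (fun _ => (1 : ℝ≥0∞)) x := by
        intro x
        by_cases hx : x ∈ tsupport v
        · simp [hx]
        · simp only [indicator_of_notMem hx]
          exact zero_pow (by omega)
      simp_rw [this]
      rw [lintegral_indicator hvc.isCompact.measurableSet]
      simp only [lintegral_const, one_mul, Measure.restrict_apply_univ]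
      exact hvc.isCompact.measure_lt_top.ne
    finiteness
  · have hae : ∀ᵐ x ∂(volume : Measure (Eu n)), ENNReal.ofReal ‖fderiv ℝ w x‖ ≤
        ENNReal.ofReal (1 + ε) * ENNReal.ofReal ‖fderiv ℝ v x‖ +
          ENNReal.ofReal ε * (tsupport v).indicator (fun _ => (1 : ℝ≥0∞)) x := by
      have hd := ae_diff_of_lip (Ω := Eᶜ) (v := v) (fun z hz => hloc z hz)
      have hnE : ∀ᵐ x ∂(volume : Measure (Eu n)), x ∉ E := by
        rw [ae_iff]
        simpa using hE0
      filter_upwards [hd, hnE] with x hx hxE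
      by_cases hxs : x ∈ tsupport v
      · rw [indicator_of_mem hxs, mul_one, ← ENNReal.ofReal_mul (by positivity),
          ← ENNReal.ofReal_add (by positivity) hε.le]
        refine ENNReal.ofReal_le_ofReal ?_
        exact fderiv_le_of_diff (by positivity) hε.le (hx hxE) fun y => hwd' y x
      · have h1 : v =ᶠ[𝓝 x] 0 := notMem_tsupport_iff_eventuallyEq.1 hxs
        have h2 : w =ᶠ[𝓝 x] fun _ => 0 := by
          filter_upwards [h1] with y hy using hw0 y hy
        rw [h2.fderiv_eq]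
        simp
    have hm1 : Measurable (fun x => ENNReal.ofReal ‖fderiv ℝ v x‖) :=
      (measurable_fderiv ℝ v).norm.ennreal_ofReal
    have hm2 : Measurable ((tsupport v).indicator (fun _ => (1 : ℝ≥0∞))) :=
      measurable_const.indicator hvc.isCompact.measurableSet
    calc nrm (volume.restrict Kᶜ) (fun x => ENNReal.ofReal ‖fderiv ℝ w x‖) ≤
        nrm volume (fun x => ENNReal.ofReal ‖fderiv ℝ w x‖) :=
          nrm_mono_measure Measure.restrict_le_self
      _ ≤ nrm volume (fun x => ENNReal.ofReal (1 + ε) * ENNReal.ofReal ‖fderiv ℝ v x‖ +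
          ENNReal.ofReal ε * (tsupport v).indicator (fun _ => (1 : ℝ≥0∞)) x) := nrm_mono_ae hae
      _ ≤ nrm volume (fun x => ENNReal.ofReal (1 + ε) * ENNReal.ofReal ‖fderiv ℝ v x‖) +
          nrm volume (fun x => ENNReal.ofReal ε *
            (tsupport v).indicator (fun _ => (1 : ℝ≥0∞)) x) :=
          nrm_add_le hn1 (hm1.const_mul _).aemeasurable (hm2.const_mul _).aemeasurable
      _ = ENNReal.ofReal (1 + ε) * nrm volume (fun x => ENNReal.ofReal ‖fderiv ℝ v x‖) +
          ENNReal.ofReal ε * nrm volume ((tsupport v).indicator fun _ => 1) := by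
          rw [nrm_const_mul hn1 ENNReal.ofReal_ne_top, nrm_const_mul hn1 ENNReal.ofReal_ne_top]
      _ ≤ _ := by
          gcongr
          conv_lhs => rw [hvolE]
          exact hnorm

/-- the bound of the modulus by the energy of a function admissible for the curves meeting the
set countably often -/
theorem td_imp (hn : 2 ≤ n) {E F₁ F₂ : Set (Eu n)} (hE : IsClosed E) (hE0 : volume E = 0)
    (hrem : ∀ K ⊆ E, IsCompact K → IsTotallyDisconnected K →
      ∀ u : Eu n → ℝ, Continuous u → InW Kᶜ u → InW univ u)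
    (hF₁ : IsCompact F₁) (hF₂ : IsCompact F₂) (hne : F₁.Nonempty) {ρ : Eu n → ℝ≥0∞}
    (hρ : Adm E F₁ F₂ ρ) :
    (⨅ (σ : Eu n → ℝ≥0∞) (_ : Adm ∅ F₁ F₂ σ), ∫⁻ x, σ x ^ n) ≤ ∫⁻ x, ρ x ^ n := by
  have hn1 : 1 ≤ n := by omega
  by_cases hfin : ∫⁻ x, ρ x ^ n = ⊤
  · rw [hfin]; exact le_top
  have hρtop : nrm volume ρ ≠ ⊤ := nrm_ne_top hfin
  have hstep : ∀ θ ∈ Ioo (0:ℝ) 1,
      (⨅ (σ : Eu n → ℝ≥0∞) (_ : Adm ∅ F₁ F₂ σ), ∫⁻ x, σ x ^ n) ≤
      (ENNReal.ofReal (1 - θ)⁻¹ *
        (ENNReal.ofReal ((1 + θ) / (1 - θ)) * nrm volume ρ + ENNReal.ofReal θ)) ^ n := by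
    intro θ hθ
    obtain ⟨v, hv, hvc, hv1, hv2, hloc, hnorm⟩ := exists_potential hn hE hE0 hF₁ hF₂ hne hρ.1 hfin
      hρ.2 hθ.1 hθ.2
    set N : ℝ≥0∞ := ENNReal.ofReal ((1 + θ) / (1 - θ)) * nrm volume ρ + ENNReal.ofReal θ with hN
    have hNtop : N ≠ ⊤ := by finiteness
    set c : ℝ≥0∞ := nrm volume ((tsupport v).indicator fun _ => 1) with hc
    have hctop : c ≠ ⊤ := by
      refine nrm_ne_top ?_
      have : ∀ x : Eu n, ((tsupport v).indicator (fun _ => (1 : ℝ≥0∞)) x) ^ n =
          (tsupport v).indicator (fun _ => (1 : ℝ≥0∞)) x := by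
        intro x
        by_cases hx : x ∈ tsupport v
        · simp [hx]
        · simp only [indicator_of_notMem hx]
          exact zero_pow (by omega)
      simp_rw [this]
      rw [lintegral_indicator hvc.isCompact.measurableSet]
      simp only [lintegral_const, one_mul, Measure.restrict_apply_univ]
      exact hvc.isCompact.measure_lt_top.ne
    have ht : 0 < 1 - θ := by linarith [hθ.2]
    have hlim : Tendsto (fun ε : ℝ => (ENNReal.ofReal (1 - θ - 2 * ε)⁻¹ *
        (ENNReal.ofReal (1 + ε) * N + ENNReal.ofReal ε * c)) ^ n) (𝓝[>] 0)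
        (𝓝 ((ENNReal.ofReal (1 - θ - 2 * 0)⁻¹ *
        (ENNReal.ofReal (1 + 0) * N + ENNReal.ofReal 0 * c)) ^ n)) := by
      refine Tendsto.mono_left ?_ (nhdsWithin_le_nhds (s := Ioi (0:ℝ)))
      have h1 : Tendsto (fun ε : ℝ => ENNReal.ofReal (1 - θ - 2 * ε)⁻¹) (𝓝 0)
          (𝓝 (ENNReal.ofReal (1 - θ - 2 * 0)⁻¹)) := by
        refine ENNReal.tendsto_ofReal ?_
        have : ContinuousAt (fun ε : ℝ => (1 - θ - 2 * ε)⁻¹) 0 := by
          refine ContinuousAt.inv₀ (by fun_prop) (by simpa using ht.ne')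
        exact this
      have h2 : Tendsto (fun ε : ℝ => ENNReal.ofReal (1 + ε)) (𝓝 0)
          (𝓝 (ENNReal.ofReal (1 + 0))) := by
        refine ENNReal.tendsto_ofReal ?_
        have : ContinuousAt (fun ε : ℝ => 1 + ε) 0 := by fun_prop
        exact this
      have h3 : Tendsto (fun ε : ℝ => ENNReal.ofReal ε) (𝓝 0) (𝓝 (ENNReal.ofReal 0)) :=
        (ENNReal.continuous_ofReal.tendsto 0)
      have h4 := ((ENNReal.Tendsto.mul_const h2 (Or.inr hNtop)).add
        (ENNReal.Tendsto.mul_const h3 (Or.inr hctop)))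
      have h5 := ENNReal.Tendsto.mul h1 (Or.inr (by finiteness)) h4 (Or.inr (by finiteness))
      have h6 := h5.ennrpow_const (n : ℝ)
      simpa only [ENNReal.rpow_natCast] using h6
    have hval : (ENNReal.ofReal (1 - θ - 2 * 0)⁻¹ *
        (ENNReal.ofReal (1 + 0) * N + ENNReal.ofReal 0 * c)) ^ n =
        (ENNReal.ofReal (1 - θ)⁻¹ * N) ^ n := by
      simp
    rw [hval] at hlim
    refine ge_of_tendsto hlim ?_
    have : Ioo (0:ℝ) (min 1 ((1 - θ) / 2)) ∈ 𝓝[>] (0:ℝ) := Ioo_mem_nhdsGT (by positivity)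
    filter_upwards [this] with ε hε
    have e1 : ε < 1 := hε.2.trans_le (min_le_left _ _)
    have e2 : ε < (1 - θ) / 2 := hε.2.trans_le (min_le_right _ _)
    exact exists_td hn hE hE0 hrem hv hvc ht hv1 hv2 hloc hNtop hnorm hε.1 e1.le (by linarith)
  rw [← nrm_pow hn1]
  have hlim : Tendsto (fun θ : ℝ => (ENNReal.ofReal (1 - θ)⁻¹ *
      (ENNReal.ofReal ((1 + θ) / (1 - θ)) * nrm volume ρ + ENNReal.ofReal θ)) ^ n) (𝓝[>] 0)
      (𝓝 ((ENNReal.ofReal (1 - 0)⁻¹ *
      (ENNReal.ofReal ((1 + 0) / (1 - 0)) * nrm volume ρ + ENNReal.ofReal 0)) ^ n)) := by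
    refine Tendsto.mono_left ?_ (nhdsWithin_le_nhds (s := Ioi (0:ℝ)))
    have h1 : Tendsto (fun θ : ℝ => ENNReal.ofReal (1 - θ)⁻¹) (𝓝 0)
        (𝓝 (ENNReal.ofReal (1 - 0)⁻¹)) := by
      refine ENNReal.tendsto_ofReal ?_
      have : ContinuousAt (fun θ : ℝ => (1 - θ)⁻¹) 0 := by
        refine ContinuousAt.inv₀ (by fun_prop) (by norm_num)
      exact this
    have h2 : Tendsto (fun θ : ℝ => ENNReal.ofReal ((1 + θ) / (1 - θ))) (𝓝 0)
        (𝓝 (ENNReal.ofReal ((1 + 0) / (1 - 0)))) := by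
      refine ENNReal.tendsto_ofReal ?_
      have : ContinuousAt (fun θ : ℝ => (1 + θ) / (1 - θ)) 0 := by
        refine ContinuousAt.div (by fun_prop) (by fun_prop) (by norm_num)
      exact this
    have h3 : Tendsto (fun θ : ℝ => ENNReal.ofReal θ) (𝓝 0) (𝓝 (ENNReal.ofReal 0)) :=
      (ENNReal.continuous_ofReal.tendsto 0)
    have h4 := ((ENNReal.Tendsto.mul_const h2 (Or.inr hρtop)).add h3)
    have h5 := ENNReal.Tendsto.mul h1 (Or.inr (by finiteness)) h4 (Or.inr (by finiteness))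
    have h6 := h5.ennrpow_const (n : ℝ)
    simpa only [ENNReal.rpow_natCast] using h6
  have hval : (ENNReal.ofReal (1 - 0)⁻¹ *
      (ENNReal.ofReal ((1 + 0) / (1 - 0)) * nrm volume ρ + ENNReal.ofReal 0)) ^ n =
      nrm volume ρ ^ n := by
    simp
  rw [hval] at hlim
  refine ge_of_tendsto hlim ?_
  have : Ioo (0:ℝ) 1 ∈ 𝓝[>] (0:ℝ) := Ioo_mem_nhdsGT one_pos
  filter_upwards [this] with θ hθ using hstep θ hθ

/-- a closed set of positive measure contains a compact totally disconnected set of positive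
measure -/
theorem exists_td_pos {E : Set (Eu n)} (hE : IsClosed E) (hE0 : volume E ≠ 0) :
    ∃ K ⊆ E, IsCompact K ∧ IsTotallyDisconnected K ∧ volume K ≠ 0 := by
  set D : Set (Eu n) := ⋃ (i : Fin n) (q : ℚ), {x | x i = q} with hD
  have hD0 : volume D = 0 := by
    rw [hD]
    refine measure_iUnion_null fun i => measure_iUnion_null fun q => ?_
    have hm := (EuclideanSpace.volume_preserving_symm_measurableEquiv_toLp (Fin n)).symm
    have : {x : Eu n | x i = q} =
        (MeasurableEquiv.toLp 2 (Fin n → ℝ)).symm ⁻¹' ((fun y : Fin n → ℝ => y i) ⁻¹' {(q : ℝ)}) := by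
      ext x
      simp
    rw [this]
    rw [(EuclideanSpace.volume_preserving_symm_measurableEquiv_toLp (Fin n)).measure_preimage
      ((measurable_pi_apply i (measurableSet_singleton _)).nullMeasurableSet)]
    exact Measure.pi_hyperplane _ i _
  have hDm : MeasurableSet D := by
    rw [hD]
    refine MeasurableSet.iUnion fun i => MeasurableSet.iUnion fun q => ?_
    exact (isClosed_eq (by fun_prop) continuous_const).measurableSet
  have hED : volume (E \ D) ≠ 0 := by
    rwa [measure_sdiff_null hD0]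
  have hpos : 0 < volume (E \ D) := pos_iff_ne_zero.2 hED
  obtain ⟨K, hK, hKc, hK0⟩ := (hE.measurableSet.diff hDm).exists_lt_isCompact hpos
  refine ⟨K, fun x hx => (hK hx).1, hKc, ?_, hK0.ne'⟩
  intro A hAK hA x hx y hy
  ext i
  by_contra hne
  have key : ∀ x ∈ A, ∀ y ∈ A, ¬ (x i < y i) := by
    intro x hx y hy hlt
    obtain ⟨q, hq1, hq2⟩ := exists_rat_btwn hlt
    have hcont : Continuous (fun z : Eu n => z i) := by fun_prop
    have hord := (hA.image (fun z : Eu n => z i) hcont.continuousOn).ordConnected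
    obtain ⟨z, hz, hzq⟩ := hord.out (mem_image_of_mem _ hx) (mem_image_of_mem _ hy)
      ⟨hq1.le, hq2.le⟩
    refine (hK (hAK hz)).2 ?_
    rw [hD]
    exact mem_iUnion.2 ⟨i, mem_iUnion.2 ⟨q, hzq⟩⟩
  rcases lt_or_gt_of_ne hne with h | h
  · exact key x hx y hy h
  · exact key y hy x hx h

end Pool.Agent.H196
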