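import Pool.Agent.H196.Weyl
import Pool.Graph.R_seed8.TH221.PartB2

/-!
Closed planar sets removable for continuous `W^{1,2}` functions are locally removable for
injective continuous functions holomorphic off the set.
-/

set_option autoImplicit false

open MeasureTheory Set Filter Topology Metric
open scoped ENNReal NNReal ContDiff

namespace Pool.Agent.H196

open Pool.Agent.TH221

/-- the identification of the complex plane with `ℝ²` -/
noncomputable abbrev TT : ℂ ≃ₗᵢ[ℝ] Eu 2 := Complex.orthonormalBasisOneI.repr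

lemma det_mul_complex (a : ℂ) :
    ContinuousLinearMap.det ((a • (1 : ℂ →L[ℂ] ℂ)).restrictScalars ℝ) = ‖a‖ ^ 2 := by
  have h1 := Algebra.norm_complex_apply a
  rw [Algebra.norm_apply] at h1
  have h2 : ((((a • (1 : ℂ →L[ℂ] ℂ)).restrictScalars ℝ : ℂ →L[ℝ] ℂ)) : ℂ →ₗ[ℝ] ℂ) =
      Algebra.lmul ℝ ℂ a := by
    ext x
    simp
  unfold ContinuousLinearMap.det
  rw [h2, h1, Complex.normSq_eq_norm_sq]

/-- the area of the image bounds the integral of `|f'|²` -/
lemma area_bound {f : ℂ → ℂ} {s : Set ℂ} (hs : MeasurableSet s)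
    (hd : ∀ z ∈ s, DifferentiableAt ℂ f z) (hinj : InjOn f s) :
    ∫⁻ z in s, ENNReal.ofReal (‖deriv f z‖ ^ 2) = volume (f '' s) := by
  rw [← lintegral_abs_det_fderiv_eq_addHaar_image volume hs
    (f' := fun z => (deriv f z • (1 : ℂ →L[ℂ] ℂ)).restrictScalars ℝ) ?_ hinj]
  · refine setLIntegral_congr_fun hs fun z _ => ?_
    simp only [det_mul_complex]
    rw [abs_of_nonneg (by positivity)]
  · intro z hz
    have h1 := (hd z hz).hasDerivAt.hasFDerivAt.restrictScalars ℝ
    have h2 : (ContinuousLinearMap.toSpanSingleton ℂ (deriv f z)).restrictScalars ℝ =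
        (deriv f z • (1 : ℂ →L[ℂ] ℂ)).restrictScalars ℝ := by
      ext x
      simp [mul_comm]
    rw [← h2]
    exact h1.hasFDerivWithinAt

/-- one real component -/
lemma weak_component {E : Set (Eu 2)} (hE : IsClosed E) (hE0 : volume E = 0)
    (hrem : ∀ u : Eu 2 → ℝ, Continuous u → InW Eᶜ u → InW univ u)
    {F : ℂ → ℂ} (hF : Continuous F) (hFc : HasCompactSupport F)
    (hC1 : ∀ z, TT z ∉ E → ContDiffAt ℝ 1 F z)
    (hL2 : ∫⁻ z in TT ⁻¹' Eᶜ, ENNReal.ofReal ‖fderiv ℝ F z‖ ^ 2 ≠ ⊤)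
    (ℓ : ℂ →L[ℝ] ℝ) (hℓ : ‖ℓ‖ ≤ 1) {φ : ℂ → ℝ} (hφ : ContDiff ℝ ∞ φ) (hφc : HasCompactSupport φ)
    (v : ℂ) :
    ∫ z, ℓ (F z) * fderiv ℝ φ z v = - ∫ z, φ z * ℓ (fderiv ℝ F z v) := by
  have hmp : MeasurePreserving (TT : ℂ → Eu 2) volume volume := TT.measurePreserving
  have hemb : MeasurableEmbedding (TT : ℂ → Eu 2) :=
    TT.toHomeomorph.measurableEmbedding
  set w : Eu 2 → ℝ := fun x => ℓ (F (TT.symm x)) with hw
  have hwc : Continuous w := ℓ.continuous.comp (hF.comp TT.symm.continuous)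
  have hwC1 : ∀ x, x ∉ E → ContDiffAt ℝ 1 w x := by
    intro x hx
    have h1 : ContDiffAt ℝ 1 F (TT.symm x) := hC1 _ (by rwa [LinearIsometryEquiv.apply_symm_apply])
    have h2 : ContDiffAt ℝ 1 (fun x => F (TT.symm x)) x :=
      h1.comp x TT.symm.contDiff.contDiffAt
    exact ℓ.contDiff.contDiffAt.comp x h2
  have hloc : ∀ x ∈ Eᶜ, ∃ r > 0, ∃ C : ℝ≥0, LipschitzOnWith C w (ball x r) := by
    intro x hx
    obtain ⟨C, t, ht, hC⟩ := (hwC1 x hx).exists_lipschitzOnWith
    obtain ⟨r, hr, hr'⟩ := Metric.mem_nhds_iff.1 ht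
    exact ⟨r, hr, C, hC.mono hr'⟩
  have hfd : ∀ x, x ∉ E → fderiv ℝ w x =
      ℓ.comp ((fderiv ℝ F (TT.symm x)).comp (TT.symm.toContinuousLinearEquiv : Eu 2 →L[ℝ] ℂ)) := by
    intro x hx
    have h1 : DifferentiableAt ℝ F (TT.symm x) :=
      (hC1 _ (by rwa [LinearIsometryEquiv.apply_symm_apply])).differentiableAt one_ne_zero
    have h2 : HasFDerivAt (fun x => F (TT.symm x))
        ((fderiv ℝ F (TT.symm x)).comp (TT.symm.toContinuousLinearEquiv : Eu 2 →L[ℝ] ℂ)) x :=
      h1.hasFDerivAt.comp x TT.symm.toContinuousLinearEquiv.hasFDerivAt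
    exact (ℓ.hasFDerivAt.comp x h2).fderiv
  have hnorm : ∀ x, x ∉ E → ‖fderiv ℝ w x‖ ≤ ‖fderiv ℝ F (TT.symm x)‖ := by
    intro x hx
    rw [hfd x hx]
    refine (ContinuousLinearMap.opNorm_comp_le _ _).trans ?_
    refine (mul_le_mul hℓ (ContinuousLinearMap.opNorm_comp_le _ _) (norm_nonneg _)
      zero_le_one).trans ?_
    rw [one_mul]
    have : ‖(TT.symm.toContinuousLinearEquiv : Eu 2 →L[ℝ] ℂ)‖ ≤ 1 :=
      TT.symm.toLinearIsometry.norm_toContinuousLinearMap_le
    calc _ ≤ ‖fderiv ℝ F (TT.symm x)‖ * 1 := by gcongr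
      _ = _ := mul_one _
  have hmem : MemLp (fderiv ℝ w) (2 : ℕ) (volume.restrict Eᶜ) := by
    refine ⟨(measurable_fderiv ℝ w).aestronglyMeasurable, ?_⟩
    rw [eLpNorm_eq_nrm (by norm_num)]
    refine (lt_top_iff_ne_top.2 (nrm_ne_top (ne_top_of_le_ne_top hL2 ?_)))
    calc ∫⁻ x in Eᶜ, ENNReal.ofReal ‖fderiv ℝ w x‖ ^ 2 ≤
        ∫⁻ x in Eᶜ, ENNReal.ofReal ‖fderiv ℝ F (TT.symm x)‖ ^ 2 := by
          refine setLIntegral_mono' hE.isOpen_compl.measurableSet fun x hx => ?_
          gcongr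
          exact hnorm x hx
      _ = ∫⁻ z in TT ⁻¹' Eᶜ, ENNReal.ofReal ‖fderiv ℝ F z‖ ^ 2 := by
          have := hmp.setLIntegral_comp_preimage_emb hemb
            (fun x => ENNReal.ofReal ‖fderiv ℝ F (TT.symm x)‖ ^ 2) Eᶜ
          rw [← this]
          simp
  have hWG : WeakGrad Eᶜ w (fderiv ℝ w) := weakGrad_of_lip hE.isOpen_compl hloc
  have hwsupp : HasCompactSupport w := by
    have : HasCompactSupport (fun x => F (TT.symm x)) :=
      hFc.comp_homeomorph TT.symm.toHomeomorph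
    exact this.comp_left (map_zero ℓ)
  have hIn : InW Eᶜ w := ⟨(hwc.memLp_of_hasCompactSupport hwsupp).restrict _, _, hmem, hWG⟩
  obtain ⟨-, G, hG, hGW⟩ := hrem w hwc hIn
  have hGW' : WeakGrad Eᶜ w G := fun ψ hψ hc _ u => hGW ψ hψ hc (subset_univ _) u
  have hGLp' : MemLp G (2 : ℕ) (volume.restrict Eᶜ) :=
    hG.mono_measure (Measure.restrict_mono (subset_univ _) le_rfl)
  have hae := hGW'.unique (by norm_num) hE.isOpen_compl hWG hGLp' hmem
  have hnE : ∀ᵐ x ∂(volume : Measure (Eu 2)), x ∉ E := by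
    rw [ae_iff]
    simpa using hE0
  -- the test function
  set ψ : Eu 2 → ℝ := fun x => φ (TT.symm x) with hψ
  have hψs : ContDiff ℝ ∞ ψ := hφ.comp TT.symm.contDiff
  have hψc : HasCompactSupport ψ := hφc.comp_homeomorph TT.symm.toHomeomorph
  have hψd : ∀ z, fderiv ℝ ψ (TT z) (TT v) = fderiv ℝ φ z v := by
    intro z
    have h1 : DifferentiableAt ℝ φ (TT.symm (TT z)) := (hφ.differentiable (by simp)).differentiableAt
    have h2 : HasFDerivAt ψ
        ((fderiv ℝ φ (TT.symm (TT z))).comp (TT.symm.toContinuousLinearEquiv : Eu 2 →L[ℝ] ℂ))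
        (TT z) :=
      h1.hasFDerivAt.comp (TT z) TT.symm.toContinuousLinearEquiv.hasFDerivAt
    rw [h2.fderiv]
    simp
  have hmain := hGW ψ hψs hψc (subset_univ _) (TT v)
  rw [← hmp.integral_comp hemb, ← hmp.integral_comp hemb] at hmain
  simp_rw [hψd] at hmain
  have e1 : ∀ z, w (TT z) = ℓ (F z) := fun z => by simp [hw]
  have e2 : ∀ z, ψ (TT z) = φ z := fun z => by simp [hψ]
  simp_rw [e1, e2] at hmain
  rw [hmain]
  congr 1
  refine integral_congr_ae ?_
  have h3 : ∀ᵐ z ∂(volume : Measure ℂ), TT z ∉ E ∧ (TT z ∈ Eᶜ → G (TT z) = fderiv ℝ w (TT z)) :=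
    hmp.quasiMeasurePreserving.ae (hnE.and hae)
  filter_upwards [h3] with z hz
  rw [hz.2 hz.1, hfd _ hz.1]
  simp

/-- local removability -/
theorem local_removable {E : Set (Eu 2)} (hE : IsClosed E)
    (hrem : ∀ u : Eu 2 → ℝ, Continuous u → InW Eᶜ u → InW univ u)
    {U : Set ℂ} (hU : IsOpen U) {f : ℂ → ℂ} (hf : ContinuousOn f U) (hinj : InjOn f U)
    (hhol : DifferentiableOn ℂ f (U \ TT ⁻¹' E)) : DifferentiableOn ℂ f U := by
  have hE0 := volume_zero_of_removable le_rfl hE hrem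
  intro z₀ hz₀
  obtain ⟨ρ, hρ, hρU⟩ := Metric.nhds_basis_closedBall.mem_iff.1 (hU.mem_nhds hz₀)
  set χ : ContDiffBump z₀ := ⟨ρ / 2, ρ, by positivity, by linarith⟩ with hχ
  have hχo : χ.rOut = ρ := rfl
  have hχi : χ.rIn = ρ / 2 := rfl
  set E' : Set ℂ := TT ⁻¹' E with hE'
  have hE'c : IsClosed E' := hE.preimage TT.continuous
  have hts : tsupport χ = closedBall z₀ ρ := χ.tsupport_eq
  set F : ℂ → ℂ := fun z => (χ z : ℂ) * f z with hF
  have hF0 : ∀ z, z ∉ closedBall z₀ ρ → F =ᶠ[𝓝 z] fun _ => 0 := by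
    intro z hz
    rw [← hts] at hz
    filter_upwards [notMem_tsupport_iff_eventuallyEq.1 hz] with y hy
    simp [hF, hy]
  have hFcont : Continuous F := by
    rw [continuous_iff_continuousAt]
    intro z
    by_cases hz : z ∈ closedBall z₀ ρ
    · have h1 : ContinuousAt f z := hf.continuousAt (hU.mem_nhds (hρU hz))
      have h2 : ContinuousAt (fun z => (χ z : ℂ)) z :=
        (Complex.continuous_ofReal.comp χ.continuous).continuousAt
      exact h2.mul h1
    · exact (continuousAt_const (y := (0:ℂ))).congr (hF0 z hz).symm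
  have hFc : HasCompactSupport F := by
    refine HasCompactSupport.intro (isCompact_closedBall z₀ ρ) fun z hz => ?_
    exact (hF0 z hz).self_of_nhds
  have hopen : IsOpen (U \ E') := hU.sdiff hE'c
  have hdf : ∀ z ∈ U \ E', DifferentiableAt ℂ f z := fun z hz =>
    hhol.differentiableAt (hopen.mem_nhds hz)
  have hC1 : ∀ z, TT z ∉ E → ContDiffAt ℝ 1 F z := by
    intro z hz
    by_cases hzb : z ∈ closedBall z₀ ρ
    · have hzU : z ∈ U \ E' := ⟨hρU hzb, hz⟩
      have h1 : ContDiffAt ℂ 1 f z := (hhol.analyticAt (hopen.mem_nhds hzU)).contDiffAt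
      have h2 : ContDiffAt ℝ 1 f z := h1.restrict_scalars ℝ
      have h3 : ContDiffAt ℝ 1 (fun z => (χ z : ℂ)) z :=
        Complex.ofRealCLM.contDiff.contDiffAt.comp z χ.contDiffAt
      exact h3.mul h2
    · exact contDiffAt_const.congr_of_eventuallyEq (hF0 z hzb)
  -- the energy
  have hBc : IsCompact (closedBall z₀ ρ) := isCompact_closedBall z₀ ρ
  obtain ⟨M, hM⟩ : ∃ M, ∀ z ∈ closedBall z₀ ρ, ‖f z‖ ≤ M :=
    hBc.exists_bound_of_continuousOn (hf.mono hρU)
  obtain ⟨M', hM'⟩ : ∃ M', ∀ z ∈ closedBall z₀ ρ, ‖fderiv ℝ (fun z => (χ z : ℂ)) z‖ ≤ M' := by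
    refine hBc.exists_bound_of_continuousOn (Continuous.continuousOn ?_)
    have : ContDiff ℝ 1 (fun z => (χ z : ℂ)) := Complex.ofRealCLM.contDiff.comp χ.contDiff
    exact this.continuous_fderiv one_ne_zero
  have hM0 : 0 ≤ M := (norm_nonneg _).trans (hM z₀ (mem_closedBall_self hρ.le))
  have hM'0 : 0 ≤ M' := (norm_nonneg _).trans (hM' z₀ (mem_closedBall_self hρ.le))
  have hbd : ∀ z ∈ closedBall z₀ ρ \ E', ‖fderiv ℝ F z‖ ≤ ‖deriv f z‖ + M * M' := by
    intro z hz
    have hzU : z ∈ U \ E' := ⟨hρU hz.1, hz.2⟩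
    have h1 := hdf z hzU
    have h2 : HasFDerivAt f ((fderiv ℂ f z).restrictScalars ℝ) z :=
      h1.hasFDerivAt.restrictScalars ℝ
    have h3 : DifferentiableAt ℝ (fun z => (χ z : ℂ)) z := by
      have : ContDiff ℝ 1 (fun z => (χ z : ℂ)) := Complex.ofRealCLM.contDiff.comp χ.contDiff
      exact this.differentiable one_ne_zero z
    have h4 := (h3.hasFDerivAt.mul h2).fderiv
    have h5 : fderiv ℝ F z = (χ z : ℂ) • (fderiv ℂ f z).restrictScalars ℝ +
        f z • fderiv ℝ (fun z => (χ z : ℂ)) z := h4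
    rw [h5]
    refine (norm_add_le _ _).trans ?_
    rw [norm_smul, norm_smul, ContinuousLinearMap.norm_restrictScalars, ← norm_deriv_eq_norm_fderiv]
    have h6 : ‖(χ z : ℂ)‖ ≤ 1 := by
      rw [Complex.norm_real, Real.norm_eq_abs, abs_of_nonneg χ.nonneg]
      exact χ.le_one
    have h7 := hM z hz.1
    have h8 := hM' z hz.1
    have h9 : 0 ≤ ‖deriv f z‖ := norm_nonneg _
    calc ‖(χ z : ℂ)‖ * ‖deriv f z‖ + ‖f z‖ * ‖fderiv ℝ (fun z => (χ z : ℂ)) z‖ ≤
        1 * ‖deriv f z‖ + M * M' := by gcongr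
      _ = _ := by ring
  have hL2 : ∫⁻ z in TT ⁻¹' Eᶜ, ENNReal.ofReal ‖fderiv ℝ F z‖ ^ 2 ≠ ⊤ := by
    have hmeas : MeasurableSet (closedBall z₀ ρ \ E') :=
      hBc.measurableSet.diff hE'c.measurableSet
    have harea := area_bound hmeas (fun z hz => hdf z ⟨hρU hz.1, hz.2⟩)
      (hinj.mono fun z hz => hρU hz.1)
    have hfin : volume (f '' (closedBall z₀ ρ \ E')) ≠ ⊤ := by
      refine ne_top_of_le_ne_top
        ((hBc.image_of_continuousOn (hf.mono hρU)).measure_lt_top (μ := volume)).ne ?_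
      exact measure_mono (image_mono sdiff_subset)
    have h1 : ∫⁻ z in TT ⁻¹' Eᶜ, ENNReal.ofReal ‖fderiv ℝ F z‖ ^ 2 ≤
        ∫⁻ z in closedBall z₀ ρ \ E', (2 * ENNReal.ofReal (‖deriv f z‖ ^ 2) +
          ENNReal.ofReal (2 * (M * M') ^ 2)) := by
      rw [← lintegral_indicator (hE.isOpen_compl.preimage TT.continuous).measurableSet,
        ← lintegral_indicator hmeas]
      refine lintegral_mono fun z => ?_
      by_cases hz : z ∈ TT ⁻¹' Eᶜ
      · rw [indicator_of_mem hz]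
        by_cases hzb : z ∈ closedBall z₀ ρ
        · have hz' : z ∈ closedBall z₀ ρ \ E' := ⟨hzb, hz⟩
          rw [indicator_of_mem hz']
          have h2 := hbd z hz'
          have h3 : ‖fderiv ℝ F z‖ ^ 2 ≤ 2 * ‖deriv f z‖ ^ 2 + 2 * (M * M') ^ 2 := by
            have h4 : ‖fderiv ℝ F z‖ ^ 2 ≤ (‖deriv f z‖ + M * M') ^ 2 := by gcongr
            nlinarith [sq_nonneg (‖deriv f z‖ - M * M')]
          calc ENNReal.ofReal ‖fderiv ℝ F z‖ ^ 2 = ENNReal.ofReal (‖fderiv ℝ F z‖ ^ 2) := by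
                rw [ENNReal.ofReal_pow (norm_nonneg _)]
            _ ≤ ENNReal.ofReal (2 * ‖deriv f z‖ ^ 2 + 2 * (M * M') ^ 2) :=
                ENNReal.ofReal_le_ofReal h3
            _ = _ := by
                rw [ENNReal.ofReal_add (by positivity) (by positivity),
                  ENNReal.ofReal_mul (by norm_num)]
                simp
        · have h2 : fderiv ℝ F z = 0 := by
            rw [(hF0 z hzb).fderiv_eq]
            simp
          rw [h2]
          simp
      · rw [indicator_of_notMem hz]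
        exact zero_le
    refine ne_top_of_le_ne_top ?_ h1
    rw [lintegral_add_right _ measurable_const, lintegral_const_mul' _ _ (by norm_num), harea]
    simp only [lintegral_const, Measure.restrict_apply_univ]
    have h2 : volume (closedBall z₀ ρ \ E') ≠ ⊤ :=
      ne_top_of_le_ne_top hBc.measure_lt_top.ne (measure_mono sdiff_subset)
    finiteness
  -- weak holomorphy
  have hweyl : DifferentiableOn ℂ F (ball z₀ (ρ / 2)) := by
    refine weyl hFcont hFc fun φ hφ hφc hφs => ?_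
    have hre : ‖Complex.reCLM‖ ≤ 1 := by simp
    have him : ‖Complex.imCLM‖ ≤ 1 := by simp
    have k1 := fun v => weak_component hE hE0 hrem hFcont hFc hC1 hL2 Complex.reCLM hre hφ hφc v
    have k2 := fun v => weak_component hE hE0 hrem hFcont hFc hC1 hL2 Complex.imCLM him hφ hφc v
    simp only [Complex.reCLM_apply, Complex.imCLM_apply] at k1 k2
    have hint : ∀ v, Integrable (fun z => F z * ((fderiv ℝ φ z v : ℝ) : ℂ)) volume := by
      intro v
      refine Continuous.integrable_of_hasCompactSupport ?_ ?_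
      · have : Continuous (fun z => fderiv ℝ φ z v) :=
          (hφ.continuous_fderiv (by simp)).clm_apply continuous_const
        exact hFcont.mul (Complex.continuous_ofReal.comp this)
      · exact hFc.mul_right
    have hsplit : ∀ v, ∫ z, F z * ((fderiv ℝ φ z v : ℝ) : ℂ) =
        ((∫ z, (F z).re * fderiv ℝ φ z v : ℝ) : ℂ) +
          ((∫ z, (F z).im * fderiv ℝ φ z v : ℝ) : ℂ) * Complex.I := by
      intro v
      have h1 := integral_re_add_im (hint v)
      rw [← h1]
      simp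
    have hE'0 : ∀ᵐ z ∂(volume : Measure ℂ), TT z ∉ E := by
      have hnE : ∀ᵐ x ∂(volume : Measure (Eu 2)), x ∉ E := by
        rw [ae_iff]
        simpa using hE0
      exact TT.measurePreserving.quasiMeasurePreserving.ae hnE
    have hCR : ∀ᵐ z ∂(volume : Measure ℂ), φ z * (fderiv ℝ F z Complex.I).re =
        - (φ z * (fderiv ℝ F z 1).im) ∧
        φ z * (fderiv ℝ F z Complex.I).im = φ z * (fderiv ℝ F z 1).re := by
      filter_upwards [hE'0] with z hz
      by_cases hzs : z ∈ tsupport φ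
      · have hzb : z ∈ ball z₀ (ρ / 2) := hφs hzs
        have hzU : z ∈ U \ E' := ⟨hρU (ball_subset_closedBall (ball_subset_ball (by linarith) hzb)),
          hz⟩
        have h1 : F =ᶠ[𝓝 z] f := by
          filter_upwards [isOpen_ball.mem_nhds hzb] with y hy
          have : χ y = 1 := χ.one_of_mem_closedBall (ball_subset_closedBall hy)
          simp [hF, this]
        have h2 : DifferentiableAt ℂ F z := (hdf z hzU).congr_of_eventuallyEq h1
        have h3 := (differentiableAt_complex_iff_differentiableAt_real.1 h2).2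
        rw [h3]
        simp
      · rw [image_eq_zero_of_notMem_tsupport hzs]
        simp
    have c1 : ∫ z, φ z * (fderiv ℝ F z Complex.I).re = - ∫ z, φ z * (fderiv ℝ F z 1).im := by
      rw [← integral_neg]
      exact integral_congr_ae (hCR.mono fun z hz => hz.1)
    have c2 : ∫ z, φ z * (fderiv ℝ F z Complex.I).im = ∫ z, φ z * (fderiv ℝ F z 1).re :=
      integral_congr_ae (hCR.mono fun z hz => hz.2)
    rw [hsplit, hsplit, k1, k1, k2, k2, c1, c2]
    push_cast
    linear_combination (∫ z, φ z * (fderiv ℝ F z 1).im : ℝ) * Complex.I_sq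
  have h1 : F =ᶠ[𝓝 z₀] f := by
    filter_upwards [isOpen_ball.mem_nhds (mem_ball_self (by positivity : 0 < ρ / 2))] with y hy
    have : χ y = 1 := χ.one_of_mem_closedBall (ball_subset_closedBall hy)
    simp [hF, this]
  have h2 : DifferentiableAt ℂ F z₀ :=
    hweyl.differentiableAt (ball_mem_nhds z₀ (by positivity))
  exact (h2.congr_of_eventuallyEq h1.symm).differentiableWithinAt

end Pool.Agent.H196
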