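import Pool.Agent.H252.EL.Iface
import Pool.Graph.R_seed8.TH249.Lim

/-!
# Dimension functions of projections and of positive contractions
-/

set_option autoImplicit false

noncomputable section

namespace Pool.Agent.H196.ELDIM

open Filter Topology
open Pool.Agent.H252.EL
open Pool.Agent.TH249 (IsPrj toMA frMA toMA_mul toMA_star toMA_inj frMA_toMA toMA_frMA)
open Pool.Agent.H188R3 (MA MA.en_star MA.en_mul MA.en_sub)

variable {L : Type} [CStarAlgebra L] {n : ℕ}

theorem trM_frMA_star_mul_self (τ : WeakDual ℂ L) (hτ : τ ∈ TracialStates L)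
    (z : MA (Fin n) L) : 0 ≤ (trM τ (frMA (star z * z))).re := by
  have h1 : trM τ (frMA (star z * z)) = ∑ i, ∑ k, τ (star (z.en k i) * z.en k i) := by
    unfold trM
    refine Finset.sum_congr rfl fun i _ => ?_
    have h2 : frMA (star z * z) i i = ∑ k, star (z.en k i) * z.en k i := by
      show (star z * z).en i i = _
      rw [MA.en_mul]
      rfl
    rw [h2, map_sum]
  rw [h1, Complex.re_sum]
  refine Finset.sum_nonneg fun i _ => ?_
  rw [Complex.re_sum]
  exact Finset.sum_nonneg fun k _ => (hτ.2.1 _).1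

theorem trM_frMA_sub (τ : WeakDual ℂ L) (x y : MA (Fin n) L) :
    trM τ (frMA (x - y)) = trM τ (frMA x) - trM τ (frMA y) := by
  unfold trM
  rw [← Finset.sum_sub_distrib]
  refine Finset.sum_congr rfl fun i _ => ?_
  rw [← map_sub]
  rfl

theorem s_DIM : Pool.Agent.H252.EL.S_DIM := by
  intro L _ n a τ hτ
  constructor
  · intro ha
    refine ⟨fun _ => a, fun m => ⟨⟨a, ?_⟩, ?_⟩, tendsto_const_nhds⟩
    · rw [Matrix.star_eq_conjTranspose, ha.1, ha.2]
    · induction m with
      | zero => rw [zero_add, pow_one]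
      | succ m ih => rw [pow_succ, ih, ha.2]
  · rintro ⟨y, hy⟩ ⟨w, hw⟩
    let _ : PartialOrder (MA (Fin n) L) := CStarAlgebra.spectralOrder (MA (Fin n) L)
    have _ : StarOrderedRing (MA (Fin n) L) := CStarAlgebra.spectralOrderedRing (MA (Fin n) L)
    set X : MA (Fin n) L := toMA a with hX
    have hX0 : 0 ≤ X := by
      have : X = star (toMA y) * toMA y := by
        rw [hX, hy]; rfl
      rw [this]
      exact star_mul_self_nonneg _
    have hX1 : X ≤ 1 := by
      have : 1 - X = star (toMA w) * toMA w := by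
        have h1 : toMA (1 - a) = star (toMA w) * toMA w := by rw [hw]; rfl
        rw [← h1]; rfl
      rw [← sub_nonneg, this]
      exact star_mul_self_nonneg _
    have hsa : IsSelfAdjoint X := IsSelfAdjoint.of_nonneg hX0
    have hspec0 : ∀ t ∈ spectrum ℝ X, 0 ≤ t := fun t ht => spectrum_nonneg_of_nonneg hX0 ht
    have hspec1 : ∀ t ∈ spectrum ℝ X, t ≤ 1 := by
      have := (le_algebraMap_iff_spectrum_le (r := (1 : ℝ)) (a := X) hsa).1 (by simpa using hX1)
      exact this
    let f : ℕ → ℝ → ℝ := fun m t => t ^ ((m : ℝ) + 1)⁻¹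
    have hf : ∀ m, Continuous (f m) := fun m =>
      Real.continuous_rpow_const (by positivity)
    let R : ℕ → MA (Fin n) L := fun m => cfc (f m) X
    have hR0 : ∀ m, 0 ≤ R m := fun m => cfc_nonneg fun t ht => Real.rpow_nonneg (hspec0 t ht) _
    have hR1 : ∀ m, R m ≤ 1 := fun m => cfc_le_one _ _ fun t ht =>
      Real.rpow_le_one (hspec0 t ht) (hspec1 t ht) (by positivity)
    have hRm : ∀ m, R m ≤ R (m + 1) := by
      intro m
      refine cfc_mono (fun t ht => ?_) (hf m).continuousOn (hf (m + 1)).continuousOn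
      rcases (hspec0 t ht).eq_or_lt with h0 | h0
      · show t ^ ((m : ℝ) + 1)⁻¹ ≤ t ^ (((m + 1 : ℕ) : ℝ) + 1)⁻¹
        rw [← h0, Real.zero_rpow (by positivity), Real.zero_rpow (by positivity)]
      · refine Real.rpow_le_rpow_of_exponent_ge h0 (hspec1 t ht) ?_
        refine inv_anti₀ (by positivity) ?_
        push_cast
        linarith
    have hRp : ∀ m, R m ^ (m + 1) = X := by
      intro m
      show cfc (f m) X ^ (m + 1) = X
      rw [← cfc_pow (f m) (m + 1) X (hf m).continuousOn]
      conv_rhs => rw [← cfc_id ℝ X]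
      refine cfc_congr fun t ht => ?_
      show (t ^ ((m : ℝ) + 1)⁻¹) ^ (m + 1) = t
      rw [← Real.rpow_natCast, ← Real.rpow_mul (hspec0 t ht)]
      push_cast
      rw [inv_mul_cancel₀ (by positivity), Real.rpow_one]
    have hle : ∀ x z : MA (Fin n) L, x ≤ z → (trM τ (frMA x)).re ≤ (trM τ (frMA z)).re := by
      intro x z hxz
      obtain ⟨u, hu⟩ := CStarAlgebra.nonneg_iff_eq_star_mul_self.1 (sub_nonneg.2 hxz)
      have h1 := trM_frMA_star_mul_self τ hτ u
      rw [← hu, trM_frMA_sub, Complex.sub_re] at h1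
      linarith
    have hmono : Monotone fun m => (trM τ (frMA (R m))).re :=
      monotone_nat_of_le_succ fun m => hle _ _ (hRm m)
    have hbdd : BddAbove (Set.range fun m => (trM τ (frMA (R m))).re) := by
      refine ⟨(trM τ (frMA (1 : MA (Fin n) L))).re, ?_⟩
      rintro _ ⟨m, rfl⟩
      exact hle _ _ (hR1 m)
    refine ⟨⨆ m, (trM τ (frMA (R m))).re, ?_, fun m => frMA (R m), fun m => ⟨?_, ?_⟩,
      tendsto_atTop_ciSup hmono hbdd⟩
    · have h0 : R 0 = X := by
        have := hRp 0
        rwa [zero_add, pow_one] at this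
      have h1 := le_ciSup hbdd 0
      have h2 : (trM τ (frMA (R 0))).re = (trM τ a).re := by rw [h0, hX, frMA_toMA]
      rw [← h2]
      exact h1
    · obtain ⟨u, hu⟩ := CStarAlgebra.nonneg_iff_eq_star_mul_self.1 (hR0 m)
      exact ⟨frMA u, congrArg frMA hu⟩
    · show frMA (R m) ^ (m + 1) = a
      have h1 : ∀ k, frMA (R m) ^ k = frMA (R m ^ k) := by
        intro k
        induction k with
        | zero => rw [pow_zero, pow_zero]; rfl
        | succ k ih => rw [pow_succ, pow_succ, ih]; rfl
      rw [h1, hRp m, hX, frMA_toMA]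

end Pool.Agent.H196.ELDIM
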