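import Pool.Agent.H979.FC.Stm

/-! `S_ONE` (project FC of helper979), by helper196. -/

set_option autoImplicit false

open MeasureTheory ProbabilityTheory Finset
open scoped ENNReal NNReal

namespace Pool.Agent.H196

open Pool.Agent.H979 Pool.Agent.H979.FR Pool.Agent.H979.FC

namespace FCONE

variable {V : Type}

open Classical in
/-- the field given by a family of sets of particles -/
noncomputable def fld (R : V × List V → Set (FR.Part V)) (ω : Conf V) (p : V × List V) : Bool :=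
  decide (∃ i < (ω p.1).1, (ω p.1).2 i ∈ R p)

lemma fld_meas [MeasurableSpace V] (R : V × List V → Set (FR.Part V))
    (hR : ∀ p, MeasurableSet (R p)) : Measurable (fld R) := by
  apply measurable_pi_lambda
  intro p
  apply measurable_to_bool
  have e : (fun ω : Conf V => fld R ω p) ⁻¹' {true} =
      ⋃ i : ℕ, {ω : Conf V | i < (ω p.1).1} ∩ {ω : Conf V | (ω p.1).2 i ∈ R p} := by
    ext ω
    simp [fld]
  rw [e]
  apply MeasurableSet.iUnion
  intro i
  apply MeasurableSet.inter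
  · exact measurableSet_lt measurable_const (measurable_fst.comp (measurable_pi_apply p.1))
  · exact ((measurable_pi_apply i).comp (measurable_snd.comp (measurable_pi_apply p.1))) (hR p)

lemma U_meas [MeasurableSpace V] [Countable V] (R : V × List V → Set (FR.Part V))
    (hR : ∀ p, MeasurableSet (R p)) (F : Finset (V × List V)) (x : V) :
    MeasurableSet {ξ | ∃ l, (x, l) ∈ F ∧ ξ ∈ R (x, l)} := by
  have e : {ξ | ∃ l, (x, l) ∈ F ∧ ξ ∈ R (x, l)} = ⋃ l : List V, ⋃ _ : (x, l) ∈ F, R (x, l) := by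
    ext ξ
    simp
  rw [e]
  exact MeasurableSet.iUnion fun l => MeasurableSet.iUnion fun _ => hR _

open Classical in
lemma fld_void [MeasurableSpace V] [DiscreteMeasurableSpace V] [Countable V] (hPOI : FR.S_POI)
    (G : SimpleGraph V) [G.LocallyFinite] (lam : ℝ≥0) (R : V × List V → Set (FR.Part V))
    (hR : ∀ p, MeasurableSet (R p)) (F : Finset (V × List V)) :
    law G lam {ω | ∀ p ∈ F, fld R ω p = false} =
      ENNReal.ofReal (Real.exp (-∑ x ∈ F.image Prod.fst,
        (lam : ℝ) * (partLaw G {ξ | ∃ l, (x, l) ∈ F ∧ ξ ∈ R (x, l)}).toReal)) := by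
  rw [← hPOI V G lam (F.image Prod.fst) (fun x => {ξ | ∃ l, (x, l) ∈ F ∧ ξ ∈ R (x, l)})
    (fun x => U_meas R hR F x)]
  congr 1
  ext ω
  constructor
  · intro h x _ i hi hm
    obtain ⟨l, hl, hξ⟩ := hm
    have := h (x, l) hl
    simp only [fld, decide_eq_false_iff_not, not_exists, not_and] at this
    exact this i hi hξ
  · intro h p hp
    simp only [fld, decide_eq_false_iff_not, not_exists, not_and]
    intro i hi hξ
    exact h p.1 (Finset.mem_image_of_mem _ hp) i hi ⟨p.2, hp, hξ⟩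

lemma tm_meas (ρ : ℝ) : Measurable (tm ρ) := by
  unfold tm
  fun_prop

lemma TM_meas (ρ : ℝ) : Measurable (TM ρ) := by
  apply measurable_pi_lambda
  intro j
  by_cases hj : j = 0
  · subst hj
    have e : (fun E : ℕ → ℝ => TM ρ E 0) = fun E => tm ρ (E 0) := by
      funext E; unfold TM; rw [Function.update_self]
    rw [e]
    exact (tm_meas ρ).comp (measurable_pi_apply 0)
  · have e : (fun E : ℕ → ℝ => TM ρ E j) = fun E => E j := by
      funext E; unfold TM; rw [Function.update_of_ne hj]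
    rw [e]
    exact measurable_pi_apply j

/-- the transformation of the particles -/
noncomputable def TP (ρ : ℝ) (ξ : FR.Part V) : FR.Part V := (TM ρ ξ.1, ξ.2)

lemma TP_meas [MeasurableSpace V] (ρ : ℝ) : Measurable (TP (V := V) ρ) :=
  ((TM_meas ρ).comp measurable_fst).prodMk measurable_snd

lemma fst0_meas [MeasurableSpace V] (t' : ℝ) : MeasurableSet {ξ : FR.Part V | ξ.1 0 ≤ t'} :=
  measurableSet_le ((measurable_pi_apply 0).comp measurable_fst) measurable_const

/-- integration of TMM over the choices -/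
lemma part_eq [MeasurableSpace V] [DiscreteMeasurableSpace V] (hTMM : S_TMM) (G : SimpleGraph V)
    [G.LocallyFinite] (t t' : ℝ) (ht : 0 < t) (htt : t ≤ t') (U : Set (FR.Part V))
    (hU : MeasurableSet U) (hUt : ∀ ξ ∈ U, ξ.1 0 ≤ t) :
    ENNReal.ofReal ((1 - Real.exp (-t)) / (1 - Real.exp (-t'))) *
      partLaw G {ξ | ξ.1 0 ≤ t' ∧ TP ((1 - Real.exp (-t)) / (1 - Real.exp (-t'))) ξ ∈ U} =
      partLaw G U := by
  set ρ : ℝ := (1 - Real.exp (-t)) / (1 - Real.exp (-t')) with hρ
  have hU' : MeasurableSet {ξ : FR.Part V | ξ.1 0 ≤ t' ∧ TP ρ ξ ∈ U} :=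
    (fst0_meas t').inter ((TP_meas ρ) hU)
  unfold partLaw
  rw [Measure.prod_apply_symm hU, Measure.prod_apply_symm hU', ← lintegral_const_mul']
  · apply lintegral_congr
    intro c
    have hc : MeasurableSet ((fun E : ℕ → ℝ => (E, c)) ⁻¹' U) :=
      (measurable_id.prodMk measurable_const) hU
    have h := hTMM t t' ht htt ((fun E : ℕ → ℝ => (E, c)) ⁻¹' U) hc (fun E hE => hUt _ hE)
    exact h
  · exact ENNReal.ofReal_ne_top

/-- the time shift -/
lemma shift (t t' s : ℝ) (ht : 0 < t) (htt : t ≤ t') (hs : s ≤ t') :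
    s - tm ((1 - Real.exp (-t)) / (1 - Real.exp (-t'))) s ≤ t' - t := by
  have h1 : 0 < 1 - Real.exp (-t) := by
    have : Real.exp (-t) < 1 := by
      rw [← Real.exp_zero]; exact Real.exp_lt_exp.2 (by linarith)
    linarith
  have h2 : 0 < 1 - Real.exp (-t') := by
    have : Real.exp (-t') < 1 := by
      rw [← Real.exp_zero]; exact Real.exp_lt_exp.2 (by linarith)
    linarith
  have h3 : 1 - Real.exp (-t) ≤ 1 - Real.exp (-t') := by
    have : Real.exp (-t') ≤ Real.exp (-t) := Real.exp_le_exp.2 (by linarith)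
    linarith
  set ρ : ℝ := (1 - Real.exp (-t)) / (1 - Real.exp (-t')) with hρ
  have hρ0 : 0 < ρ := div_pos h1 h2
  have hρ1 : ρ ≤ 1 := (div_le_one h2).2 h3
  have hpos : 0 < 1 - ρ * (1 - Real.exp (-s)) := by
    have : 0 < ρ * Real.exp (-s) := mul_pos hρ0 (Real.exp_pos _)
    nlinarith
  have e1 : s - tm ρ s = Real.log (Real.exp s * (1 - ρ) + ρ) := by
    unfold tm
    have e2 : Real.exp s * (1 - ρ) + ρ = Real.exp s * (1 - ρ * (1 - Real.exp (-s))) := by
      have : Real.exp s * Real.exp (-s) = 1 := by rw [← Real.exp_add]; simp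
      linear_combination (-ρ) * this
    rw [e2, Real.log_mul (Real.exp_pos s).ne' hpos.ne', Real.log_exp]
    ring
  have e3 : Real.exp t' * (1 - ρ) + ρ = Real.exp (t' - t) := by
    have h4 : Real.exp t' * Real.exp (-t') = 1 := by rw [← Real.exp_add]; simp
    have h5 : Real.exp (t' - t) = Real.exp t' * Real.exp (-t) := by
      rw [← Real.exp_add]; congr 1
    rw [h5, hρ]
    field_simp
    linear_combination (-(1 - Real.exp (-t))) * h4
  rw [e1]
  have h6 : 0 < Real.exp s * (1 - ρ) + ρ := by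
    have : 0 ≤ Real.exp s * (1 - ρ) := mul_nonneg (Real.exp_pos _).le (by linarith)
    linarith
  have h7 : Real.exp s * (1 - ρ) + ρ ≤ Real.exp (t' - t) := by
    rw [← e3]
    have : Real.exp s * (1 - ρ) ≤ Real.exp t' * (1 - ρ) :=
      mul_le_mul_of_nonneg_right (Real.exp_le_exp.2 hs) (by linarith)
    linarith
  calc Real.log (Real.exp s * (1 - ρ) + ρ) ≤ Real.log (Real.exp (t' - t)) :=
        Real.log_le_log h6 h7
    _ = t' - t := Real.log_exp _

/-- the visited vertices -/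
lemma visit (t t' : ℝ) (ht : 0 < t) (htt : t ≤ t') (x y : V) (ξ : FR.Part V) (l : List V)
    (h0 : ξ.1 0 ≤ t')
    (hr : run t x (TP ((1 - Real.exp (-t)) / (1 - Real.exp (-t'))) ξ) l) (hy : y ∈ l) :
    y ∈ visits t' x ξ := by
  obtain ⟨n, hn, rfl⟩ := List.getElem_of_mem hy
  refine ⟨n + 1, ?_, ?_⟩
  · have h1 := (hr.1 (n + 1)).2 hn
    have h2 := shift t t' (ξ.1 0) ht htt h0
    set ρ : ℝ := (1 - Real.exp (-t)) / (1 - Real.exp (-t')) with hρ
    rw [Finset.sum_range_succ'] at h1 ⊢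
    have e1 : ∀ j, (TP ρ ξ).1 (j + 1) = ξ.1 (j + 1) := by
      intro j
      show TM ρ ξ.1 (j + 1) = ξ.1 (j + 1)
      unfold TM
      rw [Function.update_of_ne (by omega)]
    have e2 : (TP ρ ξ).1 0 = tm ρ (ξ.1 0) := by
      show TM ρ ξ.1 0 = tm ρ (ξ.1 0)
      unfold TM
      rw [Function.update_self]
    simp only [e1, e2] at h1
    linarith
  · exact hr.2 n hn

lemma field_eq (t : ℝ) (ω : Conf V) :
    field t ω = fld (fun p => {ξ | p.2 ≠ [] ∧ run t p.1 ξ p.2}) ω := by
  classical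
  funext p
  unfold field fld
  rw [decide_eq_decide]
  constructor
  · rintro ⟨h1, i, hi, h2⟩
    exact ⟨i, hi, h1, h2⟩
  · rintro ⟨i, hi, h1, h2⟩
    exact ⟨h1, i, hi, h2⟩

lemma visited_of_RF (t t' : ℝ) (ht : 0 < t) (htt : t ≤ t') (ω : Conf V) (o y : V)
    (h : RF (fld (fun p => {ξ | p.2 ≠ [] ∧ ξ.1 0 ≤ t' ∧
      run t p.1 (TP ((1 - Real.exp (-t)) / (1 - Real.exp (-t'))) ξ) p.2}) ω) o y) :
    Visited t' ω o y := by
  unfold RF at h
  induction h with
  | refl => exact Visited.start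
  | tail _ hstep ih =>
    obtain ⟨l, hl, hy⟩ := hstep
    simp only [fld, decide_eq_true_eq] at hl
    obtain ⟨i, hi, _, h0, hr⟩ := hl
    exact Visited.step i ih hi (visit t t' ht htt _ _ _ l h0 hr hy)

end FCONE

open FCONE in
theorem fc_one (hTMM : S_TMM) (hRFAE : S_RFAE) (hRUNP : S_RUNP) (hVOID : S_VOID)
    (hSRV : S_SRV) (hPOI : FR.S_POI) : S_ONE := by
  classical
  intro V _ _ _ G _ d hd hdeg lam lam' t t' ht htt hlam o
  have htr : (0 : ℝ) < (t : ℝ) := by exact_mod_cast ht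
  have httr : (t : ℝ) ≤ (t' : ℝ) := by exact_mod_cast htt
  set ρ : ℝ := (1 - Real.exp (-(t : ℝ))) / (1 - Real.exp (-(t' : ℝ))) with hρ
  set R : V × List V → Set (FR.Part V) := fun p => {ξ | p.2 ≠ [] ∧ run (t : ℝ) p.1 ξ p.2} with hR
  set R' : V × List V → Set (FR.Part V) := fun p => {ξ | p.2 ≠ [] ∧ ξ.1 0 ≤ (t' : ℝ) ∧
    run (t : ℝ) p.1 (TP ρ ξ) p.2} with hR'
  have hrun : ∀ (x : V) (l : List V), MeasurableSet {ξ : FR.Part V | run (t : ℝ) x ξ l} :=
    fun x l => (hRUNP V G d hd hdeg (t : ℝ) htr.le x l).1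
  have hRm : ∀ p, MeasurableSet (R p) := by
    intro p
    rw [hR]
    by_cases hp : p.2 = []
    · have e : {ξ : FR.Part V | p.2 ≠ [] ∧ run (t : ℝ) p.1 ξ p.2} = ∅ := by
        ext ξ; simp [hp]
      rw [show (fun p : V × List V => {ξ : FR.Part V | p.2 ≠ [] ∧ run (t : ℝ) p.1 ξ p.2}) p =
        {ξ : FR.Part V | p.2 ≠ [] ∧ run (t : ℝ) p.1 ξ p.2} from rfl, e]
      exact MeasurableSet.empty
    · have e : {ξ : FR.Part V | p.2 ≠ [] ∧ run (t : ℝ) p.1 ξ p.2} =
          {ξ : FR.Part V | run (t : ℝ) p.1 ξ p.2} := by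
        ext ξ; simp [hp]
      rw [show (fun p : V × List V => {ξ : FR.Part V | p.2 ≠ [] ∧ run (t : ℝ) p.1 ξ p.2}) p =
        {ξ : FR.Part V | p.2 ≠ [] ∧ run (t : ℝ) p.1 ξ p.2} from rfl, e]
      exact hrun _ _
  have hR'eq : ∀ p, R' p = {ξ : FR.Part V | ξ.1 0 ≤ (t' : ℝ)} ∩ (TP ρ) ⁻¹' (R p) := by
    intro p
    ext ξ
    constructor
    · rintro ⟨h1, h2, h3⟩
      exact ⟨h2, h1, h3⟩
    · rintro ⟨h1, h2, h3⟩
      exact ⟨h2, h1, h3⟩
  have hR'm : ∀ p, MeasurableSet (R' p) := by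
    intro p
    rw [hR'eq]
    exact (fst0_meas _).inter ((TP_meas ρ) (hRm p))
  obtain ⟨hSm, _⟩ := hSRV V o
  -- the laws agree
  have hlaw : (law G lam).map (fld R) = (law G lam').map (fld R') := by
    have : IsProbabilityMeasure ((law G lam).map (fld R)) :=
      Measure.isProbabilityMeasure_map (fld_meas R hRm).aemeasurable
    have : IsProbabilityMeasure ((law G lam').map (fld R')) :=
      Measure.isProbabilityMeasure_map (fld_meas R' hR'm).aemeasurable
    apply hVOID
    intro F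
    have hFm : MeasurableSet {A : V × List V → Bool | ∀ i ∈ F, A i = false} := by
      have e : {A : V × List V → Bool | ∀ i ∈ F, A i = false} =
          ⋂ i ∈ F, {A : V × List V → Bool | A i = false} := by
        ext A; simp
      rw [e]
      refine Finset.measurableSet_biInter F fun i _ => ?_
      have hi : Measurable fun A : V × List V → Bool => A i := measurable_pi_apply i
      exact hi (measurableSet_singleton false)
    rw [Measure.map_apply (fld_meas R hRm) hFm, Measure.map_apply (fld_meas R' hR'm) hFm]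
    have v1 := fld_void hPOI G lam R hRm F
    have v2 := fld_void hPOI G lam' R' hR'm F
    refine (v1.trans ?_).trans v2.symm
    congr 3
    apply Finset.sum_congr rfl
    intro x _
    have hU : MeasurableSet {ξ | ∃ l, (x, l) ∈ F ∧ ξ ∈ R (x, l)} := U_meas R hRm F x
    have hUt : ∀ ξ ∈ {ξ | ∃ l, (x, l) ∈ F ∧ ξ ∈ R (x, l)}, ξ.1 0 ≤ (t : ℝ) := by
      rintro ξ ⟨l, _, hl, hr⟩
      have h1 : 1 ≤ l.length := by
        rcases l with _ | ⟨a, l⟩
        · exact absurd rfl hl
        · simp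
      have h2 := (hr.1 1).2 h1
      rwa [Finset.sum_range_one] at h2
    have h3 := part_eq hTMM G (t : ℝ) (t' : ℝ) htr httr _ hU hUt
    have e1 : {ξ : FR.Part V | ξ.1 0 ≤ (t' : ℝ) ∧ TP ρ ξ ∈ {ξ | ∃ l, (x, l) ∈ F ∧ ξ ∈ R (x, l)}} =
        {ξ | ∃ l, (x, l) ∈ F ∧ ξ ∈ R' (x, l)} := by
      ext ξ
      constructor
      · rintro ⟨h1, l, h2, h4, h5⟩
        exact ⟨l, h2, h4, h1, h5⟩
      · rintro ⟨l, h2, h4, h1, h5⟩
        exact ⟨h1, l, h2, h4, h5⟩
    rw [← hρ, e1] at h3
    have hp1 : 0 < 1 - Real.exp (-(t : ℝ)) := by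
      have : Real.exp (-(t : ℝ)) < 1 := by
        rw [← Real.exp_zero]; exact Real.exp_lt_exp.2 (by linarith)
      linarith
    have hp2 : 0 < 1 - Real.exp (-(t' : ℝ)) := by
      have : Real.exp (-(t' : ℝ)) < 1 := by
        rw [← Real.exp_zero]; exact Real.exp_lt_exp.2 (by linarith)
      linarith
    have hρ0 : 0 ≤ ρ := (div_pos hp1 hp2).le
    have hl : (lam' : ℝ) = lam * ρ := by
      rw [hρ]; field_simp; linarith
    rw [← h3, ENNReal.toReal_mul, ENNReal.toReal_ofReal hρ0, hl]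
    ring
  have hsub : {ω | fld R' ω ∈ Surv o} ⊆ Survives (t' : ℝ) o := by
    intro ω hω
    have hω' : {y | RF (fld R' ω) o y}.Infinite := hω
    exact hω'.mono fun y hy => visited_of_RF (t : ℝ) (t' : ℝ) htr httr ω o y hy
  calc law G lam (Survives (t : ℝ) o) = law G lam (fld R ⁻¹' (Surv o)) := by
        apply measure_congr
        filter_upwards [hRFAE V G lam (t : ℝ) htr.le] with ω hω
        apply propext
        show {y | Visited (t : ℝ) ω o y}.Infinite ↔ {y | RF (fld R ω) o y}.Infinite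
        have e : {y | Visited (t : ℝ) ω o y} = {y | RF (fld R ω) o y} := by
          ext y
          have h1 := hω o y
          rw [field_eq] at h1
          exact h1
        rw [e]
    _ = ((law G lam).map (fld R)) (Surv o) := (Measure.map_apply (fld_meas R hRm) hSm).symm
    _ = ((law G lam').map (fld R')) (Surv o) := by rw [hlaw]
    _ = law G lam' (fld R' ⁻¹' (Surv o)) := Measure.map_apply (fld_meas R' hR'm) hSm
    _ ≤ law G lam' (Survives (t' : ℝ) o) := measure_mono hsub

end Pool.Agent.H196
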