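import Pool.Agent.H402.HD.Stm

/-!
# The hyperdeterminant of linear combinations
-/

set_option autoImplicit false

open Finset Pool.Agent.H402.HD

namespace Pool.Agent.H196.HD_H3

universe u

/-- the family of permutations with the identity in the direction `0` -/
def rh {d k : ℕ} (σ : Fin d → Equiv.Perm (Fin k)) (α : Fin (d + 1)) : Equiv.Perm (Fin k) :=
  Fin.cases 1 σ α

theorem cons_eq {d k : ℕ} (σ : Fin d → Equiv.Perm (Fin k)) (i : Fin k) :
    (Fin.cons i (fun β => σ β i) : Fin (d + 1) → Fin k) = fun α => rh σ α i := by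
  funext α
  refine Fin.cases ?_ (fun β => ?_) α
  · rfl
  · rfl

/-- re-indexing -/
def eqv {d k : ℕ} (X : Fin (d + 1) → Type) (ρ : Fin (d + 1) → Equiv.Perm (Fin k)) :
    (∀ α, Fin k → X α) ≃ (Fin k → ∀ α, X α) where
  toFun b i α := b α (ρ α i)
  invFun y α j := y ((ρ α).symm j) α
  left_inv b := by
    funext α j
    simp
  right_inv y := by
    funext i α
    simp

theorem holds : S_h3.{u} := by
  intro F _ d k X _ T v
  unfold hdet
  have hR : ∀ b : ∀ α, Fin k → X α,
      (∏ α, ∏ j, v α j (b α j)) * ∑ σ : Fin d → Equiv.Perm (Fin k),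
        (∏ α, ((Equiv.Perm.sign (σ α) : ℤ) : F)) *
          ∏ i : Fin k, T (fun α => b α ((Fin.cons i fun β => σ β i : Fin (d + 1) → Fin k) α)) =
      ∑ σ : Fin d → Equiv.Perm (Fin k), (∏ α, ((Equiv.Perm.sign (σ α) : ℤ) : F)) *
        ((∏ α, ∏ j, v α j (b α j)) * ∏ i : Fin k, T (fun α => b α (rh σ α i))) := by
    intro b
    rw [Finset.mul_sum]
    refine Finset.sum_congr rfl fun σ _ => ?_
    simp only [cons_eq]
    ring
  rw [Finset.sum_congr rfl fun b _ => hR b, Finset.sum_comm]
  refine Finset.sum_congr rfl fun σ _ => ?_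
  rw [← Finset.mul_sum]
  congr 1
  simp only [cons_eq]
  rw [Finset.prod_univ_sum, Fintype.piFinset_univ]
  rw [← Equiv.sum_comp (eqv X (rh σ))]
  refine Finset.sum_congr rfl fun b _ => ?_
  rw [Finset.prod_mul_distrib]
  congr 1
  rw [Finset.prod_comm]
  refine Finset.prod_congr rfl fun α _ => ?_
  exact Equiv.prod_comp (rh σ α) (fun j => v α j (b α j))

end Pool.Agent.H196.HD_H3

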