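import Pool.Agent.H252.MD.Iface
import Pool.Graph.R_pool_sql_team_seeded_620a6dc7.H107_ZS.TMUL

/-!
# MD-APP: approximation of positive elements by positive elements of finite propagation
-/

set_option autoImplicit false
set_option linter.unusedSectionVars false

namespace Pool.Agent.H196.MDAPP

open Filter Topology Matrix
open Pool.Agent.H107ZS Pool.Agent.H327R4.Pure Pool.Agent.H252.MD
open scoped CStarAlgebra ComplexOrder

noncomputable section

section dyn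

variable {X : Type} [TopologicalSpace X] [MulAction Zm X]

theorem locApp_fin {D : ℝ} (h : LocApp X D) (κ : Type) [Fintype κ] (f : κ → C(X, ℂ)) (ε : ℝ)
    (hε : 0 < ε) : ∃ (J : ℕ) (q : Fin J → C(X, ℝ)), QFam q D ∧ ∃ (n₀ : ℕ) (C : ℝ), 0 ≤ C ∧
    ∃ g : κ → C(X, ℂ), (∀ k x, ‖g k x - f k x‖ ≤ ε) ∧
      ∀ k x y ρ, 0 ≤ ρ → Near q (-(n₀ : ℤ)) n₀ x y ρ → ‖g k x - g k y‖ ≤ C * ρ := by
  obtain ⟨J, q, hq, n₀, C, hC, g, hg, hg'⟩ :=
    h (Fintype.card κ) (fun i => f ((Fintype.equivFin κ).symm i)) ε hε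
  refine ⟨J, q, hq, n₀, C, hC, fun k => g (Fintype.equivFin κ k), fun k x => ?_,
    fun k x y ρ hρ hn => hg' _ x y ρ hρ hn⟩
  have := hg (Fintype.equivFin κ k) x
  simpa using this

/-- functions depending in a Lipschitz way on the values of `q` on a window -/
def LP {J : ℕ} (q : Fin J → C(X, ℝ)) (m : ℕ) (f : C(X, ℂ)) : Prop :=
  ∃ C : ℝ, 0 ≤ C ∧ ∀ x y ρ, 0 ≤ ρ → Near q (-(m : ℤ)) m x y ρ → ‖f x - f y‖ ≤ C * ρ

theorem near_mono {J : ℕ} {q : Fin J → C(X, ℝ)} {a b a' b' : ℤ} {x y : X} {ρ : ℝ}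
    (h : Near q a b x y ρ) (h1 : a ≤ a') (h2 : b' ≤ b) : Near q a' b' x y ρ :=
  fun j i hi hi' => h j i (h1.trans hi) (hi'.trans h2)

theorem LP.mono {J : ℕ} {q : Fin J → C(X, ℝ)} {m m' : ℕ} {f : C(X, ℂ)} (h : LP q m f)
    (hm : m ≤ m') : LP q m' f := by
  obtain ⟨C, hC, h⟩ := h
  exact ⟨C, hC, fun x y ρ hρ hn => h x y ρ hρ (near_mono hn (by omega) (by omega))⟩

theorem LP.star {J : ℕ} {q : Fin J → C(X, ℝ)} {m : ℕ} {f : C(X, ℂ)} (h : LP q m f) :
    LP q m (star f) := by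
  obtain ⟨C, hC, h⟩ := h
  refine ⟨C, hC, fun x y ρ hρ hn => ?_⟩
  rw [ContinuousMap.star_apply, ContinuousMap.star_apply, ← star_sub, norm_star]
  exact h x y ρ hρ hn

theorem zt_add_smul (i j : ℤ) (x : X) : zt i • zt j • x = zt (i + j) • x := by
  rw [smul_smul]; rfl

theorem LP.comp [ContinuousConstSMul Zm X] {J : ℕ} {q : Fin J → C(X, ℝ)} {m R : ℕ} {f : C(X, ℂ)}
    (h : LP q m f) {g : Zm} (hg : g ∈ Kb R) : LP q (m + R) (f.comp (tr g)) := by
  obtain ⟨C, hC, h⟩ := h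
  refine ⟨C, hC, fun x y ρ hρ hn => ?_⟩
  unfold Kb at hg
  rw [Finset.mem_image] at hg
  obtain ⟨j, hj, rfl⟩ := hg
  rw [Finset.mem_Icc] at hj
  show ‖f (zt j • x) - f (zt j • y)‖ ≤ C * ρ
  refine h _ _ ρ hρ fun k i hi hi' => ?_
  rw [zt_add_smul, zt_add_smul]
  refine hn k (i + j) ?_ ?_ <;> push_cast <;> omega

theorem LP.mul [CompactSpace X] {J : ℕ} {q : Fin J → C(X, ℝ)} {m : ℕ} {f f' : C(X, ℂ)}
    (h : LP q m f) (h' : LP q m f') : LP q m (f * f') := by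
  obtain ⟨C, hC, h⟩ := h
  obtain ⟨C', hC', h'⟩ := h'
  refine ⟨‖f‖ * C' + C * ‖f'‖, by positivity, fun x y ρ hρ hn => ?_⟩
  have h1 := h x y ρ hρ hn
  have h2 := h' x y ρ hρ hn
  have h3 : (f * f') x - (f * f') y = f x * (f' x - f' y) + (f x - f y) * f' y := by
    rw [ContinuousMap.mul_apply, ContinuousMap.mul_apply]; ring
  rw [h3]
  calc ‖f x * (f' x - f' y) + (f x - f y) * f' y‖
      ≤ ‖f x‖ * ‖f' x - f' y‖ + ‖f x - f y‖ * ‖f' y‖ := by
        refine (norm_add_le _ _).trans ?_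
        rw [norm_mul, norm_mul]
    _ ≤ ‖f‖ * (C' * ρ) + (C * ρ) * ‖f'‖ := by
        gcongr
        · exact f.norm_coe_le_norm x
        · exact f'.norm_coe_le_norm y
    _ = (‖f‖ * C' + C * ‖f'‖) * ρ := by ring

end dyn

section cross

variable {X : Type} [TopologicalSpace X] [CompactSpace X] [MulAction Zm X]
  [ContinuousConstSMul Zm X] {B : Type} [CStarAlgebra B] {n : ℕ}
  {ι : C(X, ℂ) →⋆ₐ[ℂ] B} {u : Zm →* unitary B} {e : Fin n → Fin n → B}
  {E : Fin n → Fin n → B →L[ℂ] C(X, ℂ)}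

/-- the monomials -/
def Mo (ι : C(X, ℂ) →⋆ₐ[ℂ] B) (u : Zm →* unitary B) (e : Fin n → Fin n → B) {J : ℕ}
    (q : Fin J → C(X, ℝ)) (m R : ℕ) : Set B :=
  {b | ∃ (f : C(X, ℂ)) (k l : Fin n) (g : Zm), LP q m f ∧ g ∈ Kb R ∧ b = mon ι u e f k l g}

/-- the sums of monomials -/
def AM (ι : C(X, ℂ) →⋆ₐ[ℂ] B) (u : Zm →* unitary B) (e : Fin n → Fin n → B) {J : ℕ}
    (q : Fin J → C(X, ℝ)) (m R : ℕ) : AddSubmonoid B := AddSubmonoid.closure (Mo ι u e q m R)

theorem mem_Kb {R : ℕ} {g : Zm} : g ∈ Kb R ↔ ∃ j : ℤ, -(R : ℤ) ≤ j ∧ j ≤ R ∧ zt j = g := by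
  unfold Kb
  rw [Finset.mem_image]
  constructor
  · rintro ⟨j, hj, rfl⟩
    rw [Finset.mem_Icc] at hj
    exact ⟨j, hj.1, hj.2, rfl⟩
  · rintro ⟨j, h1, h2, rfl⟩
    exact ⟨j, Finset.mem_Icc.2 ⟨h1, h2⟩, rfl⟩

theorem inv_mem_Kb {R : ℕ} {g : Zm} (hg : g ∈ Kb R) : g⁻¹ ∈ Kb R := by
  obtain ⟨j, h1, h2, rfl⟩ := mem_Kb.1 hg
  exact mem_Kb.2 ⟨-j, by omega, by omega, rfl⟩

theorem mul_mem_Kb {R R' : ℕ} {g g' : Zm} (hg : g ∈ Kb R) (hg' : g' ∈ Kb R') :
    g * g' ∈ Kb (R + R') := by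
  obtain ⟨j, h1, h2, rfl⟩ := mem_Kb.1 hg
  obtain ⟨j', h1', h2', rfl⟩ := mem_Kb.1 hg'
  exact mem_Kb.2 ⟨j + j', by push_cast; omega, by push_cast; omega, rfl⟩

theorem AM.star (h : IsMCross ι u e E) {J : ℕ} {q : Fin J → C(X, ℝ)} {m R : ℕ} {b : B}
    (hb : b ∈ AM ι u e q m R) : star b ∈ AM ι u e q (m + R) R := by
  unfold AM at hb ⊢
  refine AddSubmonoid.closure_induction (motive := fun b _ => Star.star b ∈ AddSubmonoid.closure
    (Mo ι u e q (m + R) R)) ?_ ?_ ?_ hb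
  · rintro b ⟨f, k, l, g, hf, hg, rfl⟩
    refine AddSubmonoid.subset_closure ⟨_, l, k, g⁻¹, hf.star.comp hg, inv_mem_Kb hg, ?_⟩
    exact h.star_mon f k l g
  · rw [star_zero]; exact zero_mem _
  · intro a b _ _ ha hb
    rw [star_add]
    exact add_mem ha hb

theorem AM.mul (h : IsMCross ι u e E) {J : ℕ} {q : Fin J → C(X, ℝ)} {m m' R R' M : ℕ} {b b' : B}
    (hb : b ∈ AM ι u e q m R) (hb' : b' ∈ AM ι u e q m' R') (h1 : m ≤ M) (h2 : m' + R ≤ M) :
    b * b' ∈ AM ι u e q M (R + R') := by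
  unfold AM at hb hb' ⊢
  refine AddSubmonoid.closure_induction (motive := fun b _ => b * b' ∈ AddSubmonoid.closure
    (Mo ι u e q M (R + R'))) ?_ ?_ ?_ hb
  · rintro b ⟨f, k, l, g, hf, hg, rfl⟩
    refine AddSubmonoid.closure_induction (motive := fun b' _ => mon ι u e f k l g * b' ∈
      AddSubmonoid.closure (Mo ι u e q M (R + R'))) ?_ ?_ ?_ hb'
    · rintro b' ⟨f', k', l', g', hf', hg', rfl⟩
      rw [h.mon_mul]
      split_ifs
      · refine AddSubmonoid.subset_closure ⟨_, k, l', g * g', ?_, mul_mem_Kb hg hg', rfl⟩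
        exact (hf.mono h1).mul ((hf'.comp (inv_mem_Kb hg)).mono h2)
      · exact zero_mem _
    · rw [mul_zero]; exact zero_mem _
    · intro a b _ _ ha hb
      rw [mul_add]
      exact add_mem ha hb
  · rw [zero_mul]; exact zero_mem _
  · intro a b _ _ ha hb
    rw [add_mul]
    exact add_mem ha hb

theorem AM.prp {J : ℕ} {q : Fin J → C(X, ℝ)} {m R : ℕ} {b : B}
    (hb : b ∈ AM ι u e q m R) : Prp ι u e (Kb R) b := by
  unfold AM at hb
  refine AddSubmonoid.closure_induction (motive := fun b _ => Prp ι u e (Kb R) b) ?_ ?_ ?_ hb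
  · rintro b ⟨f, k, l, g, _, hg, rfl⟩
    exact Prp.mon hg f k l
  · exact Prp.zero
  · intro a b _ _ ha hb
    exact ha.add hb

theorem AM.qloc (h : IsMCross ι u e E) {J : ℕ} {q : Fin J → C(X, ℝ)} {m R : ℕ} {b : B}
    (hb : b ∈ AM ι u e q m R) : ∃ C : ℝ, 0 ≤ C ∧ QLoc u E q m C b := by
  classical
  unfold AM at hb
  refine AddSubmonoid.closure_induction (motive := fun b _ => ∃ C : ℝ, 0 ≤ C ∧ QLoc u E q m C b)
    ?_ ?_ ?_ hb
  · rintro b ⟨f, k, l, g, ⟨C, hC, hf⟩, hg, rfl⟩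
    refine ⟨C, hC, fun k' l' z x y ρ hρ hn => ?_⟩
    have h1 : mon ι u e f k l g * (u z : B) = mon ι u e f k l (g * z) := by
      unfold mon
      rw [mul_assoc _ (u g : B), ← u_coe_mul]
    rw [h1, h.E_mon]
    split_ifs
    · exact hf x y ρ hρ hn
    · simp only [ContinuousMap.zero_apply, sub_self, norm_zero]
      positivity
  · refine ⟨0, le_refl _, fun k l z x y ρ hρ hn => ?_⟩
    simp
  · rintro a b _ _ ⟨C, hC, ha⟩ ⟨C', hC', hb⟩
    refine ⟨C + C', add_nonneg hC hC', fun k l z x y ρ hρ hn => ?_⟩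
    have h1 := ha k l z x y ρ hρ hn
    have h2 := hb k l z x y ρ hρ hn
    rw [add_mul, map_add, ContinuousMap.add_apply, ContinuousMap.add_apply, add_sub_add_comm]
    refine (norm_add_le _ _).trans ?_
    rw [add_mul]
    exact add_le_add h1 h2

theorem QLoc.mono {J : ℕ} {q : Fin J → C(X, ℝ)} {m m' : ℕ} {C C' : ℝ} {b : B}
    (h : QLoc u E q m C b) (hC : C ≤ C') (hm : m ≤ m') : QLoc u E q m' C' b := by
  intro k l z x y ρ hρ hn
  refine (h k l z x y ρ hρ (near_mono hn (by omega) (by omega))).trans ?_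
  exact mul_le_mul_of_nonneg_right hC hρ

/-- the sum with given coefficients -/
def Sm (ι : C(X, ℂ) →⋆ₐ[ℂ] B) (u : Zm →* unitary B) (e : Fin n → Fin n → B) (R : ℕ)
    (F : Fin n × Fin n × (Kb R) → C(X, ℂ)) : B :=
  ∑ p : Fin n × Fin n × (Kb R), mon ι u e (F p) p.1 p.2.1 p.2.2

theorem Sm_cont (R : ℕ) : Continuous (Sm ι u e R) := by
  unfold Sm mon
  refine continuous_finsetSum _ fun p _ => ?_
  exact (((map_continuous ι).comp (continuous_apply p)).mul continuous_const).mul continuous_const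

theorem Sm_mem {J : ℕ} {q : Fin J → C(X, ℝ)} {m R : ℕ}
    {F : Fin n × Fin n × (Kb R) → C(X, ℂ)} (hF : ∀ p, LP q m (F p)) :
    Sm ι u e R F ∈ AM ι u e q m R := by
  unfold Sm
  refine sum_mem fun p _ => ?_
  exact AddSubmonoid.subset_closure ⟨_, _, _, _, hF p, p.2.2.2, rfl⟩

theorem exists_Sm {R : ℕ} {b : B} (hb : Prp ι u e (Kb R) b) :
    ∃ F : Fin n × Fin n × (Kb R) → C(X, ℂ), b = Sm ι u e R F := by
  obtain ⟨f, rfl⟩ := hb
  refine ⟨fun p => f p.1 p.2.1 p.2.2, ?_⟩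
  unfold Sm mon
  rw [Fintype.sum_prod_type]
  simp only [Fintype.sum_prod_type]
  rw [← Finset.sum_coe_sort (Kb R), Finset.sum_comm]
  refine Finset.sum_congr rfl fun k _ => ?_
  rw [Finset.sum_comm]

theorem Kb_mono {R R' : ℕ} (h : R ≤ R') : Kb R ⊆ Kb R' := by
  intro g hg
  obtain ⟨j, h1, h2, rfl⟩ := mem_Kb.1 hg
  exact mem_Kb.2 ⟨j, by omega, by omega, rfl⟩

theorem exists_Kb (K : Finset Zm) : ∃ R : ℕ, K ⊆ Kb R := by
  classical
  induction K using Finset.induction_on with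
  | empty => exact ⟨0, by simp⟩
  | insert g K _ ih =>
    obtain ⟨R, hR⟩ := ih
    refine ⟨max R (Multiplicative.toAdd g).natAbs, ?_⟩
    intro z hz
    rw [Finset.mem_insert] at hz
    rcases hz with rfl | hz
    · refine mem_Kb.2 ⟨Multiplicative.toAdd z, ?_, ?_, rfl⟩
      · have := le_max_right R (Multiplicative.toAdd z).natAbs
        omega
      · have := le_max_right R (Multiplicative.toAdd z).natAbs
        omega
    · exact Kb_mono (le_max_left _ _) (hR hz)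

/-- density, with finite propagation -/
theorem exists_prp (h : IsMCross ι u e E) (b : B) {U : Set B} (hU : IsOpen U) (hb : b ∈ U) :
    ∃ (R : ℕ) (b' : B), Prp ι u e (Kb R) b' ∧ b' ∈ U := by
  classical
  obtain ⟨c, hc⟩ := h.dense.exists_mem_open hU ⟨b, hb⟩
  obtain ⟨R, hR⟩ := exists_Kb (c.support.image fun p => p.2.2)
  refine ⟨R, _, ?_, hc⟩
  show Prp ι u e (Kb R) (∑ p ∈ c.support, ι (c p) * e p.1 p.2.1 * (u p.2.2 : B))
  have hs : ∀ (s : Finset (Fin n × Fin n × Zm)), (∀ p ∈ s, p.2.2 ∈ Kb R) →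
      Prp ι u e (Kb R) (∑ p ∈ s, ι (c p) * e p.1 p.2.1 * (u p.2.2 : B)) := by
    intro s hs
    induction s using Finset.induction_on with
    | empty => rw [Finset.sum_empty]; exact Prp.zero
    | insert p s hp ih =>
      rw [Finset.sum_insert hp]
      exact (Prp.mon (hs p (Finset.mem_insert_self _ _)) _ _ _).add
        (ih fun q hq => hs q (Finset.mem_insert_of_mem hq))
  exact hs _ fun p hp => hR (Finset.mem_image_of_mem _ hp)

end cross

theorem s_APP : Pool.Agent.H252.MD.S_APP := by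
  intro X _ _ _ _ B _ _ _ n ι u e E h D hD a b κ ha hb hκ
  -- square roots
  obtain ⟨a₀, ha₀⟩ := CStarAlgebra.nonneg_iff_eq_star_mul_self.1 ha
  obtain ⟨b₀, hb₀⟩ := CStarAlgebra.nonneg_iff_eq_star_mul_self.1 hb
  have hsq : Continuous fun x : B => star x * x := continuous_star.mul continuous_id
  have hU : ∀ c : B, IsOpen {x : B | ‖star x * x - c‖ < κ / 2} := fun c =>
    isOpen_lt (hsq.sub continuous_const).norm continuous_const
  obtain ⟨Ra, a₁, hPa, hUa⟩ := exists_prp h a₀ (hU a) (by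
    show ‖star a₀ * a₀ - a‖ < κ / 2
    rw [← ha₀, sub_self, norm_zero]; positivity)
  obtain ⟨Rb, b₁, hPb, hUb⟩ := exists_prp h b₀ (hU b) (by
    show ‖star b₀ * b₀ - b‖ < κ / 2
    rw [← hb₀, sub_self, norm_zero]; positivity)
  set R := max Ra Rb with hR
  obtain ⟨Fa, rfl⟩ := exists_Sm (hPa.mono (Kb_mono (le_max_left Ra Rb)))
  obtain ⟨Fb, rfl⟩ := exists_Sm (hPb.mono (Kb_mono (le_max_right Ra Rb)))
  -- continuity in the coefficients
  have hc : Continuous fun F : Fin n × Fin n × (Kb R) → C(X, ℂ) =>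
      star (Sm ι u e R F) * Sm ι u e R F := hsq.comp (Sm_cont R)
  obtain ⟨εa, hεa, hFa⟩ := Metric.continuous_iff.1 hc Fa (κ / 2) (by positivity)
  obtain ⟨εb, hεb, hFb⟩ := Metric.continuous_iff.1 hc Fb (κ / 2) (by positivity)
  set ε := min εa εb / 2 with hε
  have hε0 : 0 < ε := by rw [hε]; positivity
  have hεa' : ε < εa := by
    rw [hε]; have := min_le_left εa εb; linarith
  have hεb' : ε < εb := by
    rw [hε]; have := min_le_right εa εb; linarith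
  obtain ⟨J, q, hq, n₀, C, hC, g, hg, hg'⟩ := locApp_fin hD
    (Bool × (Fin n × Fin n × (Kb R))) (fun p => if p.1 = true then Fa p.2 else Fb p.2) ε hε0
  have hLP : ∀ p, LP q n₀ (g p) := fun p => ⟨C, hC, fun x y ρ hρ hn => hg' p x y ρ hρ hn⟩
  have hda : ‖star (Sm ι u e R fun p => g (true, p)) * Sm ι u e R (fun p => g (true, p)) -
      star (Sm ι u e R Fa) * Sm ι u e R Fa‖ < κ / 2 := by
    rw [← dist_eq_norm]
    refine hFa _ (lt_of_le_of_lt ?_ hεa')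
    refine (dist_pi_le_iff hε0.le).2 fun p => ?_
    rw [dist_eq_norm]
    refine (ContinuousMap.norm_le _ hε0.le).2 fun x => ?_
    have := hg (true, p) x
    simpa using this
  have hdb : ‖star (Sm ι u e R fun p => g (false, p)) * Sm ι u e R (fun p => g (false, p)) -
      star (Sm ι u e R Fb) * Sm ι u e R Fb‖ < κ / 2 := by
    rw [← dist_eq_norm]
    refine hFb _ (lt_of_le_of_lt ?_ hεb')
    refine (dist_pi_le_iff hε0.le).2 fun p => ?_
    rw [dist_eq_norm]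
    refine (ContinuousMap.norm_le _ hε0.le).2 fun x => ?_
    have := hg (false, p) x
    simpa using this
  have hAa : Sm ι u e R (fun p => g (true, p)) ∈ AM ι u e q n₀ R := Sm_mem fun p => hLP _
  have hAb : Sm ι u e R (fun p => g (false, p)) ∈ AM ι u e q n₀ R := Sm_mem fun p => hLP _
  have hMa := AM.mul h (AM.star h hAa) hAa (le_refl _) (le_refl _)
  have hMb := AM.mul h (AM.star h hAb) hAb (le_refl _) (le_refl _)
  obtain ⟨Ca, hCa, hQa⟩ := AM.qloc h hMa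
  obtain ⟨Cb, hCb, hQb⟩ := AM.qloc h hMb
  refine ⟨_, _, R + R, star_mul_self_nonneg _, star_mul_self_nonneg _, AM.prp hMa, AM.prp hMb,
    ?_, ?_, J, q, hq, n₀ + R, max Ca Cb, le_max_of_le_left hCa, QLoc.mono hQa (le_max_left _ _)
    (le_refl _), QLoc.mono hQb (le_max_right _ _) (le_refl _)⟩
  · have h1 : ‖star (Sm ι u e R Fa) * Sm ι u e R Fa - a‖ < κ / 2 := hUa
    rw [norm_sub_rev]
    refine (norm_sub_le_norm_sub_add_norm_sub _ (star (Sm ι u e R Fa) * Sm ι u e R Fa) _).trans ?_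
    linarith
  · have h1 : ‖star (Sm ι u e R Fb) * Sm ι u e R Fb - b‖ < κ / 2 := hUb
    rw [norm_sub_rev]
    refine (norm_sub_le_norm_sub_add_norm_sub _ (star (Sm ι u e R Fb) * Sm ι u e R Fb) _).trans ?_
    linarith

end

end Pool.Agent.H196.MDAPP
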