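import Pool.Agent.H465.OC.StmB
import Pool.Graph.R_pool_sql_team_seeded_3997aac3.Q279.Pack.Basic
import Pool.Graph.R_pool_sql_team_seeded_3997aac3.Q279.SC.J.COUNT

/-!
# Project OC, task B15 for `p = 13` (helper196 for helper465)
-/

set_option autoImplicit false

namespace Pool.Agent.H196.OCSmall13

open Pool.Agent.Q279.SC Q279.Pack

/-! ## The packed computation -/

/-- packed `∑ σ_3(n) q^n` -/
@[irreducible] noncomputable def ka : ℕ := red 64 169 8 (sieve (fun d => Nat.pow d 3) 64 8)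

/-- packed `∑ σ_5(n) q^n` -/
@[irreducible] noncomputable def kb : ℕ := red 64 169 8 (sieve (fun d => Nat.pow d 5) 64 8)

/-- `E_4` -/
@[irreducible] noncomputable def k4 : ℕ :=
  red 64 169 8 (Nat.add 1 (Nat.add (Nat.mul 240 ka) (Nat.mul 0 ka)))

/-- `E_6` -/
@[irreducible] noncomputable def k6 : ℕ :=
  red 64 169 8 (Nat.add 1 (Nat.add (Nat.mul 3 kb) (Nat.mul 0 kb)))

@[irreducible] noncomputable def k4s : ℕ := red 64 169 8 (Nat.mul k4 k4)
@[irreducible] noncomputable def k4c : ℕ := red 64 169 8 (Nat.mul k4s k4)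
@[irreducible] noncomputable def k6s : ℕ := red 64 169 8 (Nat.mul k6 k6)

/-- `Δ`, using the inverse `129` of `1728` -/
@[irreducible] noncomputable def kd : ℕ := red 64 169 8
  (Nat.add 0 (Nat.add (Nat.mul 129 k4c) (Nat.mul 40 k6s)))

@[irreducible] noncomputable def kf0 : ℕ := red 64 169 8 (Nat.mul k4 kd)

/-- `T = E_4^3 - n Δ` -/
@[irreducible] noncomputable def kt (n : ℕ) : ℕ := red 64 169 8
  (Nat.add 0 (Nat.add (Nat.mul 1 k4c) (Nat.mul (Nat.sub 169 n) kd)))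

/-- `1 - T` -/
@[irreducible] noncomputable def kv (n : ℕ) : ℕ := red 64 169 8
  (Nat.add 1 (Nat.add (Nat.mul 168 (kt n)) (Nat.mul 0 (kt n))))

noncomputable def inr (k : ℕ) : ℕ → ℕ → ℕ :=
  Nat.rec (motive := fun _ => ℕ → ℕ → ℕ) (fun _ G => G)
    (fun _ ih V G => ih (red 64 169 8 (Nat.mul V V)) (red 64 169 8 (Nat.mul G (Nat.add 1 V)))) k

/-- the inverse of `T` -/
@[irreducible] noncomputable def kg (n : ℕ) : ℕ := red 64 169 8 (inr 8 (kv n) 1)

@[irreducible] noncomputable def kf (n : ℕ) : ℕ := red 64 169 8 (Nat.mul kf0 (kg n))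

noncomputable def dg (x i : ℕ) : ℕ := Nat.mod (Nat.div x (Nat.pow 2 (Nat.mul 64 i))) (Nat.pow 2 64)

/-- the check for `n` -/
noncomputable def ck (n a b : ℕ) : Bool :=
  Nat.beq (red 64 169 8 (Nat.mul (kt n) (kg n))) 1 &&
    (Nat.beq (dg (kf n) 13) a && Nat.beq (dg (kf n) 169) b)

theorem chk : (ck 1 10 100 && (ck 2 105 79 && (ck 3 116 53 && (ck 4 95 107 && (ck 5 0 0 &&
    (ck 6 108 159 && (ck 7 159 100 && (ck 8 165 68 && (ck 9 27 1 && (ck 10 159 100 &&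
    (ck 11 4 81 && ck 12 13 0))))))))))) = true := by decide +kernel

/-! ## Correctness of the packed computation -/

section
open PowerSeries

/-- reduction modulo `169` -/
noncomputable abbrev rm : ℤ⟦X⟧ →+* (ZMod 169)⟦X⟧ := PowerSeries.map (Int.castRingHom (ZMod 169))

theorem hM0 : 0 < 169 := by norm_num

theorem M_zero : (169 : (ZMod 169)⟦X⟧) = 0 := by
  have h1 : (169 : ZMod 169) = 0 := by
    have := ZMod.natCast_self 169
    exact_mod_cast this
  have h := congrArg (C (R := ZMod 169)) h1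
  rwa [map_zero, map_ofNat] at h

theorem C_num (n : ℕ) : (C (n : ZMod 169) : (ZMod 169)⟦X⟧) = (n : (ZMod 169)⟦X⟧) := map_natCast C n

/-- transport along an equality -/
theorem cast {x : ℕ} {F G : (ZMod 169)⟦X⟧} (h : Rep 64 169 8 x F) (e : F = G) :
    Rep 64 169 8 x G := e ▸ h

theorem twelve_aux : ∀ x : ZMod 12, 5 * x ^ 3 + 7 * x ^ 5 = 0 := by decide

theorem twelve_dvd (d : ℤ) : (12 : ℤ) ∣ 5 * d ^ 3 + 7 * d ^ 5 := by
  have h := twelve_aux (d : ZMod 12)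
  have h2 : ((5 * d ^ 3 + 7 * d ^ 5 : ℤ) : ZMod 12) = 0 := by
    push_cast
    exact h
  exact (ZMod.intCast_zmod_eq_zero_iff_dvd _ 12).1 h2

theorem twelve_Q : 12 * zQ = 5 * zA + 7 * zB := by
  ext n
  have e12 : (12 : ℤ⟦X⟧) = C 12 := (map_ofNat C 12).symm
  have e5 : (5 : ℤ⟦X⟧) = C 5 := (map_ofNat C 5).symm
  have e7 : (7 : ℤ⟦X⟧) = C 7 := (map_ofNat C 7).symm
  rw [e12, e5, e7, map_add, coeff_C_mul, coeff_C_mul, coeff_C_mul, zQ, zA, zB, coeff_mk, coeff_mk,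
    coeff_mk]
  push_cast
  rw [Finset.mul_sum, Finset.mul_sum, Finset.mul_sum, ← Finset.sum_add_distrib]
  refine Finset.sum_congr rfl fun d _ => ?_
  exact Int.mul_ediv_cancel' (twelve_dvd d)

theorem disc : 1728 * zD = z4 ^ 3 - z6 ^ 2 := by
  have h := twelve_Q
  unfold zD z4 z6
  linear_combination 144 * h

theorem const_A : constantCoeff zA = 0 := by
  rw [← coeff_zero_eq_constantCoeff_apply, zA, coeff_mk]; simp

theorem const_B : constantCoeff zB = 0 := by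
  rw [← coeff_zero_eq_constantCoeff_apply, zB, coeff_mk]; simp

theorem const_Q : constantCoeff zQ = 0 := by
  rw [← coeff_zero_eq_constantCoeff_apply, zQ, coeff_mk]; simp

theorem const_D : constantCoeff zD = 0 := by
  unfold zD
  simp [const_A, const_B, const_Q]

theorem X_zd : X * zd = zD := by
  ext n
  cases n with
  | zero =>
    rw [coeff_zero_X_mul, coeff_zero_eq_constantCoeff_apply, const_D]
  | succ n => rw [coeff_succ_X_mul, zd, coeff_mk]

theorem rA : Rep 64 169 8 ka (rm zA) := by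
  unfold ka
  have h := WRep_sieve (b := 64) (M := 169) (K := 8) (fun d => Nat.pow d 3) (by norm_num) (by rfl)
    (by
      intro d hd
      have h1 : d ^ 3 ≤ (2 ^ 8) ^ 3 := Nat.pow_le_pow_left hd.le 3
      change d ^ 3 * 2 ^ 8 < 2 ^ 64
      calc d ^ 3 * 2 ^ 8 ≤ (2 ^ 8) ^ 3 * 2 ^ 8 := Nat.mul_le_mul_right _ h1
        _ < 2 ^ 64 := by norm_num)
  have h2 := h.red hM0
  have h3 : (mk fun n => ((∑ d ∈ n.divisors, Nat.pow d 3 : ℕ) : ZMod 169)) = rm zA := by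
    ext n
    rw [coeff_mk, coeff_map, zA, coeff_mk]
    simp
  rw [h3] at h2
  exact h2

theorem rB : Rep 64 169 8 kb (rm zB) := by
  unfold kb
  have h := WRep_sieve (b := 64) (M := 169) (K := 8) (fun d => Nat.pow d 5) (by norm_num) (by rfl)
    (by
      intro d hd
      have h1 : d ^ 5 ≤ (2 ^ 8) ^ 5 := Nat.pow_le_pow_left hd.le 5
      change d ^ 5 * 2 ^ 8 < 2 ^ 64
      calc d ^ 5 * 2 ^ 8 ≤ (2 ^ 8) ^ 5 * 2 ^ 8 := Nat.mul_le_mul_right _ h1
        _ < 2 ^ 64 := by norm_num)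
  have h2 := h.red hM0
  have h3 : (mk fun n => ((∑ d ∈ n.divisors, Nat.pow d 5 : ℕ) : ZMod 169)) = rm zB := by
    ext n
    rw [coeff_mk, coeff_map, zB, coeff_mk]
    simp
  rw [h3] at h2
  exact h2

theorem r4 : Rep 64 169 8 k4 (rm z4) := by
  have h0 := (WRep_lin 1 240 0 (by norm_num) (by norm_num) hM0 rA rA).red hM0
  unfold k4
  refine cast h0 ?_
  rw [C_num, C_num, C_num]
  unfold z4
  rw [map_add, map_mul, map_one, map_ofNat]
  push_cast
  ring

theorem r6 : Rep 64 169 8 k6 (rm z6) := by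
  have h0 := (WRep_lin 1 3 0 (by norm_num) (by norm_num) hM0 rB rB).red hM0
  unfold k6
  refine cast h0 ?_
  rw [C_num, C_num, C_num]
  unfold z6
  rw [map_sub, map_mul, map_one, map_ofNat]
  push_cast
  linear_combination 3 * rm zB * M_zero

theorem hbM : 2 ^ 8 * (169 * 169) ≤ 2 ^ 64 := by norm_num

theorem r4s : Rep 64 169 8 k4s (rm z4 * rm z4) := by
  unfold k4s; exact (WRep_mul hM0 hbM r4 r4).red hM0
theorem r4c : Rep 64 169 8 k4c (rm z4 * rm z4 * rm z4) := by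
  unfold k4c; exact (WRep_mul hM0 hbM r4s r4).red hM0
theorem r6s : Rep 64 169 8 k6s (rm z6 * rm z6) := by
  unfold k6s; exact (WRep_mul hM0 hbM r6 r6).red hM0

theorem rD : Rep 64 169 8 kd (rm zD) := by
  have h0 := (WRep_lin 0 129 40 (by norm_num) (by norm_num) hM0 r4c r6s).red hM0
  unfold kd
  refine cast h0 ?_
  rw [C_num, C_num, C_num]
  have h := congrArg rm disc
  rw [map_mul, map_sub, map_pow, map_pow, map_ofNat] at h
  push_cast
  linear_combination (-129) * h + (1319 * rm zD + rm z6 ^ 2) * M_zero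

theorem rF : Rep 64 169 8 kf0 (rm z4 * rm zD) := by
  unfold kf0; exact (WRep_mul hM0 hbM r4 rD).red hM0

theorem rT (n : ℕ) (hn : n ≤ 169) : Rep 64 169 8 (kt n) (rm z4 ^ 3 - (n : (ZMod 169)⟦X⟧) * rm zD) := by
  have h0 := (WRep_lin 0 1 (169 - n) (by
    have : (1 + (169 - n)) * 169 ≤ 170 * 169 := Nat.mul_le_mul_right _ (by omega)
    calc 0 + (1 + (169 - n)) * 169 ≤ 170 * 169 := by omega
      _ ≤ 2 ^ 64 := by norm_num) (by omega) hM0 r4c rD).red hM0
  unfold kt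
  refine cast h0 ?_
  rw [C_num, C_num, C_num, Nat.cast_sub hn]
  push_cast
  linear_combination rm zD * M_zero

/-- division of power series modulo `X ^ N` -/
theorem coeff_of_inv {R : Type} [CommRing R] {Ψ T G F : R⟦X⟧} (h : Ψ * T = F) {N : ℕ}
    (hTG : ∀ i < N, coeff i (T * G) = coeff i (1 : R⟦X⟧)) {i : ℕ} (hi : i < N) :
    coeff i Ψ = coeff i (F * G) := by
  have h1 : F * G = Ψ * (T * G) := by rw [← h, mul_assoc]
  rw [h1, coeff_mul]
  have h2 : coeff i Ψ = coeff i (Ψ * 1) := by rw [mul_one]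
  rw [h2, coeff_mul]
  refine Finset.sum_congr rfl fun q hq => ?_
  rw [Finset.HasAntidiagonal.mem_antidiagonal] at hq
  rw [hTG q.2 (by omega)]

theorem digits (n a b : ℕ) (hn : n ≤ 169) (hck : ck n a b = true) (Φ : ℤ⟦X⟧)
    (hΦ : Φ * (z4 ^ 3 - (n : ℤ⟦X⟧) * zD) = z4 * zd) :
    ((coeff 12 Φ : ℤ) : ZMod 169) = (a : ZMod 169) ∧
      ((coeff 168 Φ : ℤ) : ZMod 169) = (b : ZMod 169) := by
  unfold ck at hck
  rw [Bool.and_eq_true, Bool.and_eq_true] at hck
  obtain ⟨h1, h2, h3⟩ := hck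
  have h1' := Nat.eq_of_beq_eq_true h1
  have h2' := Nat.eq_of_beq_eq_true h2
  have h3' := Nat.eq_of_beq_eq_true h3
  obtain ⟨G, hG⟩ := exists_Rep (b := 64) (K := 8) hM0 (inr 8 (kv n) 1)
  have hG' : Rep 64 169 8 (kg n) G := by unfold kg; exact hG
  have hTG := (WRep_mul hM0 hbM (rT n hn) hG').red hM0
  rw [h1'] at hTG
  have hFG : Rep 64 169 8 (kf n) (rm z4 * rm zD * G) := by
    unfold kf; exact (WRep_mul hM0 hbM rF hG').red hM0
  have hΨ : (X * rm Φ) * (rm z4 ^ 3 - (n : (ZMod 169)⟦X⟧) * rm zD) = rm z4 * rm zD := by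
    have h := congrArg rm hΦ
    rw [map_mul, map_sub, map_pow, map_mul, map_mul, map_natCast] at h
    have h4 := congrArg rm X_zd
    rw [map_mul, PowerSeries.map_X] at h4
    linear_combination X * h + rm z4 * h4
  have key : ∀ i, i + 1 < 2 ^ 8 → ((coeff i Φ : ℤ) : ZMod 169) = ((dg (kf n) (i + 1) : ℕ) : ZMod 169) := by
    intro i hi
    have e1 : ((coeff i Φ : ℤ) : ZMod 169) = coeff (i + 1) (X * rm Φ) := by
      rw [coeff_succ_X_mul, coeff_map]
      rfl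
    rw [e1, coeff_of_inv hΨ (fun j hj => hTG.coeff_eq (by norm_num) (Rep_one (by norm_num)) hj) hi]
    exact hFG.digit (by norm_num) hi
  exact ⟨by rw [key 12 (by norm_num), h2'], by rw [key 168 (by norm_num), h3']⟩

end

/-! ## The number of points -/

instance : Fact (Nat.Prime 13) := ⟨by norm_num⟩

/-- the number of the square roots -/
def rt (v : ZMod 13) : ℕ := (Finset.univ.filter (fun y : ZMod 13 => y ^ 2 = v)).card

/-- the number of the affine points of `y^2 = x^3 - 27 a x - 54 b` -/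
def NN (a b : ZMod 13) : ℕ := ∑ x : ZMod 13, rt (x ^ 3 - 27 * a * x - 54 * b)

/-- the number of `y` for one `x` -/
theorem card_y (b c : ZMod 13) :
    Nat.card {y : ZMod 13 // y ^ 2 + b * y = c} = rt (108 ^ 2 * (b ^ 2 + 4 * c)) := by
  have h2 : (2 : ZMod 13) ≠ 0 := by decide
  have h108 : (108 : ZMod 13) ≠ 0 := by decide
  have e : {y : ZMod 13 // y ^ 2 + b * y = c} ≃
      {z : ZMod 13 // z ^ 2 = 108 ^ 2 * (b ^ 2 + 4 * c)} :=
    { toFun := fun y => ⟨108 * (2 * y.1 + b), by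
        have := y.2
        linear_combination 46656 * this⟩
      invFun := fun z => ⟨(z.1 / 108 - b) / 2, by
        have := z.2
        field_simp
        linear_combination this⟩
      left_inv := fun y => by
        apply Subtype.ext
        simp only
        field_simp
        ring
      right_inv := fun z => by
        apply Subtype.ext
        simp only
        field_simp
        ring }
  rw [Nat.card_congr e, Nat.card_eq_fintype_card, Fintype.card_subtype]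
  rfl

theorem card_aff (V : WeierstrassCurve (ZMod 13)) :
    Nat.card {xy : ZMod 13 × ZMod 13 // xy.2 ^ 2 + V.a₁ * xy.1 * xy.2 +
      V.a₃ * xy.2 = xy.1 ^ 3 + V.a₂ * xy.1 ^ 2 + V.a₄ * xy.1 + V.a₆} = NN V.c₄ V.c₆ := by
  have e : {xy : ZMod 13 × ZMod 13 // xy.2 ^ 2 + V.a₁ * xy.1 * xy.2 +
      V.a₃ * xy.2 = xy.1 ^ 3 + V.a₂ * xy.1 ^ 2 + V.a₄ * xy.1 + V.a₆} ≃
      Σ x : ZMod 13, {y : ZMod 13 // y ^ 2 + (V.a₁ * x + V.a₃) * y =
        x ^ 3 + V.a₂ * x ^ 2 + V.a₄ * x + V.a₆} :=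
    { toFun := fun P => ⟨P.1.1, P.1.2, by
        have := P.2
        linear_combination this⟩
      invFun := fun P => ⟨(P.1, P.2.1), by
        have := P.2.2
        simp only
        linear_combination this⟩
      left_inv := fun P => rfl
      right_inv := fun P => rfl }
  rw [Nat.card_congr e, Nat.card_sigma]
  have h1 : ∀ x : ZMod 13, Nat.card {y : ZMod 13 // y ^ 2 + (V.a₁ * x + V.a₃) * y =
      x ^ 3 + V.a₂ * x ^ 2 + V.a₄ * x + V.a₆} =
      (fun u : ZMod 13 => rt (u ^ 3 - 27 * V.c₄ * u - 54 * V.c₆)) (36 * x + 3 * V.b₂) := by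
    intro x
    rw [card_y]
    dsimp only
    congr 1
    unfold WeierstrassCurve.c₄ WeierstrassCurve.c₆ WeierstrassCurve.b₂ WeierstrassCurve.b₄
      WeierstrassCurve.b₆
    ring
  rw [Finset.sum_congr rfl fun x _ => h1 x]
  have h36 : (36 : ZMod 13) ≠ 0 := by decide
  have hb : Function.Bijective (fun x : ZMod 13 => 36 * x + 3 * V.b₂) := by
    rw [Fintype.bijective_iff_injective_and_card]
    refine ⟨fun x y hxy => ?_, rfl⟩
    simp only [add_left_inj] at hxy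
    exact mul_left_cancel₀ h36 hxy
  exact Function.Bijective.sum_comp hb
    (fun u : ZMod 13 => rt (u ^ 3 - 27 * V.c₄ * u - 54 * V.c₆))

/-- the table of `a_p^2` -/
def ss (n : ℕ) : ℕ := [0, 36, 1, 25, 4, 0, 4, 16, 9, 1, 16, 4, 0].getD n 0

set_option maxRecDepth 100000 in
theorem tab : ∀ a b : ZMod 13, a ≠ 0 → b ≠ 0 → a ^ 3 - b ^ 2 ≠ 0 → ∀ n : ZMod 13,
    n * (a ^ 3 - b ^ 2) = 1728 * a ^ 3 →
      NN a b % 13 = 0 ∨ (n ≠ 5 ∧ n ≠ 12 ∧ n ≠ 0 ∧
        ((13 : ℤ) - NN a b) ^ 2 = (ss n.val : ℕ)) := by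
  decide +kernel

/-- the coefficients -/
def PA (n : ℕ) : ℕ := [0, 10, 105, 116, 95, 0, 108, 159, 165, 27, 159, 4, 13].getD n 0
def PB (n : ℕ) : ℕ := [0, 100, 79, 53, 107, 0, 159, 100, 68, 1, 100, 81, 0].getD n 0

theorem ckn (n : ℕ) (h0 : 0 < n) (h1 : n < 13) : ck n (PA n) (PB n) = true := by
  have h := chk
  simp only [Bool.and_eq_true] at h
  obtain ⟨c1, c2, c3, c4, c5, c6, c7, c8, c9, c10, c11, c12⟩ := h
  interval_cases n
  · exact c1
  · exact c2
  · exact c3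
  · exact c4
  · exact c5
  · exact c6
  · exact c7
  · exact c8
  · exact c9
  · exact c10
  · exact c11
  · exact c12

theorem tst : ∀ n : Fin 13, ∀ k : Fin 15, (n : ℕ) ≠ 0 → (n : ℕ) ≠ 5 → (n : ℕ) ≠ 12 →
    ¬ (13 : ℤ) ∣ (k : ℤ) - 7 →
    (169 : ℤ) ∣ (((k : ℤ) - 7) ^ 2 - 26) * (PA n : ℤ) - (PB n : ℤ) →
      ((k : ℤ) - 7) ^ 2 = (ss n : ℤ) := by
  decide +kernel

theorem main : Pool.Agent.H465.OC.Small 13 := by
  intro W hD h4 h6 hap n hn0 hn13 hn Φ hΦ t ht htp hdv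
  -- the coefficients
  have hq4 : q4 ℤ = z4 := by
    unfold q4
    ext i
    simp
  have hqD : qD ℤ = zD := by
    unfold qD
    ext i
    simp
  have hqd : qd ℤ = zd := by
    unfold qd
    ext i
    simp
  have hC : (PowerSeries.C (n : ℤ) : PowerSeries ℤ) = (n : PowerSeries ℤ) :=
    map_natCast PowerSeries.C n
  rw [hq4, hqD, hqd, hC] at hΦ
  obtain ⟨hA, hB⟩ := digits n (PA n) (PB n) (by omega) (ckn n hn0 hn13) Φ hΦ
  have e12 : (13 : ℕ) - 1 = 12 := rfl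
  have e168 : (13 : ℕ) ^ 2 - 1 = 168 := rfl
  rw [e12, e168] at hdv
  -- the invariants
  have hVD : (((W.Δ : ℤ)) : ZMod 13) ≠ 0 := by
    intro h
    exact hD ((ZMod.intCast_zmod_eq_zero_iff_dvd _ 13).1 h)
  have hV4 : (((W.c₄ : ℤ)) : ZMod 13) ≠ 0 := by
    intro h
    exact h4 ((ZMod.intCast_zmod_eq_zero_iff_dvd _ 13).1 h)
  have hV6 : (((W.c₆ : ℤ)) : ZMod 13) ≠ 0 := by
    intro h
    exact h6 ((ZMod.intCast_zmod_eq_zero_iff_dvd _ 13).1 h)
  have hrel : (1728 : ZMod 13) * ((W.Δ : ℤ) : ZMod 13) =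
      ((W.c₄ : ℤ) : ZMod 13) ^ 3 - ((W.c₆ : ℤ) : ZMod 13) ^ 2 := by
    have h := congrArg (fun x : ℤ => (x : ZMod 13)) W.c_relation
    push_cast at h
    exact h
  have h1728 : (1728 : ZMod 13) ≠ 0 := by decide
  have hne : ((W.c₄ : ℤ) : ZMod 13) ^ 3 - ((W.c₆ : ℤ) : ZMod 13) ^ 2 ≠ 0 := by
    rw [← hrel]
    exact mul_ne_zero h1728 hVD
  have hnn : (n : ZMod 13) * (((W.c₄ : ℤ) : ZMod 13) ^ 3 - ((W.c₆ : ℤ) : ZMod 13) ^ 2) =
      1728 * ((W.c₄ : ℤ) : ZMod 13) ^ 3 := by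
    have h := (ZMod.intCast_zmod_eq_zero_iff_dvd _ 13).2 hn
    push_cast at h
    rw [← hrel]
    linear_combination 1728 * h
  -- the number of points
  have hapN : ap W 13 = 13 - (NN ((W.c₄ : ℤ) : ZMod 13) ((W.c₆ : ℤ) : ZMod 13) : ℤ) := by
    obtain ⟨V, hV⟩ : ∃ V, V = W.map (Int.castRingHom (ZMod 13)) := ⟨_, rfl⟩
    have hVD' : V.Δ ≠ 0 := by
      rw [hV, WeierstrassCurve.map_Δ]
      exact hVD
    have hc4 : ((W.c₄ : ℤ) : ZMod 13) = V.c₄ := by
      rw [hV, WeierstrassCurve.map_c₄]; rfl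
    have hc6 : ((W.c₆ : ℤ) : ZMod 13) = V.c₆ := by
      rw [hV, WeierstrassCurve.map_c₆]; rfl
    unfold ap
    rw [← hV, JCOUNT.card_pt V hVD', card_aff, hc4, hc6]
    push_cast
    ring
  rcases tab _ _ hV4 hV6 hne n hnn with h | ⟨hn5, hn12, -, h⟩
  · exfalso
    apply hap
    rw [hapN]
    have h1 : ((13 : ℕ) : ℤ) ∣ (NN ((W.c₄ : ℤ) : ZMod 13) ((W.c₆ : ℤ) : ZMod 13) : ℤ) :=
      Int.natCast_dvd_natCast.2 (Nat.dvd_of_mod_eq_zero h)
    exact dvd_sub (dvd_refl _) h1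
  · rw [hapN, h]
    have hnv : (n : ZMod 13).val = n := ZMod.val_cast_of_lt hn13
    rw [hnv]
    have hn5' : n ≠ 5 := by
      rintro rfl
      exact hn5 rfl
    have hn12' : n ≠ 12 := by
      rintro rfl
      exact hn12 rfl
    have ht0 : t ^ 2 < 52 := by
      have h1 := ht
      norm_num at h1
      exact h1
    have ht1 : -7 ≤ t := by nlinarith
    have ht2 : t ≤ 7 := by nlinarith
    obtain ⟨k, hk⟩ : ∃ k : Fin 15, t = (k : ℤ) - 7 := by
      refine ⟨⟨(t + 7).toNat, by omega⟩, ?_⟩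
      show t = ((t + 7).toNat : ℤ) - 7
      rw [Int.toNat_of_nonneg (by omega)]
      ring
    have h169 : (169 : ℤ) ∣ (t ^ 2 - 26) * (PA n : ℤ) - (PB n : ℤ) := by
      have h1 := (ZMod.intCast_zmod_eq_zero_iff_dvd _ 169).2 (show ((169 : ℕ) : ℤ) ∣ _ from hdv)
      push_cast at h1
      have h2 : (((t ^ 2 - 26) * (PA n : ℤ) - (PB n : ℤ) : ℤ) : ZMod 169) = 0 := by
        push_cast
        rw [← hA, ← hB]
        linear_combination h1
      exact (ZMod.intCast_zmod_eq_zero_iff_dvd _ 169).1 h2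
    rw [hk] at h169 htp ⊢
    exact tst ⟨n, hn13⟩ k hn0.ne' hn5' hn12' htp h169

end Pool.Agent.H196.OCSmall13
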