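import Mathlib

/-!
A Lipschitz map `Φ : ℝ × X → ℝ` close to the first coordinate which is, off a closed set `S` all
of whose connected subsets have constant second coordinate, locally independent of the first
coordinate.
-/

set_option autoImplicit false

open Set Filter Topology Metric

namespace Pool.Agent.H196

/-- the staircase with steps at the integers: flat on `[m, m + t]` -/
noncomputable def stair (t y : ℝ) : ℝ := ⌊y⌋ + max 0 ((Int.fract y - t) / (1 - t))

lemma stair_nonneg {t y : ℝ} : (⌊y⌋ : ℝ) ≤ stair t y := by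
  unfold stair
  linarith [le_max_left (0:ℝ) ((Int.fract y - t) / (1 - t))]

lemma stair_le {t y : ℝ} (_ht : 0 < t) (ht1 : t < 1) :
    stair t y - ⌊y⌋ ≤ (y - ⌊y⌋) / (1 - t) := by
  unfold stair
  have h0 := Int.fract_nonneg y
  have h1 : y - ⌊y⌋ = Int.fract y := Int.self_sub_floor y
  have h2 : 0 < 1 - t := by linarith
  rw [add_sub_cancel_left, h1]
  refine max_le (by positivity) ?_
  gcongr
  linarith

lemma stair_ge {t y : ℝ} (ht : 0 < t) (ht1 : t < 1) :
    ⌊y⌋ + 1 - stair t y ≤ (⌊y⌋ + 1 - y) / (1 - t) := by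
  unfold stair
  have h0 := Int.fract_nonneg y
  have h1 : y = ⌊y⌋ + Int.fract y := (Int.floor_add_fract y).symm
  have h2 : 0 < 1 - t := by linarith
  have h3 : (⌊y⌋ : ℝ) + 1 - y = 1 - Int.fract y := by linarith
  rw [h3]
  have h4 : (Int.fract y - t) / (1 - t) = 1 - (1 - Int.fract y) / (1 - t) := by
    field_simp
    ring
  have h5 := le_max_right (0:ℝ) ((Int.fract y - t) / (1 - t))
  linarith

lemma stair_lt_one {t y : ℝ} (ht1 : t < 1) : stair t y ≤ ⌊y⌋ + 1 := by
  unfold stair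
  have h2 : 0 < 1 - t := by linarith
  have : max 0 ((Int.fract y - t) / (1 - t)) ≤ 1 := by
    refine max_le zero_le_one ?_
    rw [div_le_one h2]
    linarith [Int.fract_lt_one y]
  linarith

lemma stair_mono_aux {t y z : ℝ} (ht : 0 < t) (ht1 : t < 1) (hyz : y ≤ z) :
    0 ≤ stair t z - stair t y ∧ stair t z - stair t y ≤ (z - y) / (1 - t) := by
  have h2 : 0 < 1 - t := by linarith
  rcases (Int.floor_mono hyz).eq_or_lt with h | h
  · unfold stair
    rw [← h]
    have hz : Int.fract z = z - ⌊y⌋ := by rw [h]; exact (Int.self_sub_floor z).symm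
    have hy : Int.fract y = y - ⌊y⌋ := (Int.self_sub_floor y).symm
    rw [hz, hy]
    have e1 : (z - ⌊y⌋ - t) / (1 - t) = (y - ⌊y⌋ - t) / (1 - t) + (z - y) / (1 - t) := by
      rw [← add_div]
      ring_nf
    have e2 : 0 ≤ (z - y) / (1 - t) := div_nonneg (by linarith) h2.le
    constructor
    · have : max 0 ((y - ⌊y⌋ - t) / (1 - t)) ≤ max 0 ((z - ⌊y⌋ - t) / (1 - t)) :=
        max_le_max le_rfl (by rw [e1]; linarith)
      linarith
    · have : max 0 ((z - ⌊y⌋ - t) / (1 - t)) ≤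
          max 0 ((y - ⌊y⌋ - t) / (1 - t)) + (z - y) / (1 - t) := by
        rw [e1]
        refine max_le ?_ ?_
        · linarith [le_max_left (0:ℝ) ((y - ⌊y⌋ - t) / (1 - t))]
        · linarith [le_max_right (0:ℝ) ((y - ⌊y⌋ - t) / (1 - t))]
      linarith
  · have h' : (⌊y⌋ : ℝ) + 1 ≤ ⌊z⌋ := by exact_mod_cast h
    constructor
    · linarith [stair_nonneg (t := t) (y := z), stair_lt_one (t := t) (y := y) ht1]
    · have a1 := stair_le (y := z) ht ht1
      have a2 := stair_ge (y := y) ht ht1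
      have a3 : (⌊z⌋ : ℝ) - (⌊y⌋ + 1) ≤ ((⌊z⌋ : ℝ) - (⌊y⌋ + 1)) / (1 - t) := by
        rw [le_div_iff₀ h2]
        nlinarith
      have a4 : (z - y) / (1 - t) = (z - ⌊z⌋) / (1 - t) + ((⌊z⌋ : ℝ) - (⌊y⌋ + 1)) / (1 - t) +
          (⌊y⌋ + 1 - y) / (1 - t) := by
        rw [← add_div, ← add_div]
        ring_nf
      linarith

lemma stair_lip {t : ℝ} (ht : 0 < t) (ht1 : t < 1) (y z : ℝ) :
    |stair t z - stair t y| ≤ |z - y| / (1 - t) := by
  rcases le_total y z with h | h
  · obtain ⟨h1, h2⟩ := stair_mono_aux ht ht1 h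
    rw [abs_of_nonneg h1, abs_of_nonneg (by linarith : 0 ≤ z - y)]
    exact h2
  · obtain ⟨h1, h2⟩ := stair_mono_aux ht ht1 h
    rw [abs_sub_comm, abs_sub_comm z y, abs_of_nonneg h1, abs_of_nonneg (by linarith : 0 ≤ y - z)]
    exact h2

lemma stair_near {t : ℝ} (ht1 : t < 1) (y : ℝ) : |stair t y - y| ≤ 1 := by
  have h1 := stair_nonneg (t := t) (y := y)
  have h2 := stair_lt_one (t := t) (y := y) ht1
  have h3 := Int.floor_le y
  have h4 := Int.lt_floor_add_one y
  rw [abs_le]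
  constructor <;> linarith

lemma stair_flat {t y : ℝ} {m : ℤ} (ht1 : t < 1) (h1 : (m : ℝ) ≤ y) (h2 : y < m + t) :
    stair t y = m := by
  have hf : ⌊y⌋ = m := by
    rw [Int.floor_eq_iff]
    exact ⟨h1, by linarith⟩
  unfold stair
  have h3 : Int.fract y = y - m := by rw [← hf]; exact (Int.self_sub_floor y).symm
  rw [h3, hf, max_eq_left]
  · simp
  · exact div_nonpos_of_nonpos_of_nonneg (by linarith) (by linarith)

/-- The data of a blocking map. -/
structure Mv (X : Type*) [PseudoMetricSpace X] (a : ℝ) (φ : ℝ → X → ℝ) (S : Set (ℝ × X))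
    (P : X → X → Prop) : Prop where
  lip : ∀ u v x y, |φ u x - φ v y| ≤ (1 + a) * |u - v| + a * dist x y
  near : ∀ u x, |φ u x - u| ≤ a
  closed : IsClosed S
  loc : ∀ p ∉ S, ∃ r > 0, ∀ u v x, |u - p.1| < r → |v - p.1| < r → dist x p.2 < r → φ u x = φ v x
  conn : ∀ A ⊆ S, IsPreconnected A → ∀ p ∈ A, ∀ q ∈ A, P p.2 q.2

variable {X : Type*} [PseudoMetricSpace X]

lemma Mv.continuous {a : ℝ} {φ : ℝ → X → ℝ} {S : Set (ℝ × X)} {P : X → X → Prop}
    (h : Mv X a φ S P) : Continuous (fun p : ℝ × X => φ p.1 p.2) := by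
  rw [Metric.continuous_iff]
  intro b ε hε
  have ha : 0 ≤ a := by
    have := h.near 0 b.2
    exact (abs_nonneg _).trans this
  refine ⟨ε / (2 * (1 + a)), by positivity, fun c hc => ?_⟩
  rw [Real.dist_eq]
  have h1 := h.lip c.1 b.1 c.2 b.2
  have h2 : |c.1 - b.1| ≤ dist c b := by
    rw [← Real.dist_eq, Prod.dist_eq]
    exact le_max_left _ _
  have h3 : dist c.2 b.2 ≤ dist c b := by
    rw [Prod.dist_eq]
    exact le_max_right _ _
  calc |φ c.1 c.2 - φ b.1 b.2| ≤ (1 + a) * |c.1 - b.1| + a * dist c.2 b.2 := h1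
    _ ≤ (1 + a) * dist c b + (1 + a) * dist c b := by
        gcongr
        linarith
    _ = 2 * (1 + a) * dist c b := by ring
    _ < 2 * (1 + a) * (ε / (2 * (1 + a))) := by gcongr
    _ = ε := by field_simp

/-- the basic shear map -/
noncomputable def shear (t h s : ℝ) (ℓ : X → ℝ) (u : ℝ) (x : X) : ℝ :=
  h * (stair t (u / h - s * ℓ x) + s * ℓ x)

/-- the complement of the diagonal strips -/
def strips (t h s : ℝ) (ℓ : X → ℝ) : Set (ℝ × X) :=
  {p | ∀ m : ℤ, p.1 / h - s * ℓ p.2 ≤ m ∨ m + t ≤ p.1 / h - s * ℓ p.2}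

lemma shear_lip {t h s : ℝ} (ht : 0 < t) (ht1 : t < 1) (hh : 0 < h) {ℓ : X → ℝ}
    (hℓ : ∀ x y, |ℓ x - ℓ y| ≤ dist x y) (u v : ℝ) (x y : X) :
    |shear t h s ℓ u x - shear t h s ℓ v y| ≤
      1 / (1 - t) * |u - v| + h * |s| * (1 / (1 - t) + 1) * dist x y := by
  unfold shear
  have h2 : 0 < 1 - t := by linarith
  have e1 : h * (stair t (u / h - s * ℓ x) + s * ℓ x) - h * (stair t (v / h - s * ℓ y) + s * ℓ y) =
      h * (stair t (u / h - s * ℓ x) - stair t (v / h - s * ℓ y)) + h * (s * (ℓ x - ℓ y)) := by ring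
  rw [e1]
  have e2 : |h * (stair t (u / h - s * ℓ x) - stair t (v / h - s * ℓ y))| ≤
      1 / (1 - t) * (|u - v| + h * (|s| * dist x y)) := by
    rw [abs_mul, abs_of_pos hh]
    have e3 := stair_lip ht ht1 (v / h - s * ℓ y) (u / h - s * ℓ x)
    have e4 : |u / h - s * ℓ x - (v / h - s * ℓ y)| ≤ |u - v| / h + |s| * dist x y := by
      have : u / h - s * ℓ x - (v / h - s * ℓ y) = (u - v) / h - s * (ℓ x - ℓ y) := by ring
      rw [this]
      refine (abs_sub _ _).trans ?_
      rw [abs_div, abs_of_pos hh, abs_mul]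
      gcongr
      exact hℓ x y
    calc h * |stair t (u / h - s * ℓ x) - stair t (v / h - s * ℓ y)| ≤
        h * ((|u - v| / h + |s| * dist x y) / (1 - t)) := by
          gcongr
          refine e3.trans ?_
          gcongr
      _ = _ := by field_simp
  have e5 : |h * (s * (ℓ x - ℓ y))| ≤ h * (|s| * dist x y) := by
    rw [abs_mul, abs_of_pos hh, abs_mul]
    gcongr
    exact hℓ x y
  calc _ ≤ _ := abs_add_le _ _
    _ ≤ 1 / (1 - t) * (|u - v| + h * (|s| * dist x y)) + h * (|s| * dist x y) := add_le_add e2 e5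
    _ = _ := by ring

lemma shear_near {t h s : ℝ} (ht1 : t < 1) (hh : 0 < h) {ℓ : X → ℝ} (u : ℝ) (x : X) :
    |shear t h s ℓ u x - u| ≤ h := by
  unfold shear
  have e1 : h * (stair t (u / h - s * ℓ x) + s * ℓ x) - u =
      h * (stair t (u / h - s * ℓ x) - (u / h - s * ℓ x)) := by
    field_simp
    ring
  rw [e1, abs_mul, abs_of_pos hh]
  calc _ ≤ h * 1 := by gcongr; exact stair_near ht1 _
    _ = h := mul_one h

lemma strips_closed {t h s : ℝ} {ℓ : X → ℝ} (hc : Continuous ℓ) :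
    IsClosed (strips t h s ℓ) := by
  unfold strips
  rw [Set.ofPred_forall]
  refine isClosed_iInter fun m => ?_
  rw [Set.ofPred_or]
  refine IsClosed.union ?_ ?_
  · exact isClosed_le (by fun_prop) continuous_const
  · exact isClosed_le continuous_const (by fun_prop)

lemma shear_loc {t h s : ℝ} (ht1 : t < 1) {ℓ : X → ℝ}
    (hc : Continuous ℓ) {p : ℝ × X} (hp : p ∉ strips t h s ℓ) :
    ∃ r > 0, ∀ u v x, |u - p.1| < r → |v - p.1| < r → dist x p.2 < r →
      shear t h s ℓ u x = shear t h s ℓ v x := by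
  unfold strips at hp
  simp only [Set.mem_ofPred_eq, not_forall, not_or, not_le] at hp
  obtain ⟨m, h1, h2⟩ := hp
  have hcont : Continuous (fun q : ℝ × X => q.1 / h - s * ℓ q.2) := by fun_prop
  have hev : ∀ᶠ q in 𝓝 p, (m : ℝ) < q.1 / h - s * ℓ q.2 ∧ q.1 / h - s * ℓ q.2 < m + t :=
    (hcont.continuousAt.eventually (lt_mem_nhds h1)).and
      (hcont.continuousAt.eventually (gt_mem_nhds h2))
  obtain ⟨r, hr, hr'⟩ := Metric.eventually_nhds_iff.1 hev
  refine ⟨r, hr, fun u v x hu hv hx => ?_⟩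
  have key : ∀ w, |w - p.1| < r → shear t h s ℓ w x = h * (m + s * ℓ x) := by
    intro w hw
    have := hr' (y := (w, x)) (by
      rw [Prod.dist_eq, max_lt_iff]
      exact ⟨by rwa [Real.dist_eq], hx⟩)
    unfold shear
    rw [stair_flat ht1 this.1.le this.2]
  rw [key u hu, key v hv]

lemma strips_conn {t h s : ℝ} (ht : 0 < t) {ℓ : X → ℝ} (hc : Continuous ℓ) {A : Set (ℝ × X)}
    (hA : A ⊆ strips t h s ℓ) (hAc : IsPreconnected A) {p q : ℝ × X} (hp : p ∈ A) (hq : q ∈ A) :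
    (q.1 / h - s * ℓ q.2) - (p.1 / h - s * ℓ p.2) ≤ 1 := by
  by_contra hlt
  rw [not_le] at hlt
  set Y : ℝ × X → ℝ := fun q => q.1 / h - s * ℓ q.2 with hY
  have hcont : Continuous Y := by fun_prop
  have him : IsPreconnected (Y '' A) := hAc.image _ hcont.continuousOn
  have hord := him.ordConnected
  set m : ℤ := ⌈Y p⌉ with hm
  have hm1 : Y p ≤ m := Int.le_ceil _
  have hm2 : (m : ℝ) < Y p + 1 := Int.ceil_lt_add_one _
  have hlt' : 1 < Y q - Y p := hlt
  set z : ℝ := m + min t (Y q - m) / 2 with hz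
  have hmin : 0 < min t (Y q - m) := lt_min ht (by linarith)
  have hz1 : (m : ℝ) < z := by rw [hz]; linarith
  have hz2 : z < m + t := by rw [hz]; linarith [min_le_left t (Y q - m)]
  have hz3 : z ≤ Y q := by rw [hz]; linarith [min_le_right t (Y q - m)]
  have hzmem : z ∈ Y '' A := hord.out (mem_image_of_mem _ hp) (mem_image_of_mem _ hq)
    ⟨by linarith, hz3⟩
  obtain ⟨c, hcA, hcz⟩ := hzmem
  have := hA hcA m
  have hcz' : c.1 / h - s * ℓ c.2 = z := hcz
  rw [hcz'] at this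
  rcases this with h' | h' <;> linarith

end Pool.Agent.H196
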