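import Pool.Agent.H770.GS.TF

/-! `S_TF4` (project TF of helper770), by helper196. -/

set_option autoImplicit false

open MeasureTheory Set Filter Topology

namespace Pool.Agent.H196.TF4

lemma dom {g : ℝ → ℝ} {C : ℝ} (hg : AEStronglyMeasurable g (volume.restrict (Ioi 0)))
    (h : ∀ τ, 0 < τ → |g τ| ≤ C * (1 + τ ^ 2)⁻¹) : IntegrableOn g (Ioi (0:ℝ)) := by
  have h1 : IntegrableOn (fun τ : ℝ => C * (1 + τ ^ 2)⁻¹) (Ioi 0) :=
    (integrable_inv_one_add_sq.const_mul C).integrableOn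
  refine Integrable.mono' h1 hg ?_
  rw [ae_restrict_iff' measurableSet_Ioi]
  exact ae_of_all _ fun τ hτ => by rw [Real.norm_eq_abs]; exact h τ hτ

section abs

variable (f df : ℝ → ℝ) (z K : ℝ)

/-- the hypotheses -/
structure Hyp : Prop where
  z_pos : 0 < z
  K_nonneg : 0 ≤ K
  hd : ∀ x, HasDerivAt f (df x) x
  f1 : ∀ x, |f x| ≤ 1
  f2 : ∀ x, 0 < x → |f x| ≤ 1 / (z * x)
  d1 : ∀ x, 0 < x → |df x| ≤ K / x

variable {f df z K}

lemma Hyp.cont (h : Hyp f df z K) : Continuous f :=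
  continuous_iff_continuousAt.2 fun x => (h.hd x).continuousAt

lemma Hyp.meas (h : Hyp f df z K) : Measurable df := by
  have e : df = deriv f := funext fun x => (h.hd x).deriv.symm
  rw [e]; exact measurable_deriv f

lemma Hyp.tf (h : Hyp f df z K) (τ : ℝ) (hτ : 0 < τ) : |f τ| * τ ≤ 1 / z := by
  have h1 := h.f2 τ hτ
  have hz := h.z_pos
  calc |f τ| * τ ≤ 1 / (z * τ) * τ := mul_le_mul_of_nonneg_right h1 hτ.le
    _ = 1 / z := by field_simp

lemma Hyp.b1 (h : Hyp f df z K) (τ : ℝ) (hτ : 0 < τ) :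
    f τ ^ 2 ≤ (1 + 1 / z ^ 2) * (1 + τ ^ 2)⁻¹ := by
  have hz := h.z_pos
  rw [← div_eq_mul_inv, le_div_iff₀ (by positivity)]
  have h1 := h.f1 τ
  have h2 := h.tf τ hτ
  have h3 : f τ ^ 2 ≤ 1 := by
    rw [← sq_abs]; exact pow_le_one₀ (abs_nonneg _) h1
  have h4 : (|f τ| * τ) ^ 2 ≤ (1 / z) ^ 2 := pow_le_pow_left₀ (by positivity) h2 2
  rw [mul_pow, sq_abs, div_pow, one_pow] at h4
  nlinarith

lemma Hyp.b2 (h : Hyp f df z K) (β : ℝ) (hβ : 0 < β) (τ : ℝ) (hτ : 0 < τ) :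
    |f τ| * |f (β * τ)| ≤ (1 + 1 / (z ^ 2 * β)) * (1 + τ ^ 2)⁻¹ := by
  have hz := h.z_pos
  rw [← div_eq_mul_inv, le_div_iff₀ (by positivity)]
  have h1 := h.f1 τ
  have h1' := h.f1 (β * τ)
  have h2 := h.tf τ hτ
  have h3 := h.tf (β * τ) (by positivity)
  have h4 : |f τ| * |f (β * τ)| ≤ 1 := mul_le_one₀ h1 (abs_nonneg _) h1'
  have h5 : (|f τ| * τ) * (|f (β * τ)| * (β * τ)) ≤ 1 / z * (1 / z) :=
    mul_le_mul h2 h3 (by positivity) (by positivity)
  have h6 : |f τ| * |f (β * τ)| * τ ^ 2 ≤ 1 / (z ^ 2 * β) := by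
    rw [le_div_iff₀ (by positivity)]
    have h7 : |f τ| * |f (β * τ)| * τ ^ 2 * (z ^ 2 * β) =
      ((|f τ| * τ) * (|f (β * τ)| * (β * τ))) * z ^ 2 := by ring
    rw [h7]
    calc ((|f τ| * τ) * (|f (β * τ)| * (β * τ))) * z ^ 2 ≤ (1 / z * (1 / z)) * z ^ 2 :=
          mul_le_mul_of_nonneg_right h5 (by positivity)
      _ = 1 := by field_simp
  nlinarith

lemma Hyp.pw (h : Hyp f df z K) (x : ℝ) (n : ℕ) : |f x ^ n| ≤ 1 := by
  rw [abs_pow]; exact pow_le_one₀ (abs_nonneg _) (h.f1 x)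

/-- the integrand of the derivative -/
def FF' (f df : ℝ → ℝ) (k : ℕ) (x τ : ℝ) : ℝ :=
  f τ ^ 2 * (k * f (x * τ) ^ (k - 1) * (df (x * τ) * τ))

/-- the other term -/
def T1 (f df : ℝ → ℝ) (k : ℕ) (x τ : ℝ) : ℝ := τ * (f τ * df τ) * f (x * τ) ^ k

lemma Hyp.FF'_le (h : Hyp f df z K) (k : ℕ) (x τ : ℝ) (hx : 0 < x) (hτ : 0 < τ) :
    |FF' f df k x τ| ≤ k * (K / x) * ((1 + 1 / z ^ 2) * (1 + τ ^ 2)⁻¹) := by
  unfold FF'
  have hz := h.z_pos
  have hK := h.K_nonneg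
  have h1 := h.b1 τ hτ
  have h2 := h.pw (x * τ) (k - 1)
  have h3 : |df (x * τ) * τ| ≤ K / x := by
    rw [abs_mul, abs_of_pos hτ]
    calc |df (x * τ)| * τ ≤ K / (x * τ) * τ :=
          mul_le_mul_of_nonneg_right (h.d1 _ (by positivity)) hτ.le
      _ = K / x := by field_simp
  rw [abs_mul, abs_mul, abs_mul, abs_of_nonneg (sq_nonneg (f τ)), Nat.abs_cast]
  calc f τ ^ 2 * (k * |f (x * τ) ^ (k - 1)| * |df (x * τ) * τ|)
      ≤ ((1 + 1 / z ^ 2) * (1 + τ ^ 2)⁻¹) * (k * 1 * (K / x)) := by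
        apply mul_le_mul h1 _ (by positivity) (by positivity)
        apply mul_le_mul _ h3 (abs_nonneg _) (by positivity)
        exact mul_le_mul_of_nonneg_left h2 (by positivity)
    _ = _ := by ring

lemma Hyp.T1_le (h : Hyp f df z K) (k : ℕ) (hk : 1 ≤ k) (x τ : ℝ) (hx : 0 < x) (hτ : 0 < τ) :
    |T1 f df k x τ| ≤ K * (1 + 1 / (z ^ 2 * x)) * (1 + τ ^ 2)⁻¹ := by
  unfold T1
  have hK := h.K_nonneg
  have h1 := h.b2 x hx τ hτ
  have h2 : |f (x * τ) ^ k| ≤ |f (x * τ)| := by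
    obtain ⟨j, rfl⟩ : ∃ j, k = j + 1 := ⟨k - 1, by omega⟩
    rw [pow_succ, abs_mul]
    exact mul_le_of_le_one_left (abs_nonneg _) (h.pw _ _)
  have h3 : τ * |df τ| ≤ K := by
    calc τ * |df τ| ≤ τ * (K / τ) := mul_le_mul_of_nonneg_left (h.d1 _ hτ) hτ.le
      _ = K := by field_simp
  rw [abs_mul, abs_mul, abs_mul, abs_of_pos hτ]
  calc τ * (|f τ| * |df τ|) * |f (x * τ) ^ k| = (τ * |df τ|) * (|f τ| * |f (x * τ) ^ k|) := by ring
    _ ≤ K * (|f τ| * |f (x * τ)|) := by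
        apply mul_le_mul h3 _ (by positivity) hK
        exact mul_le_mul_of_nonneg_left h2 (abs_nonneg _)
    _ ≤ K * ((1 + 1 / (z ^ 2 * x)) * (1 + τ ^ 2)⁻¹) := mul_le_mul_of_nonneg_left h1 hK
    _ = _ := by ring

lemma Hyp.F_int (h : Hyp f df z K) (k : ℕ) (x : ℝ) :
    IntegrableOn (fun τ => f τ ^ 2 * f (x * τ) ^ k) (Ioi (0:ℝ)) := by
  have hc := h.cont
  apply dom (C := 1 + 1 / z ^ 2)
  · exact Continuous.aestronglyMeasurable (by fun_prop)
  · intro τ hτ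
    rw [abs_mul, abs_of_nonneg (sq_nonneg (f τ))]
    exact le_trans (mul_le_of_le_one_right (sq_nonneg _) (h.pw _ _)) (h.b1 τ hτ)

lemma Hyp.T1_int (h : Hyp f df z K) (k : ℕ) (hk : 1 ≤ k) (x : ℝ) (hx : 0 < x) :
    IntegrableOn (T1 f df k x) (Ioi (0:ℝ)) := by
  have hc := h.cont
  have hm := h.meas
  apply dom (C := K * (1 + 1 / (z ^ 2 * x)))
  · apply Measurable.aestronglyMeasurable
    unfold T1
    exact (measurable_id.mul (hc.measurable.mul hm)).mul
      ((hc.measurable.comp (measurable_const.mul measurable_id)).pow_const k)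
  · intro τ hτ
    exact h.T1_le k hk x τ hx hτ

lemma Hyp.FF'_meas (h : Hyp f df z K) (k : ℕ) (x : ℝ) : Measurable (FF' f df k x) := by
  have hc := h.cont
  have hm := h.meas
  unfold FF'
  exact (hc.measurable.pow_const 2).mul ((measurable_const.mul
      ((hc.measurable.comp (measurable_const.mul measurable_id)).pow_const (k - 1))).mul
      ((hm.comp (measurable_const.mul measurable_id)).mul measurable_id))

/-- differentiation under the integral -/
lemma Hyp.deriv (h : Hyp f df z K) (k : ℕ) (β : ℝ) (hβ : 0 < β) :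
    IntegrableOn (FF' f df k β) (Ioi (0:ℝ)) ∧
    HasDerivAt (fun b => ∫ τ in Ioi (0:ℝ), f τ ^ 2 * f (b * τ) ^ k)
      (∫ τ in Ioi (0:ℝ), FF' f df k β τ) β := by
  have hc := h.cont
  have hm := h.meas
  have hK := h.K_nonneg
  have hz := h.z_pos
  apply hasDerivAt_integral_of_dominated_loc_of_deriv_le (s := Ioi (β / 2))
    (bound := fun τ => k * (K / (β / 2)) * ((1 + 1 / z ^ 2) * (1 + τ ^ 2)⁻¹))
  · exact Ioi_mem_nhds (by linarith)
  · exact Eventually.of_forall fun x => Continuous.aestronglyMeasurable (by fun_prop)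
  · exact h.F_int k β
  · exact (h.FF'_meas k β).aestronglyMeasurable
  · rw [ae_restrict_iff' measurableSet_Ioi]
    refine ae_of_all _ fun τ hτ x hx => ?_
    have hx' : β / 2 < x := hx
    have hx0 : 0 < x := by linarith
    have hτ' : 0 < τ := hτ
    rw [Real.norm_eq_abs]
    refine le_trans (h.FF'_le k x τ hx0 hτ') ?_
    apply mul_le_mul_of_nonneg_right _ (by positivity)
    apply mul_le_mul_of_nonneg_left _ (by positivity)
    exact div_le_div_of_nonneg_left hK (by positivity) hx'.le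
  · exact ((integrable_inv_one_add_sq.const_mul (1 + 1 / z ^ 2)).const_mul _).integrableOn
  · refine ae_of_all _ fun τ x _ => ?_
    have h1 : HasDerivAt (fun b : ℝ => b * τ) τ x := by
      simpa using (hasDerivAt_id x).mul_const τ
    have h2 : HasDerivAt (fun b : ℝ => f (b * τ)) (df (x * τ) * τ) x :=
      HasDerivAt.comp x (h.hd (x * τ)) h1
    exact (h2.pow k).const_mul (f τ ^ 2)

/-- integration by parts -/
lemma Hyp.ibp (h : Hyp f df z K) (k : ℕ) (hk : 1 ≤ k) (β : ℝ) (hβ : 0 < β) :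
    (∫ τ in Ioi (0:ℝ), f τ ^ 2 * f (β * τ) ^ k) + β * (∫ τ in Ioi (0:ℝ), FF' f df k β τ) =
      -2 * ∫ τ in Ioi (0:ℝ), T1 f df k β τ := by
  have hc := h.cont
  have hz := h.z_pos
  have i1 := h.F_int k β
  have i2 := (h.deriv k β hβ).1
  have i3 := h.T1_int k hk β hβ
  have hint : IntegrableOn (fun τ => (f τ ^ 2 * f (β * τ) ^ k + β * FF' f df k β τ) +
      2 * T1 f df k β τ) (Ioi (0:ℝ)) :=
    (i1.add (i2.const_mul β)).add (i3.const_mul 2)
  have key : ∫ τ in Ioi (0:ℝ), ((f τ ^ 2 * f (β * τ) ^ k + β * FF' f df k β τ) +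
      2 * T1 f df k β τ) = 0 - 0 * (f 0 ^ 2 * f (β * 0) ^ k) := by
    apply integral_Ioi_of_hasDerivAt_of_tendsto' (f := fun τ => τ * (f τ ^ 2 * f (β * τ) ^ k))
    · intro τ _
      have h1 : HasDerivAt (fun b : ℝ => β * b) β τ := by
        simpa using (hasDerivAt_id τ).const_mul β
      have h2 : HasDerivAt (fun b : ℝ => f (β * b)) (df (β * τ) * β) τ :=
        HasDerivAt.comp τ (h.hd (β * τ)) h1
      have h3 := (hasDerivAt_id τ).mul (((h.hd τ).pow 2).mul (h2.pow k))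
      refine h3.congr_deriv ?_
      unfold FF' T1
      simp only [id, Pi.mul_apply, Pi.pow_apply]
      push_cast
      ring
    · exact hint
    · have h4 : Tendsto (fun τ : ℝ => (1 / z ^ 2) * τ⁻¹) atTop (𝓝 0) := by
        have := tendsto_inv_atTop_zero.const_mul (1 / z ^ 2)
        rwa [mul_zero] at this
      apply squeeze_zero_norm' _ h4
      filter_upwards [eventually_gt_atTop (0:ℝ)] with τ hτ
      rw [Real.norm_eq_abs, abs_mul, abs_mul, abs_of_pos hτ, abs_of_nonneg (sq_nonneg (f τ))]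
      have h5 := h.tf τ hτ
      have h6 : (|f τ| * τ) ^ 2 ≤ (1 / z) ^ 2 := pow_le_pow_left₀ (by positivity) h5 2
      rw [mul_pow, sq_abs, div_pow, one_pow] at h6
      have h7 : f τ ^ 2 * |f (β * τ) ^ k| ≤ f τ ^ 2 :=
        mul_le_of_le_one_right (sq_nonneg _) (h.pw _ _)
      calc τ * (f τ ^ 2 * |f (β * τ) ^ k|) ≤ τ * f τ ^ 2 := mul_le_mul_of_nonneg_left h7 hτ.le
        _ = (f τ ^ 2 * τ ^ 2) * τ⁻¹ := by field_simp
        _ ≤ 1 / z ^ 2 * τ⁻¹ := mul_le_mul_of_nonneg_right h6 (by positivity)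
  have i12 : IntegrableOn (fun τ => f τ ^ 2 * f (β * τ) ^ k + β * FF' f df k β τ)
      (Ioi (0:ℝ)) := i1.add (i2.const_mul β)
  rw [integral_add i12 (i3.const_mul 2),
    integral_add i1 (i2.const_mul β), integral_const_mul, integral_const_mul] at key
  linarith

end abs

open Pool.Agent.H770.GS in
/-- the hypotheses for `cf` -/
lemma hyp (hTF2 : S_TF2) (ε : ℝ) (hε : 0 < ε) :
    Hyp (cf ε) (fun x => -(x / zt ε * ck ε x)) (zt ε) 1.07 := by
  obtain ⟨h1, h2, h3, h4, h5, h6, h7⟩ := hTF2 ε hε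
  refine ⟨h1, by norm_num, h6, h4, h3, ?_⟩
  intro x hx
  rw [abs_neg, abs_mul, abs_of_pos (div_pos hx h1)]
  calc x / zt ε * |ck ε x| ≤ x / zt ε * (1.07 * zt ε / x ^ 2) :=
        mul_le_mul_of_nonneg_left (h5 x hx) (div_pos hx h1).le
    _ = 1.07 / x := by field_simp

open Pool.Agent.H770.GS in
/-- the derivative of `GG` -/
lemma derivGG (hTF2 : S_TF2) (hTF3 : S_TF3) (ε β : ℝ) (k : ℕ) (hε : 0 < ε) (hk : 3 ≤ k)
    (hβ : 0 < β) : HasDerivAt (GG ε k)
      ((k * β * Real.exp (-ε) / (ε * zt ε) * ∫ τ in Ioi (0:ℝ), II ε k β τ) /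
        Real.sqrt (2 + k * β ^ 2)) β := by
  have H := hyp hTF2 ε hε
  obtain ⟨z1, z2, z3, z4, z5, z6, z7⟩ := hTF2 ε hε
  set df : ℝ → ℝ := fun x => -(x / zt ε * ck ε x) with hdf
  have hD := H.deriv k β hβ
  have hI := H.ibp k (by omega) β hβ
  have i3 := H.T1_int k (by omega) β hβ
  have hpos : 0 < 2 + (k:ℝ) * β ^ 2 := by positivity
  have hs : HasDerivAt (fun b : ℝ => Real.sqrt (2 + k * b ^ 2))
      ((k * (2 * β)) / (2 * Real.sqrt (2 + k * β ^ 2))) β := by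
    have h1 : HasDerivAt (fun b : ℝ => 2 + (k:ℝ) * b ^ 2) (k * (2 * β)) β := by
      have h2 := ((hasDerivAt_pow 2 β).const_mul (k:ℝ)).const_add 2
      refine h2.congr_deriv ?_
      push_cast
      ring
    exact h1.sqrt hpos.ne'
  have hG := hs.mul hD.2
  have hcomb : 2 * (∫ τ in Ioi (0:ℝ), FF' (cf ε) df k β τ) -
      2 * k * β * (∫ τ in Ioi (0:ℝ), T1 (cf ε) df k β τ) =
      k * β * Real.exp (-ε) / (ε * zt ε) * ∫ τ in Ioi (0:ℝ), II ε k β τ := by
    rw [← integral_const_mul, ← integral_const_mul, ← integral_const_mul, ← integral_sub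
      (hD.1.const_mul 2) (i3.const_mul (2 * k * β))]
    apply setIntegral_congr_fun measurableSet_Ioi
    intro τ _
    show 2 * FF' (cf ε) df k β τ - 2 * k * β * T1 (cf ε) df k β τ =
      k * β * Real.exp (-ε) / (ε * zt ε) * II ε k β τ
    unfold FF' T1 II
    have e1 : zt ε * cf ε τ = Real.exp (-ε) * Real.sinc τ + 2 * ε * ck ε τ := z2 τ
    have e2 : zt ε * cf ε (β * τ) = Real.exp (-ε) * Real.sinc (β * τ) + 2 * ε * ck ε (β * τ) :=
      z2 (β * τ)
    obtain ⟨j, rfl⟩ : ∃ j, k = j + 1 := ⟨k - 1, by omega⟩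
    have e3 : j + 1 - 1 = j := by omega
    rw [e3, hdf]
    simp only
    rw [pow_succ]
    have hzne : zt ε ≠ 0 := z1.ne'
    have hεne : ε ≠ 0 := hε.ne'
    have e4 : ck ε τ = (zt ε * cf ε τ - Real.exp (-ε) * Real.sinc τ) / (2 * ε) := by
      rw [e1]; field_simp; ring
    have e5 : ck ε (β * τ) = (zt ε * cf ε (β * τ) - Real.exp (-ε) * Real.sinc (β * τ)) /
        (2 * ε) := by
      rw [e2]; field_simp; ring
    rw [e4, e5]
    field_simp
    ring
  have hsq : Real.sqrt (2 + k * β ^ 2) * Real.sqrt (2 + k * β ^ 2) = 2 + k * β ^ 2 :=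
    Real.mul_self_sqrt hpos.le
  have hsp : 0 < Real.sqrt (2 + k * β ^ 2) := Real.sqrt_pos.2 hpos
  refine hG.congr_deriv ?_
  rw [← hcomb, eq_div_iff hsp.ne']
  set M : ℝ := ∫ τ in Ioi (0:ℝ), cf ε τ ^ 2 * cf ε (β * τ) ^ k with hM
  set M' : ℝ := ∫ τ in Ioi (0:ℝ), FF' (cf ε) df k β τ with hM'
  set N1 : ℝ := ∫ τ in Ioi (0:ℝ), T1 (cf ε) df k β τ with hN1
  set s : ℝ := Real.sqrt (2 + k * β ^ 2) with hsdef
  have e6 : (k * (2 * β) / (2 * s) * M + s * M') * s = k * β * M + (s * s) * M' := by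
    field_simp
  rw [e6, hsq]
  linear_combination (k * β) * hI

open Pool.Agent.H770.GS in
/-- **TF4** -/
theorem tf4 : S_TF4 := by
  intro hTF2 hTF3 ε β1 β2 k hε hk hβ1 hβ hpos
  have hder : ∀ b, 0 < b → HasDerivAt (GG ε k)
      ((k * b * Real.exp (-ε) / (ε * zt ε) * ∫ τ in Ioi (0:ℝ), II ε k b τ) /
        Real.sqrt (2 + k * b ^ 2)) b := fun b hb => derivGG hTF2 hTF3 ε b k hε hk hb
  have hz : 0 < zt ε := (hTF2 ε hε).1
  have hmono : MonotoneOn (GG ε k) (Icc β1 β2) := by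
    apply monotoneOn_of_deriv_nonneg (convex_Icc β1 β2)
    · intro b hb
      exact (hder b (lt_of_lt_of_le hβ1 hb.1)).continuousAt.continuousWithinAt
    · intro b hb
      rw [interior_Icc] at hb
      exact (hder b (lt_trans hβ1 hb.1)).differentiableAt.differentiableWithinAt
    · intro b hb
      rw [interior_Icc] at hb
      have hb0 : 0 < b := lt_trans hβ1 hb.1
      rw [(hder b hb0).deriv]
      have := hpos b ⟨hb.1.le, hb.2.le⟩
      positivity
  exact hmono ⟨le_rfl, hβ⟩ ⟨hβ, le_rfl⟩ hβ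

end Pool.Agent.H196.TF4
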