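import Pool.Agent.H724.WE.SFStm

/-!
# Project WE, AB10a: a palindromic parallel family breaks before the middle
-/

set_option autoImplicit false

namespace H196.WE

open H724.WE Finset
open scoped Classical

variable {V ι : Type} (G : SF V ι)

theorem Nx_rev {d f : Dart ι} (h : G.Nx d f) : G.Nx (rev f) (rev d) := by
  obtain ⟨h1, h2, h3, h4, h5, h6⟩ := h
  refine ⟨G.core_rev.2 h2, G.core_rev.2 h1, ?_, ?_, ?_, ?_⟩
  · rw [G.tl_rev, G.hd_rev, h3]
  · rw [rev_rev]
    exact fun h => h4 h.symm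
  · rw [G.hd_rev, h3]
    exact h5
  · intro g hg1 hg2 hg3
    rw [G.hd_rev, h3] at hg2
    rw [rev_rev]
    exact (h6 g hg1 hg2 hg3).symm

theorem Nx_det {d f f' : Dart ι} (h : G.Nx d f) (h' : G.Nx d f') : f' = f := by
  obtain ⟨_, _, _, _, _, h6⟩ := h
  obtain ⟨_, h2, h3, h4, _, _⟩ := h'
  rcases h6 f' h2.1 h3 h2.2.1 with h | h
  · exact h
  · exact absurd h h4

/-- a parallel family of darts has a parallel family of successors (start at the lower end) -/
theorem step_up [Fintype ι] {β β' : ι} {p p' δ : ℕ} {τ τ' : Bool}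
    (hpar : ∀ k < δ, G.Par (β, p + k, τ)) (h0 : G.Nx (β, p, τ) (β', p', τ')) :
    ∀ k ≤ δ, G.Nx (β, p + k, τ) (β', p' + k, τ') := by
  intro k
  induction k with
  | zero => intro _; exact h0
  | succ k ih => intro hk; exact (hpar k (by omega)).1 _ (ih (by omega))

/-- the same, start at the upper end -/
theorem step_dn [Fintype ι] {β β' : ι} {p q δ : ℕ} {τ τ' : Bool}
    (hpar : ∀ k < δ, G.Par (β, p + k, τ)) (h0 : G.Nx (β, p + δ, τ) (β', q, τ')) :
    ∀ j ≤ δ, j ≤ q ∧ G.Nx (β, p + (δ - j), τ) (β', q - j, τ') := by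
  intro j
  induction j with
  | zero => intro _; exact ⟨Nat.zero_le _, h0⟩
  | succ j ih =>
    intro hj
    obtain ⟨h1, h2⟩ := ih (by omega)
    have h3 : ((β, p + (δ - j), τ) : Dart ι) = sh (β, p + (δ - (j + 1)), τ) := by
      simp only [sh, Prod.mk.injEq, true_and, and_true]
      omega
    rw [h3] at h2
    obtain ⟨f, hf1, hf2⟩ := (hpar (δ - (j + 1)) (by omega)).2 _ h2
    obtain ⟨β'', p'', τ''⟩ := f
    simp only [sh, Prod.mk.injEq] at hf1
    obtain ⟨rfl, hf3, rfl⟩ := hf1
    have hq : j + 1 ≤ q := by omega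
    have hq2 : q - (j + 1) = p'' := by omega
    rw [hq2]
    exact ⟨hq, hf2⟩

theorem step [Fintype ι] {β : ι} {p δ ε : ℕ} {τ : Bool} {g : Dart ι} (hε : ε = 0 ∨ ε = δ)
    (hpar : ∀ k < δ, G.Par (β, p + k, τ)) (h0 : G.Nx (β, p + ε, τ) g) :
    ∃ β' p' τ', g = (β', p' + ε, τ') ∧ ∀ k ≤ δ, G.Nx (β, p + k, τ) (β', p' + k, τ') := by
  obtain ⟨β', q, τ'⟩ := g
  rcases hε with rfl | rfl
  · exact ⟨β', q, τ', rfl, step_up G hpar h0⟩
  · have h1 := step_dn G hpar h0
    have h2 := (h1 ε le_rfl).1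
    refine ⟨β', q - ε, τ', by rw [Nat.sub_add_cancel h2], fun k hk => ?_⟩
    have h3 := (h1 (ε - k) (by omega)).2
    have h4 : ε - (ε - k) = k := by omega
    have h5 : q - (ε - k) = q - ε + k := by omega
    rwa [h4, h5] at h3

theorem firstBreak : S_firstBreak := by
  intro V ι _ _ G d m hch s t i lo δ σ hst htm hδ hends
  -- normal form of the two ends
  obtain ⟨ε, ε', hε, hε', hsum, hds, hdt⟩ : ∃ ε ε' : ℕ, (ε = 0 ∨ ε = δ) ∧ (ε' = 0 ∨ ε' = δ) ∧
      ε + ε' = δ ∧ d s = (i, lo + ε, σ) ∧ rev (d t) = (i, lo + ε', σ) := by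
    rcases hends with ⟨h1, h2⟩ | ⟨h1, h2⟩
    · exact ⟨0, δ, Or.inl rfl, Or.inr rfl, by omega, h1, by rw [h2]; simp [rev]⟩
    · exact ⟨δ, 0, Or.inr rfl, Or.inl rfl, by omega, h1, by rw [h2]; simp [rev]⟩
  by_contra hcon
  have claim : ∀ h, s + 2 * h ≤ t + 1 → ∃ β p τ, G.Fam h i lo δ σ β p τ ∧
      d (s + h) = (β, p + ε, τ) ∧ rev (d (t - h)) = (β, p + ε', τ) := by
    intro h
    induction h using Nat.strong_induction_on with
    | _ h ih =>
      intro hh
      rcases Nat.eq_zero_or_pos h with rfl | hpos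
      · exact ⟨i, lo, σ, fun k _ => rfl, hds, hdt⟩
      obtain ⟨h, rfl⟩ : ∃ h', h = h' + 1 := ⟨h - 1, by omega⟩
      obtain ⟨β, p, τ, hfam, hb1, hb2⟩ := ih h (by omega) (by omega)
      have hlt : s + h < t - h := by omega
      have hN1 : G.Nx (d (s + h)) (d (s + h + 1)) := hch (s + h) (by omega)
      have hN2 : G.Nx (d (t - (h + 1))) (d (t - h)) := by
        have := hch (t - (h + 1)) (by omega)
        rwa [show t - (h + 1) + 1 = t - h by omega] at this
      -- validity
      have hv1 : G.val (β, p + ε, τ) := by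
        rw [← hb1]
        exact hN1.1.1
      have hv2 : G.val (β, p + ε', τ) := by
        rw [← hb2, SF.val_rev]
        exact hN2.2.1.1
      have hval : ∀ k ≤ δ, G.val (β, p + k, τ) := by
        intro k hk
        have a1 : G.r ≤ p + ε := hv1.1
        have a2 : p + ε < G.l := hv1.2
        have a3 : G.r ≤ p + ε' := hv2.1
        have a4 : p + ε' < G.l := hv2.2
        refine ⟨?_, ?_⟩
        · show G.r ≤ p + k
          rcases hε with h | h <;> rcases hε' with h' | h' <;> omega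
        · show p + k < G.l
          rcases hε with h | h <;> rcases hε' with h' | h' <;> omega
      -- parallel
      have hpar : ∀ k < δ, G.Par (β, p + k, τ) := by
        intro k hk
        by_contra hbad
        apply hcon
        refine ⟨h, hlt, ?_, β, p, τ, k, hfam, hk, ?_⟩
        · intro h' hh'
          obtain ⟨β₁, p₁, τ₁, hfam₁, _, _⟩ := ih h' (by omega) (by omega)
          exact ⟨β₁, p₁, τ₁, hfam₁⟩
        · unfold SF.Bad
          rw [mem_filter, SF.mem_darts]
          exact ⟨hval k (by omega), hval (k + 1) (by omega), hbad⟩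
      rw [hb1] at hN1
      obtain ⟨β', p', τ', hg, hnx⟩ := step G hε hpar hN1
      refine ⟨β', p', τ', fun k hk => ⟨_, hfam k hk, hnx k hk⟩, hg, ?_⟩
      have h1 := Nx_rev G hN2
      rw [hb2] at h1
      exact Nx_det G (hnx ε' (by omega)) h1
  -- the middle
  rcases Nat.even_or_odd' (t - s) with ⟨h, hh | hh⟩
  · obtain ⟨β, p, τ, _, hb1, hb2⟩ := claim h (by omega)
    rw [show t - h = s + h by omega, hb1] at hb2
    have := congrArg (fun x : Dart ι => x.2.2) hb2
    simp [rev] at this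
  · obtain ⟨β, p, τ, _, hb1, hb2⟩ := claim (h + 1) (by omega)
    obtain ⟨β', p', τ', _, hc1, hc2⟩ := claim h (by omega)
    rw [show t - (h + 1) = s + h by omega, hc1] at hb2
    rw [show t - h = s + (h + 1) by omega, hb1] at hc2
    have e1 := congrArg (fun x : Dart ι => x.2.1) hb2
    have e2 := congrArg (fun x : Dart ι => x.2.1) hc2
    simp only [rev] at e1 e2
    rcases hε with h | h <;> rcases hε' with h' | h' <;> omega

end H196.WE
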