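import Mathlib

/-!
A continuous function on the plane which is weakly holomorphic in a disc is holomorphic there.
-/

set_option autoImplicit false

open MeasureTheory Set Filter Topology Metric
open scoped ENNReal NNReal ContDiff Convolution

namespace Pool.Agent.H196

theorem weyl {F : ℂ → ℂ} (hF : Continuous F) (hFc : HasCompactSupport F) {z₀ : ℂ} {R : ℝ}
    (h : ∀ φ : ℂ → ℝ, ContDiff ℝ ∞ φ → HasCompactSupport φ → tsupport φ ⊆ ball z₀ R →
      ∫ z, F z * (fderiv ℝ φ z Complex.I : ℝ) = Complex.I * ∫ z, F z * (fderiv ℝ φ z 1 : ℝ)) :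
    DifferentiableOn ℂ F (ball z₀ R) := by
  intro z₁ hz₁
  obtain ⟨δ, hδ, hδ'⟩ : ∃ δ > 0, ball z₁ (2 * δ) ⊆ ball z₀ R := by
    obtain ⟨δ, hδ, hδ'⟩ := Metric.isOpen_ball.mem_nhds hz₁ |> Metric.mem_nhds_iff.1
    exact ⟨δ / 2, by positivity, by rwa [mul_div_cancel₀ _ (two_ne_zero)]⟩
  suffices hd : DifferentiableOn ℂ F (ball z₁ δ) from
    (hd.differentiableAt (ball_mem_nhds z₁ hδ)).differentiableWithinAt
  -- bump functions
  have hpos : ∀ k : ℕ, 0 < δ / (k + 2) := fun k => by positivity
  set η : ℕ → ContDiffBump (0 : ℂ) := fun k =>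
    ⟨δ / (k + 2) / 2, δ / (k + 2), by have := hpos k; positivity, by have := hpos k; linarith⟩
    with hη
  have hrOut : ∀ k, (η k).rOut = δ / (k + 2) := fun k => rfl
  have hrle : ∀ k, (η k).rOut < δ := fun k => by
    rw [hrOut, div_lt_iff₀ (by positivity)]
    nlinarith [(Nat.cast_nonneg k : (0:ℝ) ≤ k)]
  set L : ℂ →L[ℝ] ℝ →L[ℝ] ℂ := (ContinuousLinearMap.lsmul ℝ ℝ).flip with hL
  have hLap : ∀ (z : ℂ) (r : ℝ), L z r = z * r := by
    intro z r
    simp [hL, mul_comm]
  set Fk : ℕ → ℂ → ℂ := fun k => (F ⋆[L, volume] (η k).normed volume) with hFk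
  have hsm : ∀ k, ContDiff ℝ ∞ ((η k).normed volume) := fun k => (η k).contDiff_normed
  have hsc : ∀ k, HasCompactSupport ((η k).normed volume) := fun k =>
    (η k).hasCompactSupport_normed
  have hFi : LocallyIntegrable F volume := hF.locallyIntegrable
  have hder : ∀ k z, HasFDerivAt (Fk k)
      ((F ⋆[L.precompR ℂ, volume] fderiv ℝ ((η k).normed volume)) z) z := fun k z =>
    (hsc k).hasFDerivAt_convolution_right L hFi ((hsm k).of_le (by simp)) z
  have hap : ∀ k z v, fderiv ℝ (Fk k) z v =
      ∫ t, F t * (fderiv ℝ ((η k).normed volume) (z - t) v : ℝ) := by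
    intro k z v
    rw [(hder k z).fderiv, convolution_precompR_apply L hFi ((hsc k).fderiv ℝ)
      ((hsm k).continuous_fderiv (by simp)), convolution_def]
    simp_rw [hLap]
  have hholo : ∀ k, DifferentiableOn ℂ (Fk k) (ball z₁ δ) := by
    intro k z hz
    refine DifferentiableAt.differentiableWithinAt ?_
    rw [differentiableAt_complex_iff_differentiableAt_real]
    refine ⟨(hder k z).differentiableAt, ?_⟩
    rw [hap, hap, smul_eq_mul]
    set φ : ℂ → ℝ := fun t => - (η k).normed volume (z - t) with hφ
    have hφs : ContDiff ℝ ∞ φ := ((hsm k).comp (contDiff_const.sub contDiff_id)).neg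
    have hφd : ∀ t v, fderiv ℝ φ t v = fderiv ℝ ((η k).normed volume) (z - t) v := by
      intro t v
      have h1 : HasFDerivAt (fun t : ℂ => z - t) (-ContinuousLinearMap.id ℝ ℂ) t := by
        simpa using (hasFDerivAt_id (𝕜 := ℝ) t).const_sub z
      have h2 := (((hsm k).differentiable (by simp)).differentiableAt.hasFDerivAt
        (x := z - t)).comp t h1
      have h3 := h2.neg
      have h4 : fderiv ℝ φ t = -((fderiv ℝ ((η k).normed volume) (z - t)).comp
        (-ContinuousLinearMap.id ℝ ℂ)) := h3.fderiv
      rw [h4]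
      simp
    have hφsupp : tsupport φ ⊆ closedBall z (η k).rOut := by
      refine closure_minimal ?_ isClosed_closedBall
      intro t ht
      rw [Function.mem_support] at ht
      have h1 : (η k).normed volume (z - t) ≠ 0 := by
        intro h0
        exact ht (by simp [hφ, h0])
      have h2 : z - t ∈ Function.support ((η k).normed volume) := h1
      rw [(η k).support_normed_eq, mem_ball_zero_iff] at h2
      rw [mem_closedBall, dist_comm, dist_eq_norm]
      exact h2.le
    have hφc : HasCompactSupport φ :=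
      (isCompact_closedBall z (η k).rOut).of_isClosed_subset (isClosed_tsupport _) hφsupp
    have := h φ hφs hφc (hφsupp.trans (by
      refine Subset.trans ?_ hδ'
      intro t ht
      rw [mem_closedBall] at ht
      rw [mem_ball] at hz ⊢
      have := dist_triangle t z z₁
      linarith [hrle k]))
    simp_rw [hφd] at this
    exact this
  -- uniform convergence
  have huc : UniformContinuous F := hFc.uniformContinuous_of_continuous hF
  have hconv : TendstoUniformly Fk F atTop := by
    rw [Metric.tendstoUniformly_iff]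
    intro ε hε
    obtain ⟨d, hd, hd'⟩ := Metric.uniformContinuous_iff.1 huc (ε / 2) (by positivity)
    have hlim : Tendsto (fun k : ℕ => δ / ((k : ℝ) + 2)) atTop (𝓝 0) := by
      refine Tendsto.div_atTop tendsto_const_nhds ?_
      exact tendsto_atTop_add_const_right _ _ tendsto_natCast_atTop_atTop
    filter_upwards [hlim.eventually (gt_mem_nhds hd)] with k hk z
    have h1 : Fk k = ((η k).normed volume ⋆[ContinuousLinearMap.lsmul ℝ ℝ, volume] F) := by
      rw [hFk]
      simp only [hL]
      exact convolution_flip _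
    rw [h1, dist_comm]
    refine ((η k).dist_normed_convolution_le hF.aestronglyMeasurable fun x hx => ?_).trans_lt
      (half_lt_self hε)
    rw [mem_ball, hrOut] at hx
    exact (hd' (hx.trans hk)).le
  exact (hconv.tendstoUniformlyOn.tendstoLocallyUniformlyOn (s := ball z₁ δ)).differentiableOn
    (Eventually.of_forall hholo) isOpen_ball

end Pool.Agent.H196
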